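import Mathlib

set_option autoImplicit false

noncomputable section

namespace Pool.Agent.H699T

open Set Topology

/-- words in three letters; the head is the letter farthest from the root -/
abbrev Wd := List (Fin 3)

/-- functions on half edges -/
abbrev P := Wd × Bool → ℝ

/-- reduced words -/
def good (l : Wd) : Prop := l.IsChain (· ≠ ·)

/-- the point at height `c` on the double edge below the word `l` -/
def pt (l : Wd) (c : ℝ) : P := fun v =>
  if v.1 = [] then 0
  else if v.1 = l then (if v.2 then max (c - 1) 0 else min c 1)
  else if v.1 <:+ l then 1 else 0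

/-- the finite tree of words of length at most `n` -/
def G (n : ℕ) : Set P :=
  {p | ∃ l : Wd, good l ∧ l ≠ [] ∧ l.length ≤ n ∧ ∃ c ∈ Icc (0 : ℝ) 2, p = pt l c}

/-- the bonding map: delete the letter next to the root -/
def phi (p : P) : P := fun v =>
  if v.1 = [] then 0
  else (∑ y : Fin 3, p (v.1 ++ [y], v.2)) +
    (if v.1.length = 1 ∧ v.2 = false then p (v.1, false) - p (v.1, true) else 0)

/-- coordinate sum -/
def F (l : Wd) (p : P) : ℝ := p (l, false) + p (l, true)

theorem continuous_F (l : Wd) : Continuous (F l) := by
  unfold F; fun_prop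

theorem continuous_phi : Continuous phi := by
  unfold phi
  refine continuous_pi fun v => ?_
  by_cases h : v.1 = []
  · simp only [h, if_true]; exact continuous_const
  · simp only [h, if_false]
    refine Continuous.add ?_ ?_
    · exact continuous_finsetSum _ fun y _ => continuous_apply _
    · by_cases h' : v.1.length = 1 ∧ v.2 = false
      · simp only [h', and_self, if_true]
        exact (continuous_apply _).sub (continuous_apply _)
      · simp only [h', if_false]; exact continuous_const

theorem continuous_pt (l : Wd) : Continuous (pt l) := by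
  unfold pt
  refine continuous_pi fun v => ?_
  by_cases h : v.1 = []
  · simp only [h, if_true]; exact continuous_const
  · simp only [h, if_false]
    by_cases h2 : v.1 = l
    · simp only [h2, if_true]
      by_cases h3 : v.2 = true
      · simp only [h3, if_true]; fun_prop
      · simp only [h3, Bool.false_eq_true, if_false]; fun_prop
    · simp only [h2, if_false]
      exact continuous_const

theorem pt_nil (c : ℝ) : pt [] c = 0 := by
  funext v
  unfold pt
  by_cases h : v.1 = []
  · simp [h]
  · simp [h]

theorem pt_zero (y : Fin 3) (l : Wd) : pt (y :: l) 0 = pt l 2 := by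
  funext v
  obtain ⟨m, b⟩ := v
  unfold pt
  simp only
  by_cases h : m = []
  · simp [h]
  simp only [h, if_false]
  by_cases h1 : m = y :: l
  · subst h1
    have h2 : ¬ (y :: l = l) := by
      intro h; have := congrArg List.length h; simp at this
    have h3 : ¬ (y :: l <:+ l) := by
      intro h; have := h.length_le; simp at this
    cases b <;> simp [h2, h3]
  · simp only [h1, if_false]
    by_cases h2 : m = l
    · subst h2
      have h3 : m <:+ y :: m := List.suffix_cons _ _
      cases b <;> (simp [h3]; try norm_num)
    · simp only [h2, if_false]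
      have h3 : (m <:+ y :: l) ↔ m <:+ l := by
        rw [List.suffix_cons_iff]; simp [h1]
      simp only [h3]

theorem pt_singleton_zero (y : Fin 3) : pt [y] 0 = 0 := by rw [pt_zero, pt_nil]

theorem F_pt_self {l : Wd} (hl : l ≠ []) {c : ℝ} : F l (pt l c) = c := by
  unfold F pt
  simp only [hl, if_false, if_true]
  simp only [Bool.false_eq_true, if_false]
  rcases le_total c 1 with h | h
  · rw [min_eq_left h, max_eq_right (by linarith)]; ring
  · rw [min_eq_right h, max_eq_left (by linarith)]; ring

theorem F_pt_suffix {l m : Wd} (hl : l ≠ []) (h : l <:+ m) (hne : l ≠ m) {c : ℝ} :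
    F l (pt m c) = 2 := by
  unfold F pt
  simp only [hl, hne, h, if_false, if_true]
  norm_num

theorem F_pt_not {l m : Wd} (h : ¬ l <:+ m) {c : ℝ} : F l (pt m c) = 0 := by
  have h1 : l ≠ m := by rintro rfl; exact h List.suffix_rfl
  have h2 : l ≠ [] := by rintro rfl; exact h List.nil_suffix
  unfold F pt
  simp [h1, h2, h]

/-- the level sets of `F l` are single points strictly between `0` and `2` -/
theorem F_unique {n k : ℕ} {p q : P} (hp : p ∈ G n) (hq : q ∈ G k) {l : Wd} (hl : l ≠ [])
    (h0 : 0 < F l p) (h2 : F l p < 2) (he : F l p = F l q) : p = q := by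
  have key : ∀ {n : ℕ} {p : P}, p ∈ G n → 0 < F l p → F l p < 2 → p = pt l (F l p) := by
    rintro n p ⟨m, -, hm0, -, c, -, rfl⟩ h0 h2
    by_cases hs : l <:+ m
    · by_cases hm : l = m
      · subst hm; rw [F_pt_self hl]
      · rw [F_pt_suffix hl hs hm] at h2
        exact absurd h2 (lt_irrefl _)
    · rw [F_pt_not hs] at h0
      exact absurd h0 (lt_irrefl _)
  rw [key hp h0 h2, key hq (he ▸ h0) (he ▸ h2), he]

theorem suffix_concat_iff {m l : Wd} {y z : Fin 3} : m ++ [y] <:+ l ++ [z] ↔ y = z ∧ m <:+ l := by
  constructor
  · rintro ⟨t, ht⟩
    rw [← List.append_assoc] at ht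
    have := List.append_inj' ht rfl
    refine ⟨by simpa using this.2, ⟨t, this.1⟩⟩
  · rintro ⟨rfl, t, ht⟩
    exact ⟨t, by rw [← List.append_assoc, ht]⟩

theorem concat_eq_iff {m l : Wd} {y z : Fin 3} : m ++ [y] = l ++ [z] ↔ y = z ∧ m = l := by
  constructor
  · intro h
    have := List.append_inj' h rfl
    exact ⟨by simpa using this.2, this.1⟩
  · rintro ⟨rfl, rfl⟩; rfl

theorem phi_pt_concat {l : Wd} (hl : l ≠ []) (z : Fin 3) (c : ℝ) :
    phi (pt (l ++ [z]) c) = pt l c := by
  funext v
  obtain ⟨m, b⟩ := v
  by_cases hm : m = []
  · simp [phi, pt, hm]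
  have hcorr : (if m.length = 1 ∧ b = false then
      pt (l ++ [z]) c (m, false) - pt (l ++ [z]) c (m, true) else 0) = 0 := by
    split_ifs with h
    · have h1 : m ≠ l ++ [z] := by
        rintro rfl
        have h2 := h.1
        have h3 : 0 < l.length := List.length_pos_of_ne_nil hl
        rw [List.length_append, List.length_singleton] at h2
        omega
      simp [pt, hm, h1]
    · rfl
  have hsum : (∑ y : Fin 3, pt (l ++ [z]) c (m ++ [y], b)) = pt l c (m, b) := by
    rw [Finset.sum_eq_single z]
    · unfold pt
      have h1 : (m ++ [z] = []) ↔ False := by simp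
      have h2 : (m ++ [z] = l ++ [z]) ↔ m = l := by rw [concat_eq_iff]; simp
      have h3 : (m ++ [z] <:+ l ++ [z]) ↔ m <:+ l := by rw [suffix_concat_iff]; simp
      simp only [h1, h2, h3, if_false, hm]
    · intro y _ hy
      unfold pt
      have h1 : (m ++ [y] = []) ↔ False := by simp
      have h2 : (m ++ [y] = l ++ [z]) ↔ False := by rw [concat_eq_iff]; simp [hy]
      have h3 : (m ++ [y] <:+ l ++ [z]) ↔ False := by rw [suffix_concat_iff]; simp [hy]
      simp only [h1, h2, h3, if_false]
    · simp
  unfold phi
  simp only [hm, if_false]
  rw [hcorr, hsum, add_zero]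

theorem phi_pt_singleton (x : Fin 3) (c : ℝ) : phi (pt [x] c) = pt [x] (min c (2 - c)) := by
  funext v
  obtain ⟨m, b⟩ := v
  by_cases hm : m = []
  · simp [phi, pt, hm]
  have hsum : (∑ y : Fin 3, pt [x] c (m ++ [y], b)) = 0 := by
    apply Finset.sum_eq_zero
    intro y _
    have hpos : 0 < m.length := List.length_pos_of_ne_nil hm
    have h1 : (m ++ [y] = []) ↔ False := by simp
    have h2 : (m ++ [y] = [x]) ↔ False := by
      simp only [iff_false]
      intro h; have := congrArg List.length h; simp at this; exact hm this
    have h3 : (m ++ [y] <:+ [x]) ↔ False := by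
      simp only [iff_false]
      intro h; have := h.length_le; simp at this; exact hm this
    unfold pt
    simp only [h1, h2, h3, if_false]
  unfold phi
  simp only [hm, if_false]
  rw [hsum, zero_add]
  by_cases hx : m = [x]
  · subst hx
    cases b
    · simp only [List.length_singleton, true_and, if_true]
      unfold pt
      simp only [hm, if_false, if_true, Bool.false_eq_true]
      rcases le_total c 1 with h | h
      · rw [min_eq_left h, max_eq_right (by linarith), min_eq_left (show c ≤ 2 - c by linarith),
          min_eq_left h]; ring
      · rw [min_eq_right h, max_eq_left (by linarith), min_eq_right (show 2 - c ≤ c by linarith),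
          min_eq_left (by linarith)]; ring
    · simp only [List.length_singleton, true_and, Bool.true_eq_false, if_false]
      unfold pt
      simp only [hm, if_false, if_true]
      rw [max_eq_right]
      rcases le_total c 1 with h | h
      · have := min_le_left c (2 - c); linarith
      · have := min_le_right c (2 - c); linarith
  · have h3 : (m <:+ [x]) ↔ False := by
      simp only [iff_false]
      intro h
      rw [List.suffix_cons_iff] at h
      rcases h with h | h
      · exact hx h
      · exact hm (List.suffix_nil.mp h)
    unfold pt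
    simp only [hm, hx, h3, if_false]
    simp

theorem phi_zero : phi 0 = 0 := by
  funext v
  simp [phi]

end Pool.Agent.H699T
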