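import Pool.Agent.H699T.Sep

set_option autoImplicit false

noncomputable section

namespace Pool.Agent.H699T

open Set Topology Filter

theorem y1_val {w : Fin 3} {s : ℝ} (hs : s ∈ Icc (0 : ℝ) 1) :
    y1 (pt [w] s) = 1 - (if w = 1 then s else 0) + (if w = 0 then s else 0) / 2 := by
  unfold y1
  rw [pt_single_coord _ _ hs, pt_single_coord _ _ hs]
  fin_cases w <;> simp

theorem y2_val {w : Fin 3} {s : ℝ} (hs : s ∈ Icc (0 : ℝ) 1) :
    y2 (pt [w] s) = 2 + (if w = 2 then s else 0) - (if w = 0 then s else 0) / 2 := by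
  unfold y2
  rw [pt_single_coord _ _ hs, pt_single_coord _ _ hs]
  fin_cases w <;> simp

theorem cont_y1 : Continuous y1 := by unfold y1; fun_prop
theorem cont_y2 : Continuous y2 := by unfold y2; fun_prop

theorem isCompact_MP : IsCompact MP := by
  have : MP = ⋃ x : Fin 3, pt [x] '' Icc (0 : ℝ) 1 := by
    ext g
    simp only [MP, mem_ofPred_eq, mem_iUnion, mem_image]
    constructor
    · rintro ⟨x, s, hs, rfl⟩; exact ⟨x, s, hs, rfl⟩
    · rintro ⟨x, s, hs, rfl⟩; exact ⟨x, s, hs, rfl⟩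
  rw [this]
  exact isCompact_iUnion fun x => isCompact_Icc.image (continuous_pt [x])

theorem MP_sub : MP ⊆ G 1 := by
  rintro p ⟨x, s, hs, rfl⟩
  exact pt_mem_G (good_singleton x) (by simp) (by simp) ⟨hs.1, hs.2.trans (by norm_num)⟩

theorem isClosed_sheet (n : ℕ) (z τ : ℝ) : IsClosed (sheet n z τ) := by
  have : sheet n z τ = {x : P × ℝ × ℝ | x.1 ∈ G (n + 1)} ∩ ({x : P × ℝ × ℝ | x.2.1 = z} ∩
      {x : P × ℝ × ℝ | x.2.2 = τ}) := by
    ext x; simp only [sheet, mem_inter_iff, mem_ofPred_eq]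
  rw [this]
  exact ((isClosed_G (n + 1)).preimage continuous_fst).inter
    ((isClosed_eq (by fun_prop) continuous_const).inter (isClosed_eq (by fun_prop) continuous_const))

theorem isClosed_strip {y : P → ℝ} (hy : Continuous y) (τ : ℝ) : IsClosed (strip y τ) := by
  have : strip y τ = {x : P × ℝ × ℝ | x.1 ∈ MP} ∩ ({x : P × ℝ × ℝ | x.2.1 = y x.1} ∩
      {x : P × ℝ × ℝ | x.2.2 = τ}) := by
    ext x; simp only [strip, mem_inter_iff, mem_ofPred_eq]
  rw [this]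
  exact (isCompact_MP.isClosed.preimage continuous_fst).inter
    ((isClosed_eq (by fun_prop) (hy.comp continuous_fst)).inter
      (isClosed_eq (by fun_prop) continuous_const))

theorem isClosed_whisk (τ : ℝ) : IsClosed (whisk τ) := by
  have : whisk τ = {x : P × ℝ × ℝ | x.1 = 0} ∩ ({x : P × ℝ × ℝ | x.2.1 = 3} ∩
      {x : P × ℝ × ℝ | x.2.2 ∈ Icc τ 1}) := by
    ext x; simp only [whisk, mem_inter_iff, mem_ofPred_eq]
  rw [this]
  exact (isClosed_eq continuous_fst continuous_const).inter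
    ((isClosed_eq (by fun_prop) continuous_const).inter (isClosed_Icc.preimage (by fun_prop)))

theorem sepOn_sheet (n : ℕ) (z τ : ℝ) : SepOn (sheet n z τ) := by
  refine (sepOn_G (n + 1)).pull (u := Prod.fst) continuous_fst.continuousOn ?_ fun x hx => hx.1
  rintro ⟨p, z', τ'⟩ ⟨-, h1, h2⟩ ⟨q, z'', τ''⟩ ⟨-, h3, h4⟩ he
  simp only at h1 h2 h3 h4 he
  rw [he, h1, h2, h3, h4]

theorem sepOn_strip (y : P → ℝ) (τ : ℝ) : SepOn (strip y τ) := by
  refine (sepOn_G 1).pull (u := Prod.fst) continuous_fst.continuousOn ?_ fun x hx => MP_sub hx.1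
  rintro ⟨p, z', τ'⟩ ⟨-, h1, h2⟩ ⟨q, z'', τ''⟩ ⟨-, h3, h4⟩ he
  simp only at h1 h2 h3 h4 he
  rw [he] at h1
  rw [he, h1, h2, h3, h4]

theorem sepOn_whisk (τ : ℝ) : SepOn (whisk τ) := by
  refine sepOn_real.pull (u := fun x => x.2.2) (by fun_prop) ?_ fun x _ => mem_univ _
  rintro ⟨p, z', τ'⟩ ⟨h0, h1, -⟩ ⟨q, z'', τ''⟩ ⟨h2, h3, -⟩ he
  simp only at h0 h1 h2 h3 he
  rw [h0, h1, h2, h3, he]

theorem sepOn_SS (n : ℕ) (τ : ℝ) : SepOn (SS n τ) := by
  have c1 : IsClosed (sheet n 0 τ ∪ strip y1 τ) :=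
    (isClosed_sheet n 0 τ).union (isClosed_strip cont_y1 τ)
  have c2 := c1.union (isClosed_strip cont_y2 τ)
  have c3 := c2.union (isClosed_sheet n 3 τ)
  have s1 : SepOn (sheet n 0 τ ∪ strip y1 τ) := by
    refine SepOn.glue (c := (pt [1] 1, 0, τ)) (isClosed_sheet n 0 τ) (isClosed_strip cont_y1 τ)
      ?_ (sepOn_sheet n 0 τ) (sepOn_strip y1 τ)
    rintro ⟨p, z, t⟩ ⟨⟨-, h1, h2⟩, ⟨⟨w, s, hs, h3⟩, h4, -⟩⟩
    simp only at h1 h2 h3 h4
    rw [h3, y1_val hs, h1] at h4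
    have hs' : w = 1 ∧ s = 1 := by
      obtain ⟨s0, s1⟩ := hs
      fin_cases w <;> simp at h4 ⊢ <;> linarith
    rw [h1, h2, h3, hs'.1, hs'.2]
    rfl
  have s2 : SepOn ((sheet n 0 τ ∪ strip y1 τ) ∪ strip y2 τ) := by
    refine SepOn.glue (c := (pt [0] 1, 3 / 2, τ)) c1 (isClosed_strip cont_y2 τ)
      ?_ s1 (sepOn_strip y2 τ)
    rintro ⟨p, z, t⟩ ⟨h, ⟨⟨w, s, hs, h3⟩, h4, h5⟩⟩
    simp only at h3 h4 h5
    rw [h3, y2_val hs] at h4
    rcases h with ⟨-, h1, -⟩ | ⟨-, h1, -⟩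
    · exfalso
      simp only at h1
      rw [h1] at h4
      obtain ⟨s0, s1⟩ := hs
      fin_cases w <;> simp at h4 <;> linarith
    · simp only at h1
      rw [h3, y1_val hs] at h1
      have hs' : w = 0 ∧ s = 1 ∧ z = 3 / 2 := by
        obtain ⟨s0, s1⟩ := hs
        fin_cases w <;> simp at h1 h4 ⊢
        · constructor <;> linarith
        · linarith
        · linarith
      rw [h3, h5, hs'.1, hs'.2.1, hs'.2.2]
      rfl
  have s3 : SepOn (((sheet n 0 τ ∪ strip y1 τ) ∪ strip y2 τ) ∪ sheet n 3 τ) := by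
    refine SepOn.glue (c := (pt [2] 1, 3, τ)) c2 (isClosed_sheet n 3 τ)
      ?_ s2 (sepOn_sheet n 3 τ)
    rintro ⟨p, z, t⟩ ⟨h, ⟨-, h4, h5⟩⟩
    simp only at h4 h5
    rcases h with (⟨-, h1, -⟩ | ⟨⟨w, s, hs, h3⟩, h1, -⟩) | ⟨⟨w, s, hs, h3⟩, h1, -⟩
    · exfalso
      simp only at h1
      rw [h1] at h4
      norm_num at h4
    · exfalso
      simp only at h1 h3
      rw [h3, y1_val hs, h4] at h1
      obtain ⟨s0, s1⟩ := hs
      fin_cases w <;> simp at h1 <;> linarith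
    · simp only at h1 h3
      rw [h3, y2_val hs, h4] at h1
      have hs' : w = 2 ∧ s = 1 := by
        obtain ⟨s0, s1⟩ := hs
        fin_cases w <;> simp at h1 ⊢ <;> linarith
      rw [h3, h4, h5, hs'.1, hs'.2]
      rfl
  refine SepOn.glue (c := (0, 3, τ)) c3 (isClosed_whisk τ) ?_ s3 (sepOn_whisk τ)
  rintro ⟨p, z, t⟩ ⟨h, ⟨h3, h4, -⟩⟩
  simp only at h3 h4
  rcases h with ((⟨-, h1, -⟩ | ⟨-, h1, -⟩) | ⟨-, h1, -⟩) | ⟨-, -, h5⟩
  · exfalso
    simp only at h1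
    rw [h1] at h4
    norm_num at h4
  · exfalso
    simp only at h1
    rw [h3, h4] at h1
    simp [y1] at h1
  · exfalso
    simp only at h1
    rw [h3, h4] at h1
    simp [y2] at h1
  · simp only at h5
    rw [h3, h4, h5]
    rfl

/-- the finite tree contains no simple closed curve -/
theorem no_circle_SS (n : ℕ) (τ : ℝ) (c : Circle → P × ℝ × ℝ) (hc : Continuous c)
    (hS : ∀ z, c z ∈ SS n τ) : ¬ Function.Injective c :=
  (sepOn_SS n τ).no_circle c hc hS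

theorem isCompact_SS (n : ℕ) (τ : ℝ) : IsCompact (SS n τ) := by
  have hcl : IsClosed (SS n τ) :=
    ((((isClosed_sheet n 0 τ).union (isClosed_strip cont_y1 τ)).union
      (isClosed_strip cont_y2 τ)).union (isClosed_sheet n 3 τ)).union (isClosed_whisk τ)
  have hcomp : IsCompact ((Set.pi univ fun _ : Wd × Bool => Icc (0 : ℝ) 1) ×ˢ
      (Icc (-1 : ℝ) 3 ×ˢ (Icc (min τ 0) (max τ 1)))) :=
    (isCompact_univ_pi fun _ => isCompact_Icc).prod (isCompact_Icc.prod isCompact_Icc)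
  refine hcomp.of_isClosed_subset hcl ?_
  have hτ : τ ∈ Icc (min τ 0) (max τ 1) := ⟨min_le_left _ _, le_max_left _ _⟩
  rintro ⟨p, z, t⟩ h
  rcases h with (((⟨h1, h2, h3⟩ | ⟨h1, h2, h3⟩) | ⟨h1, h2, h3⟩) | ⟨h1, h2, h3⟩) | ⟨h1, h2, h3⟩
  · simp only at h1 h2 h3
    subst h2 h3
    exact ⟨fun v _ => G_coord h1 v, by norm_num, hτ⟩
  · simp only at h1 h2 h3
    subst h3
    refine ⟨fun v _ => G_coord (MP_sub h1) v, ?_, hτ⟩
    have a := G_coord (MP_sub h1) ([1], false)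
    have b := G_coord (MP_sub h1) ([0], false)
    show z ∈ Icc (-1 : ℝ) 3
    rw [h2]; unfold y1
    exact ⟨by linarith [a.2, b.1], by linarith [a.1, b.2]⟩
  · simp only at h1 h2 h3
    subst h3
    refine ⟨fun v _ => G_coord (MP_sub h1) v, ?_, hτ⟩
    have a := G_coord (MP_sub h1) ([2], false)
    have b := G_coord (MP_sub h1) ([0], false)
    show z ∈ Icc (-1 : ℝ) 3
    rw [h2]; unfold y2
    exact ⟨by linarith [a.1, b.2], by linarith [a.2, b.1]⟩
  · simp only at h1 h2 h3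
    subst h2 h3
    exact ⟨fun v _ => G_coord h1 v, by norm_num, hτ⟩
  · simp only at h1 h2 h3
    subst h1 h2
    refine ⟨fun v _ => by simp, by norm_num, ?_⟩
    exact ⟨(min_le_left _ _).trans h3.1, h3.2.trans (le_max_right _ _)⟩

end Pool.Agent.H699T
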