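import Pool.Agent.H699T.Onto
import Pool.Agent.H699T.NoCircle

set_option autoImplicit false

noncomputable section

namespace Pool.Agent.H699T

open Set Topology Filter

/-- the data still needed for the finite trees -/
def ArcsOf (S : Set (P × ℝ × ℝ)) : Prop :=
  ∃ (ι : Type) (_ : Finite ι) (e : ι → unitInterval → P × ℝ × ℝ),
    (∀ i, Continuous (e i) ∧ Function.Injective (e i)) ∧ (∀ i s, e i s ∈ S) ∧
    (∀ p ∈ S, ∃ i s, e i s = p) ∧
    (∀ i j, i ≠ j → ∀ s t, e i s = e j t → (s = 0 ∨ s = 1) ∧ (t = 0 ∨ t = 1))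

theorem isFiniteTree_of {n : ℕ} {τ : ℝ} (hc : IsConnected (SS n τ)) (ha : ArcsOf (SS n τ)) :
    IsFiniteTree ↥(SS n τ) := by
  refine ⟨isCompact_iff_compactSpace.mp (isCompact_SS n τ), inferInstance,
    isConnected_iff_connectedSpace.mp hc, ?_, ?_⟩
  · obtain ⟨ι, hι, e, h1, h2, h3, h4⟩ := ha
    refine ⟨ι, hι, fun i s => ⟨e i s, h2 i s⟩, ?_, ?_, ?_⟩
    · intro i
      refine ⟨Continuous.subtype_mk (h1 i).1 _, ?_⟩
      intro s t h
      exact (h1 i).2 (congrArg Subtype.val h)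
    · rintro ⟨p, hp⟩
      obtain ⟨i, s, he⟩ := h3 p hp
      exact ⟨i, s, Subtype.ext he⟩
    · intro i j hij s t h
      exact h4 i j hij s t (congrArg Subtype.val h)
  · intro c hc' hi
    exact no_circle_SS n τ (fun z => (c z).1) (continuous_subtype_val.comp hc') (fun z => (c z).2)
      (Subtype.val_injective.comp hi)

/-- the small maps onto finite trees -/
theorem tree_maps {E : Type} [MetricSpace E] (e : E ≃ₜ XX)
    (hT : ∀ n, 1 ≤ n → IsFiniteTree ↥(SS n (tau n))) {ε : ℝ} (hε : 0 < ε) :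
    ∃ (T : Type) (_ : TopologicalSpace T) (g : E → T), IsFiniteTree T ∧ Continuous g ∧
      Function.Surjective g ∧ ∀ t : T, Metric.diam (g ⁻¹' {t}) < ε := by
  obtain ⟨n, hn⟩ := small_fibres e (half_pos hε)
  refine ⟨↥(SS (n + 1) (tau (n + 1))), inferInstance,
    fun x => ⟨gmap (n + 1) (e x).1, gmap_mem (n + 1) (e x).2⟩, hT (n + 1) (by omega), ?_, ?_, ?_⟩
  · exact Continuous.subtype_mk ((continuous_gmap (n + 1)).comp
      (continuous_subtype_val.comp e.continuous)) _
  · rintro ⟨q, hq⟩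
    obtain ⟨x, hx, he⟩ := gmap_surj (n + 1) hq
    refine ⟨e.symm ⟨x, hx⟩, Subtype.ext ?_⟩
    show gmap (n + 1) (e (e.symm ⟨x, hx⟩)).1 = q
    rw [e.apply_symm_apply]
    exact he
  · intro t
    refine lt_of_le_of_lt (Metric.diam_le_of_forall_dist_le (half_pos hε).le ?_) (half_lt_self hε)
    intro x hx x' hx'
    refine (hn (n + 1) (Nat.le_succ n) x x' ?_).le
    have h1 : (⟨gmap (n + 1) (e x).1, gmap_mem (n + 1) (e x).2⟩ : ↥(SS (n + 1) (tau (n + 1)))) = t := hx
    have h2 : (⟨gmap (n + 1) (e x').1, gmap_mem (n + 1) (e x').2⟩ : ↥(SS (n + 1) (tau (n + 1)))) = t :=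
      hx'
    exact congrArg Subtype.val (h1.trans h2.symm)

/-- metrics on the spaces -/
def mX : MetricSpace XX := TopologicalSpace.metrizableSpaceMetric XX
def mY : MetricSpace YY := TopologicalSpace.metrizableSpaceMetric YY

theorem mX_top : mX.toPseudoMetricSpace.toUniformSpace.toTopologicalSpace =
    (instTopologicalSpaceSubtype : TopologicalSpace XX) := rfl
theorem mY_top : mY.toPseudoMetricSpace.toUniformSpace.toTopologicalSpace =
    (instTopologicalSpaceSubtype : TopologicalSpace YY) := rfl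

end Pool.Agent.H699T
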