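import Pool.Agent.H699T.A

set_option autoImplicit false

noncomputable section

namespace Pool.Agent.H699T

open Set Topology

theorem good_nil : good [] := List.IsChain.nil
theorem good_singleton (x : Fin 3) : good [x] := List.IsChain.singleton x

theorem good_cons_cons {x y : Fin 3} {l : Wd} : good (x :: y :: l) ↔ x ≠ y ∧ good (y :: l) :=
  List.isChain_cons_cons

theorem good_tail {x : Fin 3} {l : Wd} (h : good (x :: l)) : good l := by
  unfold good at *
  exact h.tail

theorem good_concat_left {l : Wd} {z : Fin 3} (h : good (l ++ [z])) : good l := by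
  unfold good at *
  exact (List.isChain_append.mp h).1

theorem exists_good_concat {l : Wd} (h : good l) : ∃ z, good (l ++ [z]) := by
  obtain ⟨z, hz⟩ : ∃ z : Fin 3, ∀ x ∈ l.getLast?, x ≠ z := by
    rcases h' : l.getLast? with _ | a
    · exact ⟨0, by simp⟩
    · refine ⟨a + 1, ?_⟩
      intro x hx
      simp only [Option.mem_def, Option.some.injEq] at hx
      subst hx
      have key : ∀ a : Fin 3, a ≠ a + 1 := by decide
      exact key a
  refine ⟨z, ?_⟩
  unfold good at *
  rw [List.isChain_append]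
  refine ⟨h, List.IsChain.singleton z, ?_⟩
  intro x hx y hy
  simp only [List.head?_cons, Option.mem_def, Option.some.injEq] at hy
  subst hy
  exact hz x hx

theorem pt_mem_G {n : ℕ} {l : Wd} (hg : good l) (h0 : l ≠ []) (hn : l.length ≤ n) {c : ℝ}
    (hc : c ∈ Icc (0 : ℝ) 2) : pt l c ∈ G n := ⟨l, hg, h0, hn, c, hc, rfl⟩

theorem pt_two_mem_G {n : ℕ} {l : Wd} (hg : good l) (hn : l.length ≤ n + 1) :
    pt l 2 ∈ G (n + 1) := by
  rcases l with _ | ⟨x, l⟩
  · rw [← pt_zero 0 []]
    exact pt_mem_G (good_singleton 0) (by simp) (by simp) (by norm_num)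
  · exact pt_mem_G hg (by simp) hn (by norm_num)

theorem zero_mem_G (n : ℕ) : (0 : P) ∈ G (n + 1) := by
  rw [← pt_nil 2]
  exact pt_two_mem_G good_nil (by simp)

theorem min_mem {c : ℝ} (hc : c ∈ Icc (0 : ℝ) 2) : min c (2 - c) ∈ Icc (0 : ℝ) 1 := by
  obtain ⟨h0, h2⟩ := hc
  refine ⟨le_min h0 (by linarith), ?_⟩
  rcases le_total c 1 with h | h
  · exact (min_le_left _ _).trans h
  · exact (min_le_right _ _).trans (by linarith)

theorem phi_mem {n : ℕ} {p : P} (hp : p ∈ G (n + 2)) : phi p ∈ G (n + 1) := by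
  obtain ⟨l, hg, h0, hn, c, hc, rfl⟩ := hp
  rcases List.eq_nil_or_concat l with rfl | ⟨l', z, rfl⟩
  · exact absurd rfl h0
  rw [List.concat_eq_append] at *
  by_cases hl' : l' = []
  · subst hl'
    rw [List.nil_append, phi_pt_singleton]
    have := min_mem hc
    exact pt_mem_G (good_singleton z) (by simp) (by simp) ⟨this.1, this.2.trans (by norm_num)⟩
  · rw [phi_pt_concat hl']
    rw [List.length_append, List.length_singleton] at hn
    exact pt_mem_G (good_concat_left hg) hl' (by omega) hc

theorem phi_surj {n : ℕ} {p : P} (hp : p ∈ G (n + 1)) : ∃ q ∈ G (n + 2), phi q = p := by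
  obtain ⟨l, hg, h0, hn, c, hc, rfl⟩ := hp
  obtain ⟨z, hz⟩ := exists_good_concat hg
  refine ⟨pt (l ++ [z]) c, pt_mem_G hz (by simp) (by simp; omega) hc, phi_pt_concat h0 z c⟩

theorem phi_iter {n : ℕ} : ∀ {x : Fin 3} {l : Wd} {c : ℝ}, c ∈ Icc (0 : ℝ) 2 → l.length ≤ n →
    phi^[n] (pt (x :: l) c) = pt [x] (if l.length = n then c else min c (2 - c)) := by
  induction n with
  | zero =>
    intro x l c hc hl
    have : l = [] := List.length_eq_zero_iff.mp (by omega)
    subst this
    simp
  | succ n ih =>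
    intro x l c hc hl
    rw [Function.iterate_succ_apply]
    rcases List.eq_nil_or_concat l with rfl | ⟨l', z, rfl⟩
    · rw [phi_pt_singleton]
      have hm := min_mem hc
      rw [ih ⟨hm.1, hm.2.trans (by norm_num)⟩ (by simp)]
      have h1 : min (min c (2 - c)) (2 - min c (2 - c)) = min c (2 - c) := by
        apply min_eq_left
        linarith [hm.2]
      have h2 : ¬ (([] : Wd).length = n + 1) := by simp
      rw [if_neg h2]
      split_ifs
      · rfl
      · rw [h1]
    · rw [List.concat_eq_append] at *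
      rw [List.length_append, List.length_singleton] at hl
      have : x :: (l' ++ [z]) = (x :: l') ++ [z] := rfl
      rw [this, phi_pt_concat (by simp), ih hc (by omega)]
      simp

theorem isCompact_G (n : ℕ) : IsCompact (G n) := by
  have hfin : {l : Wd | good l ∧ l ≠ [] ∧ l.length ≤ n}.Finite :=
    (List.finite_length_le (Fin 3) n).subset fun l hl => hl.2.2
  have : G n = ⋃ l ∈ {l : Wd | good l ∧ l ≠ [] ∧ l.length ≤ n}, pt l '' Icc (0 : ℝ) 2 := by
    ext p
    simp only [G, mem_ofPred_eq, mem_iUnion, mem_image, exists_prop]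
    constructor
    · rintro ⟨l, h1, h2, h3, c, hc, rfl⟩
      exact ⟨l, ⟨h1, h2, h3⟩, c, hc, rfl⟩
    · rintro ⟨l, ⟨h1, h2, h3⟩, c, hc, rfl⟩
      exact ⟨l, h1, h2, h3, c, hc, rfl⟩
  rw [this]
  exact hfin.isCompact_biUnion fun l _ => isCompact_Icc.image (continuous_pt l)

theorem F_pt_two {l w : Wd} (hl : l ≠ []) : F l (pt w 2) = 2 ↔ l <:+ w := by
  constructor
  · intro h
    by_contra hcon
    rw [F_pt_not hcon] at h
    norm_num at h
  · intro h
    by_cases he : l = w
    · subst he; exact F_pt_self hl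
    · exact F_pt_suffix hl h he

theorem form {n : ℕ} {p : P} (hp : p ∈ G n) :
    (∃ l, l ≠ [] ∧ 0 < F l p ∧ F l p < 2) ∨ ∃ w, p = pt w 2 := by
  obtain ⟨l, -, h0, -, c, hc, rfl⟩ := hp
  rcases eq_or_lt_of_le hc.1 with h | h
  · right
    rcases l with _ | ⟨x, l⟩
    · exact absurd rfl h0
    · exact ⟨l, by rw [← h, pt_zero]⟩
  · rcases eq_or_lt_of_le hc.2 with h' | h'
    · right; exact ⟨l, by rw [h']⟩
    · left; exact ⟨l, h0, by rwa [F_pt_self h0], by rwa [F_pt_self h0]⟩

theorem F_sep {n : ℕ} {p q : P} (hp : p ∈ G n) (hq : q ∈ G n)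
    (h : ∀ l, l ≠ [] → F l p = F l q) : p = q := by
  rcases form hp with ⟨l, hl, h0, h2⟩ | ⟨w, rfl⟩
  · exact F_unique hp hq hl h0 h2 (h l hl)
  · rcases form hq with ⟨l, hl, h0, h2⟩ | ⟨w', rfl⟩
    · exact (F_unique hq hp hl h0 h2 (h l hl).symm).symm
    · have key : ∀ l : Wd, l ≠ [] → (l <:+ w ↔ l <:+ w') := fun l hl => by
        rw [← F_pt_two hl, ← F_pt_two hl, h l hl]
      have : w = w' := by
        by_cases hw : w = []
        · by_cases hw' : w' = []
          · rw [hw, hw']
          · have := (key w' hw').mpr List.suffix_rfl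
            rw [hw] at this
            exact absurd (List.suffix_nil.mp this) hw'
        · have h1 := (key w hw).mp List.suffix_rfl
          by_cases hw' : w' = []
          · rw [hw'] at h1
            exact absurd (List.suffix_nil.mp h1) hw
          · have h2 := (key w' hw').mpr List.suffix_rfl
            exact h1.eq_of_length (le_antisymm h1.length_le h2.length_le)
      rw [this]

/-- values of the coordinates at a point of `G n` -/
theorem F_mem {n : ℕ} {p : P} (hp : p ∈ G n) (l : Wd) : F l p ∈ Icc (0 : ℝ) 2 := by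
  obtain ⟨m, -, h0, -, c, hc, rfl⟩ := hp
  by_cases hl : l = []
  · subst hl
    simp [F, pt]
  by_cases hs : l <:+ m
  · by_cases he : l = m
    · subst he; rwa [F_pt_self hl]
    · rw [F_pt_suffix hl hs he]; norm_num
  · rw [F_pt_not hs]; norm_num

end Pool.Agent.H699T
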