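import Pool.Agent.H699T.B

set_option autoImplicit false

noncomputable section

namespace Pool.Agent.H699T

open Set Topology

/-- height on the leg of colour `x`, seen at the first level -/
def hgt (x : Fin 3) (p : P) : ℝ := p ([x], false) - p ([x], true)

/-- equal to `1` away from the leaves -/
def rho (p : P) : ℝ := 1 - ∑ x : Fin 3, p ([x], true)

/-- the thresholds -/
def theta (x : Fin 3) : ℝ := if x = 0 then 3 / 2 else if x = 1 then 1 / 2 else 5 / 2

/-- the height function on the sheet that misses the colour `x` -/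
def HH (x : Fin 3) (p : P) : ℝ := 1 + (theta x - 1) * rho p

/-- level `n` approximation of the base -/
def LL (n : ℕ) : Set (P × ℝ) :=
  {q | q.1 ∈ G (n + 1) ∧ ∃ x, hgt x (phi^[n] q.1) = 0 ∧ q.2 = HH x (phi^[n] q.1)}

theorem continuous_hgt (x : Fin 3) : Continuous (hgt x) := by unfold hgt; fun_prop
theorem continuous_rho : Continuous rho := by unfold rho; fun_prop
theorem continuous_HH (x : Fin 3) : Continuous (HH x) := by
  unfold HH; have := continuous_rho; fun_prop

theorem hgt_pt_ne {x y : Fin 3} (h : x ≠ y) (c : ℝ) : hgt x (pt [y] c) = 0 := by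
  unfold hgt pt
  have h1 : ¬ ([x] = [y]) := by simpa using h
  have h2 : ¬ ([x] <:+ [y]) := by
    rw [List.suffix_cons_iff]; simp [h]
  simp [h, h2]

theorem hgt_pt_self (y : Fin 3) (c : ℝ) (hc : c ∈ Icc (0 : ℝ) 2) :
    hgt y (pt [y] c) = min c (2 - c) := by
  unfold hgt pt
  simp only [List.cons_ne_self, if_false, if_true, Bool.false_eq_true, reduceCtorEq]
  rcases le_total c 1 with h | h
  · rw [min_eq_left h, max_eq_right (by linarith), min_eq_left (by linarith)]; ring
  · rw [min_eq_right h, max_eq_left (by linarith), min_eq_right (by linarith)]; ring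

theorem rho_pt (y : Fin 3) (c : ℝ) : rho (pt [y] c) = 1 - max (c - 1) 0 := by
  unfold rho
  rw [Finset.sum_eq_single y]
  · simp [pt]
  · intro x _ hx
    have h2 : ¬ ([x] <:+ [y]) := by
      rw [List.suffix_cons_iff]; simp [hx]
    simp [pt, hx, h2]
  · simp

theorem rho_zero : rho 0 = 1 := by simp [rho]

theorem phi_iter_zero (n : ℕ) : phi^[n] 0 = 0 := by
  induction n with
  | zero => rfl
  | succ n ih => rw [Function.iterate_succ_apply, phi_zero, ih]

theorem continuous_phi_iter (n : ℕ) : Continuous (phi^[n]) := continuous_phi.iterate n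

/-- the vertex over `w` in the sheet `x` -/
def C (n : ℕ) (w : Wd) (x : Fin 3) : P × ℝ := (pt w 2, HH x (phi^[n] (pt w 2)))

theorem leg_mem {n : ℕ} {x y : Fin 3} {l : Wd} (hg : good (y :: l)) (hn : l.length ≤ n)
    (hxy : x ≠ y) {c : ℝ} (hc : c ∈ Icc (0 : ℝ) 2) :
    (pt (y :: l) c, HH x (phi^[n] (pt (y :: l) c))) ∈ LL n := by
  refine ⟨pt_mem_G hg (by simp) (by simpa using hn) hc, x, ?_, rfl⟩
  simp only
  rw [phi_iter hc hn]
  exact hgt_pt_ne hxy _

theorem leg_joined {n : ℕ} {x y : Fin 3} {l : Wd} (hg : good (y :: l)) (hn : l.length ≤ n)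
    (hxy : x ≠ y) {c d : ℝ} (hc : c ∈ Icc (0 : ℝ) 2) (hd : d ∈ Icc (0 : ℝ) 2) :
    JoinedIn (LL n) (pt (y :: l) c, HH x (phi^[n] (pt (y :: l) c)))
      (pt (y :: l) d, HH x (phi^[n] (pt (y :: l) d))) := by
  have hpc : IsPathConnected (Icc (0 : ℝ) 2) := (convex_Icc 0 2).isPathConnected ⟨0, by norm_num⟩
  have hcont : Continuous fun c : ℝ => (pt (y :: l) c, HH x (phi^[n] (pt (y :: l) c))) :=
    (continuous_pt _).prodMk ((continuous_HH x).comp ((continuous_phi_iter n).comp (continuous_pt _)))
  have := (hpc.joinedIn c hc d hd).map_continuousOn hcont.continuousOn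
  refine this.mono ?_
  rintro _ ⟨e, he, rfl⟩
  exact leg_mem hg hn hxy he

theorem C_joined {n : ℕ} {x y : Fin 3} {l : Wd} (hg : good (y :: l)) (hn : l.length ≤ n)
    (hxy : x ≠ y) : JoinedIn (LL n) (C n l x) (C n (y :: l) x) := by
  have := leg_joined hg hn hxy (c := 0) (d := 2) (by norm_num) (by norm_num)
  rw [pt_zero] at this
  exact this

theorem C_leaf {n : ℕ} {w : Wd} (hw : w.length = n + 1) (x x' : Fin 3) : C n w x = C n w x' := by
  rcases w with _ | ⟨y, l⟩
  · simp at hw
  · have hl : l.length = n := by simpa using hw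
    unfold C
    rw [phi_iter (by norm_num) hl.le, if_pos hl]
    unfold HH
    rw [rho_pt]
    norm_num

theorem third (x x' : Fin 3) (h : x ≠ x') : ∃ t, t ≠ x ∧ t ≠ x' ∧ ∀ y, y = x ∨ y = x' ∨ y = t := by
  revert x x'; decide

theorem sheets_joined {n : ℕ} : ∀ (k : ℕ) (w : Wd), good w → w.length + k = n + 1 →
    ∀ x x', JoinedIn (LL n) (C n w x) (C n w x') := by
  intro k
  induction k with
  | zero =>
    intro w hg hw x x'
    rcases w with _ | ⟨y, l⟩
    · simp at hw
    · have hl : l.length ≤ n := by simp at hw; omega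
      obtain ⟨x'', hx''⟩ : ∃ x'' : Fin 3, x'' ≠ y := ⟨y + 1, by
        have key : ∀ a : Fin 3, a + 1 ≠ a := by decide
        exact key y⟩
      have h := (C_joined hg hl hx'').target_mem
      rw [C_leaf (by simpa using hw) x x'', C_leaf (by simpa using hw) x' x'']
      exact JoinedIn.refl h
  | succ k ih =>
    intro w hg hw
    have hwn : w.length ≤ n := by omega
    have step : ∀ t x x', t ≠ x → t ≠ x' → good (t :: w) →
        JoinedIn (LL n) (C n w x) (C n w x') := by
      intro t x x' h1 h2 hgt
      have h3 := ih (t :: w) hgt (by simp; omega) x x'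
      exact ((C_joined hgt hwn h1.symm).trans h3).trans (C_joined hgt hwn h2.symm).symm
    have hgood : ∀ t, (∀ a ∈ w.head?, t ≠ a) → good (t :: w) := by
      intro t ht
      rcases w with _ | ⟨a, l⟩
      · exact good_singleton t
      · exact good_cons_cons.mpr ⟨ht a (by simp), hg⟩
    have hne : ∀ x x', x ≠ x' → JoinedIn (LL n) (C n w x) (C n w x') := by
      intro x x' hxx
      obtain ⟨t, h1, h2, h3⟩ := third x x' hxx
      by_cases ht : ∀ a ∈ w.head?, t ≠ a
      · exact step t x x' h1 h2 (hgood t ht)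
      · push Not at ht
        obtain ⟨a, ha, rfl⟩ := ht
        have e1 : JoinedIn (LL n) (C n w x) (C n w t) := by
          refine step x' x t hxx.symm h2.symm (hgood x' ?_)
          intro b hb
          have : b = t := by
            simp only [Option.mem_def] at ha hb
            rw [ha] at hb
            exact (Option.some.inj hb).symm
          rw [this]; exact h2.symm
        have e2 : JoinedIn (LL n) (C n w t) (C n w x') := by
          refine step x t x' h1.symm hxx (hgood x ?_)
          intro b hb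
          have : b = t := by
            simp only [Option.mem_def] at ha hb
            rw [ha] at hb
            exact (Option.some.inj hb).symm
          rw [this]; exact h1.symm
        exact e1.trans e2
    intro x x'
    by_cases hxx : x = x'
    · subst hxx
      obtain ⟨x'', hx''⟩ : ∃ x'' : Fin 3, x ≠ x'' := ⟨x + 1, by
        have key : ∀ a : Fin 3, a ≠ a + 1 := by decide
        exact key x⟩
      exact JoinedIn.refl (hne x x'' hx'').source_mem
    · exact hne x x' hxx

theorem all_joined {n : ℕ} : ∀ (w : Wd), good w → w.length ≤ n + 1 → ∀ x,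
    JoinedIn (LL n) (C n w x) (C n [] 0) := by
  intro w
  induction w with
  | nil => intro _ _ x; exact sheets_joined (n + 1) [] good_nil (by simp) x 0
  | cons y l ih =>
    intro hg hl x
    have hl' : l.length ≤ n := by simpa using hl
    obtain ⟨x', hx'⟩ : ∃ x' : Fin 3, x' ≠ y := ⟨y + 1, by
      have key : ∀ a : Fin 3, a + 1 ≠ a := by decide
      exact key y⟩
    have h1 := sheets_joined (n := n) (n - l.length) (y :: l) hg (by simp; omega) x x'
    exact (h1.trans (C_joined hg hl' hx').symm).trans (ih (good_tail hg) (by omega) x')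

theorem isPathConnected_LL (n : ℕ) : IsPathConnected (LL n) := by
  refine ⟨C n [] 0, (all_joined [] good_nil (by simp) 0).source_mem, ?_⟩
  rintro ⟨p, h⟩ ⟨hp, x, hx, hh⟩
  obtain ⟨l, hg, h0, hn, c, hc, rfl⟩ := hp
  rcases l with _ | ⟨y, l⟩
  · exact absurd rfl h0
  simp only at hx hh
  have hl : l.length ≤ n := by simpa using hn
  subst hh
  by_cases hxy : x = y
  · subst hxy
    have key : c = 0 ∨ c = 2 := by
      rw [phi_iter hc hl] at hx
      have aux : ∀ d : ℝ, d ∈ Icc (0 : ℝ) 2 → min d (2 - d) = 0 → d = 0 ∨ d = 2 := by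
        intro d hd h
        rcases min_choice d (2 - d) with h1 | h1
        · left; linarith
        · right; linarith
      split_ifs at hx with hif
      · rw [hgt_pt_self x c hc] at hx
        exact aux c hc hx
      · have hm := min_mem hc
        rw [hgt_pt_self x _ ⟨hm.1, hm.2.trans (by norm_num)⟩] at hx
        rcases aux _ ⟨hm.1, hm.2.trans (by norm_num)⟩ hx with h | h
        · exact aux c hc h
        · linarith [hm.2]
    rcases key with rfl | rfl
    · rw [pt_zero]
      exact (all_joined l (good_tail hg) (by omega) x).symm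
    · exact (all_joined (x :: l) hg (by simpa using hn) x).symm
  · exact ((leg_joined hg hl hxy hc (d := 2) (by norm_num)).trans
      (all_joined (y :: l) hg (by simpa using hn) x)).symm

/-- a loop that covers finitely many given paths -/
theorem exists_loop {E : Type*} [TopologicalSpace E] {S : Set E} (hS : IsPathConnected S) {b : E}
    (hb : b ∈ S) {ι : Type*} (s : Finset ι) (A : ι → Set E)
    (hA : ∀ i ∈ s, ∃ (u v : E) (γ : Path u v), A i ⊆ range γ ∧ range γ ⊆ S) :
    ∃ γ : Path b b, range γ ⊆ S ∧ ∀ i ∈ s, A i ⊆ range γ := by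
  classical
  induction s using Finset.induction_on with
  | empty => exact ⟨Path.refl b, by simpa using hb, by simp⟩
  | insert i s hi ih =>
    obtain ⟨γ, h1, h2⟩ := ih fun j hj => hA j (Finset.mem_insert_of_mem hj)
    obtain ⟨u, v, δ, h3, h4⟩ := hA i (Finset.mem_insert_self i s)
    have hu : u ∈ S := h4 ⟨0, δ.source⟩
    have hv : v ∈ S := h4 ⟨1, δ.target⟩
    obtain ⟨α, hα⟩ := hS.joinedIn b hb u hu
    obtain ⟨β, hβ⟩ := hS.joinedIn v hv b hb
    refine ⟨((γ.trans α).trans δ).trans β, ?_, ?_⟩
    · rw [Path.trans_range, Path.trans_range, Path.trans_range]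
      refine union_subset (union_subset (union_subset h1 ?_) h4) ?_
      · rintro _ ⟨t, rfl⟩; exact hα t
      · rintro _ ⟨t, rfl⟩; exact hβ t
    · intro j hj
      rw [Path.trans_range, Path.trans_range, Path.trans_range]
      rcases Finset.mem_insert.mp hj with rfl | hj
      · exact h3.trans (subset_union_right.trans subset_union_left)
      · exact (h2 j hj).trans
          (subset_union_left.trans (subset_union_left.trans subset_union_left))

theorem C_nil (n : ℕ) : C n [] 0 = (0, theta 0) := by
  unfold C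
  rw [pt_nil, phi_iter_zero]
  simp [HH, rho_zero]

theorem exists_cover_loop (n : ℕ) : ∃ γ : Path ((0 : P), theta 0) ((0 : P), theta 0),
    (∀ t, γ t ∈ LL n) ∧ ∀ p ∈ G (n + 1), ∃ t, (γ t).1 = p := by
  classical
  have hfin : {l : Wd | good l ∧ l ≠ [] ∧ l.length ≤ n + 1}.Finite :=
    (List.finite_length_le (Fin 3) (n + 1)).subset fun l hl => hl.2.2
  have hb : ((0 : P), theta 0) ∈ LL n := by
    rw [← C_nil n]
    exact (all_joined [] good_nil (by simp) 0).source_mem
  obtain ⟨γ, h1, h2⟩ := exists_loop (isPathConnected_LL n) hb hfin.toFinset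
    (fun l => (fun c => (pt l c, HH (l.head! + 1) (phi^[n] (pt l c)))) '' Icc (0 : ℝ) 2) (by
      intro l hl
      rw [Finite.mem_toFinset] at hl
      obtain ⟨hg, h0, hn⟩ := hl
      rcases l with _ | ⟨y, l⟩
      · exact absurd rfl h0
      have hy : y + 1 ≠ y := by
        have key : ∀ a : Fin 3, a + 1 ≠ a := by decide
        exact key y
      have hcont : Continuous fun c : ℝ => (pt (y :: l) c, HH (y + 1) (phi^[n] (pt (y :: l) c))) :=
        (continuous_pt _).prodMk ((continuous_HH _).comp
          ((continuous_phi_iter n).comp (continuous_pt _)))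
      set δ : Path (0 : ℝ) 2 := ⟨⟨fun t => 2 * (t : ℝ), by fun_prop⟩, by simp, by simp⟩ with hδ
      refine ⟨_, _, δ.map hcont, ?_, ?_⟩
      · rintro _ ⟨c, hc, rfl⟩
        refine ⟨⟨c / 2, ⟨by linarith [hc.1], by linarith [hc.2]⟩⟩, ?_⟩
        have : (δ ⟨c / 2, ⟨by linarith [hc.1], by linarith [hc.2]⟩⟩ : ℝ) = c := by
          show 2 * (c / 2) = c
          ring
        rw [Path.map_coe, Function.comp_apply, this]
        rfl
      · rintro _ ⟨t, rfl⟩
        rw [Path.map_coe, Function.comp_apply]
        refine leg_mem hg (by simpa using hn) hy ?_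
        show 2 * (t : ℝ) ∈ Icc (0 : ℝ) 2
        exact ⟨by linarith [t.2.1], by linarith [t.2.2]⟩)
  refine ⟨γ, fun t => h1 ⟨t, rfl⟩, ?_⟩
  rintro p ⟨l, hg, h0, hn, c, hc, rfl⟩
  obtain ⟨t, ht⟩ := h2 l (by rw [Finite.mem_toFinset]; exact ⟨hg, h0, hn⟩) ⟨c, hc, rfl⟩
  exact ⟨t, by rw [ht]⟩

end Pool.Agent.H699T
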