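import Pool.Agent.H699T.F

set_option autoImplicit false

noncomputable section

namespace Pool.Agent.H699T

open Set Topology Filter

/-- the part at infinity of `X` -/
def Xinf : Set (Th × ℝ × ℝ) := {x | x ∈ Xset ∧ x.2.2 = 0}

theorem zero_mem_Gam : (0 : Th) ∈ Gam := MM_subset_Gam zero_mem_MM

theorem Y0_mem {g : Th} (hg : g ∈ Gam) : ((g, 0) : Th × ℝ) ∈ Yset := Or.inl ⟨hg, rfl⟩

theorem Xinf_eq : Xinf = (sec (fun _ => 0) '' (Gam ×ˢ {0}) ∪ sec z1 '' (MM ×ˢ {0})) ∪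
    (sec z2 '' (MM ×ˢ {0}) ∪ sec (fun _ => 3) '' (Gam ×ˢ {0})) := by
  ext ⟨g, z, τ⟩
  constructor
  · rintro ⟨h, h0⟩
    have h0' : τ = 0 := h0
    subst h0'
    rcases h with ⟨⟨hg, h⟩, -⟩ | ⟨h, hy⟩
    · rcases h with h | h | ⟨hM, h | h⟩
      · left; left; exact ⟨(g, 0), ⟨hg, rfl⟩, by simp only [sec]; rw [← show z = 0 from h]⟩
      · right; right; exact ⟨(g, 0), ⟨hg, rfl⟩, by simp only [sec]; rw [← show z = 3 from h]⟩
      · left; right; exact ⟨(g, 0), ⟨hM, rfl⟩, by simp only [sec]; rw [← show z = z1 g from h]⟩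
      · right; left; exact ⟨(g, 0), ⟨hM, rfl⟩, by simp only [sec]; rw [← show z = z2 g from h]⟩
    · right; right
      have hg : g ∈ Gam := by
        rcases hy with ⟨hg, -⟩ | ⟨t, ht, he⟩
        · exact hg
        · exfalso
          have h1 : (0 : ℝ) = 1 / (1 + t) := congrArg Prod.snd he
          have : 0 < 1 / (1 + t) := by positivity
          linarith
      exact ⟨(g, 0), ⟨hg, rfl⟩, by simp only [sec]; rw [← show z = 3 from h]⟩
  · rintro ((⟨⟨g', τ'⟩, ⟨hg, hτ⟩, he⟩ | ⟨⟨g', τ'⟩, ⟨hg, hτ⟩, he⟩) |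
      (⟨⟨g', τ'⟩, ⟨hg, hτ⟩, he⟩ | ⟨⟨g', τ'⟩, ⟨hg, hτ⟩, he⟩))
    all_goals
      have hτ' : τ' = 0 := hτ
      subst hτ'
      rw [← he]
    · exact ⟨sec0_mem (Y0_mem hg) rfl, rfl⟩
    · exact ⟨secz1_mem hg, rfl⟩
    · exact ⟨secz2_mem hg, rfl⟩
    · exact ⟨sec3_mem (Y0_mem hg), rfl⟩

theorem isPreconnected_MM : IsPreconnected MM := by
  have := inter_preconnected isClosed_Gam isPreconnected_Gam Subset.rfl zero_mem_Gam
  rwa [inter_eq_right.mpr MM_subset_Gam] at this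

theorem cst_one_mem (x : Fin 3) : cst x 1 ∈ MM := ⟨x, 1, by norm_num, rfl⟩

theorem isPreconnected_Xinf : IsPreconnected Xinf := by
  have hcon : ∀ {ζ : Th → ℝ} {T : Set Th}, Continuous ζ → IsPreconnected T →
      IsPreconnected (sec ζ '' (T ×ˢ {0})) := fun hζ hT =>
    (hT.prod isPreconnected_singleton).image _ (continuous_sec hζ).continuousOn
  have h01 : (1 : ℝ) ∈ Icc (0 : ℝ) 1 := by norm_num
  rw [Xinf_eq]
  have a0 : IsPreconnected (sec (fun _ => 0) '' (Gam ×ˢ {0})) :=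
    hcon continuous_const isPreconnected_Gam
  have a1 : IsPreconnected (sec z1 '' (MM ×ˢ {0})) := hcon continuous_z1 isPreconnected_MM
  have a2 : IsPreconnected (sec z2 '' (MM ×ˢ {0})) := hcon continuous_z2 isPreconnected_MM
  have a3 : IsPreconnected (sec (fun _ => 3) '' (Gam ×ˢ {0})) :=
    hcon continuous_const isPreconnected_Gam
  refine (a0.union' ?_ a1).union' ?_ (a2.union' ?_ a3)
  · refine ⟨sec z1 (cst 1 1, 0), ⟨(cst 1 1, 0), ⟨MM_subset_Gam (cst_one_mem 1), rfl⟩, ?_⟩,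
      (cst 1 1, 0), ⟨cst_one_mem 1, rfl⟩, rfl⟩
    simp only [sec]
    rw [z1_cst h01]; simp
  · refine ⟨sec z1 (cst 0 1, 0), Or.inr ⟨(cst 0 1, 0), ⟨cst_one_mem 0, rfl⟩, rfl⟩,
      Or.inl ⟨(cst 0 1, 0), ⟨cst_one_mem 0, rfl⟩, ?_⟩⟩
    simp only [sec]
    rw [z1_cst h01, z2_cst h01]
    have h02 : ¬ ((0 : Fin 3) = 2) := by decide
    have h00 : ¬ ((0 : Fin 3) = 1) := by decide
    simp only [h02, h00, if_false, if_true]
    norm_num
  · refine ⟨sec z2 (cst 2 1, 0), ⟨(cst 2 1, 0), ⟨cst_one_mem 2, rfl⟩, rfl⟩,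
      (cst 2 1, 0), ⟨MM_subset_Gam (cst_one_mem 2), rfl⟩, ?_⟩
    simp only [sec]
    rw [z2_cst h01]
    have h20 : ¬ ((2 : Fin 3) = 0) := by decide
    simp only [h20, if_false, if_true]
    norm_num

/-- a continuum of `Y` that meets the ray and infinity contains infinity -/
theorem contains_inf {Q : Set (Th × ℝ)} (hQc : IsClosed Q) (hQ : IsPreconnected Q) (hQY : Q ⊆ Yset)
    {y y0 : Th × ℝ} (hy : y ∈ Q) (hypos : 0 < y.2) (hy0 : y0 ∈ Q) (hy00 : y0.2 = 0) {g : Th}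
    (hg : g ∈ Gam) : (g, (0 : ℝ)) ∈ Q := by
  obtain ⟨t0, ht0, rfl⟩ := pos_form (hQY hy) hypos
  have htail : ((fun t : ℝ => (Psi t, 1 / (1 + t))) '' Ici t0) ⊆ Q := by
    rintro _ ⟨t, ht, rfl⟩
    have ht' : t0 ≤ t := ht
    have htpos : 0 ≤ t := ht0.trans ht'
    have hpos : 0 < 1 / (1 + t) := by positivity
    have hle : 1 / (1 + t) ≤ 1 / (1 + t0) :=
      one_div_le_one_div_of_le (by positivity) (by linarith)
    obtain ⟨y', hy', hy'2⟩ := hQ.intermediate_value hy0 hy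
      (f := fun y : Th × ℝ => y.2) continuous_snd.continuousOn
      (show 1 / (1 + t) ∈ Icc y0.2 (1 / (1 + t0)) from ⟨by rw [hy00]; exact hpos.le, hle⟩)
    obtain ⟨t', ht'0, rfl⟩ := pos_form (hQY hy') (by
      show 0 < y'.2
      have : y'.2 = 1 / (1 + t) := hy'2
      rw [this]; exact hpos)
    have h1 : 1 / (1 + t') = 1 / (1 + t) := hy'2
    have h2 : t' = t := by
      rw [div_eq_div_iff (by positivity) (by positivity)] at h1
      linarith
    rw [← h2]; exact hy'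
  have := closure_mono htail (mem_closure_tail hg t0)
  rwa [hQc.closure_eq] at this

/-- lifting of continua -/
theorem lift_conn {Q : Set (Th × ℝ)} (hQc : IsClosed Q) (hQ : IsPreconnected Q) (hQY : Q ⊆ Yset)
    {x : Th × ℝ × ℝ} (hx : x ∈ Xset) (hxQ : fm x ∈ Q) :
    ∃ C : Set (Th × ℝ × ℝ), IsPreconnected C ∧ x ∈ C ∧ C ⊆ Xset ∧ (∀ p ∈ C, fm p ∈ Q) ∧
      Q ⊆ fm '' C := by
  have hs3 : IsPreconnected (sec (fun _ => 3) '' Q) :=
    hQ.image _ (continuous_sec continuous_const).continuousOn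
  have hs3X : sec (fun _ => 3) '' Q ⊆ Xset := by
    rintro _ ⟨y, hy, rfl⟩; exact sec3_mem (hQY hy)
  by_cases hz3 : x.2.1 = 3
  · refine ⟨sec (fun _ => 3) '' Q, hs3, ⟨fm x, hxQ, ?_⟩, hs3X, ?_, ?_⟩
    · unfold sec fm; rw [← hz3]
    · rintro _ ⟨y, hy, rfl⟩; exact hy
    · intro y hy; exact ⟨_, ⟨y, hy, rfl⟩, rfl⟩
  -- the point is at infinity
  have hx0 : (x.1, x.2.1) ∈ X0 ∧ x.2.2 = 0 := by
    rcases hx with h | h
    · exact h
    · exact absurd h.1 hz3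
  by_cases hpos : ∃ y ∈ Q, 0 < y.2
  · obtain ⟨y, hy, hypos⟩ := hpos
    have hinf : ∀ g ∈ Gam, ((g, 0) : Th × ℝ) ∈ Q := fun g hg =>
      contains_inf hQc hQ hQY hy hypos hxQ hx0.2 hg
    refine ⟨Xinf ∪ sec (fun _ => 3) '' Q, ?_, Or.inl ⟨hx, hx0.2⟩, ?_, ?_, ?_⟩
    · refine isPreconnected_Xinf.union' ?_ hs3
      exact ⟨sec (fun _ => 3) (0, 0), ⟨sec3_mem (Y0_mem zero_mem_Gam), rfl⟩,
        (0, 0), hinf 0 zero_mem_Gam, rfl⟩
    · exact union_subset (fun p hp => hp.1) hs3X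
    · rintro p (hp | ⟨y, hy, rfl⟩)
      · have h1 := fm_mem hp.1
        have h2 : (fm p).2 = 0 := hp.2
        have h3 : (fm p).1 ∈ Gam := by
          rcases h1 with ⟨h, -⟩ | ⟨t, ht, he⟩
          · exact h
          · exfalso
            rw [he] at h2
            have : 0 < 1 / (1 + t) := by positivity
            exact this.ne' h2
        have : fm p = ((fm p).1, 0) := Prod.ext rfl h2
        rw [this]
        exact hinf _ h3
      · exact hy
    · intro y hy; exact ⟨_, Or.inr ⟨y, hy, rfl⟩, rfl⟩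
  · push Not at hpos
    have h0 : ∀ y ∈ Q, y.2 = 0 := fun y hy =>
      le_antisymm (hpos y hy) (Yset_snd_mem (hQY hy)).1
    set Q' : Set Th := Prod.fst '' Q with hQ'
    have hQcomp : IsCompact Q := isCompact_Yset.of_isClosed_subset hQc hQY
    have hQ'c : IsClosed Q' := (hQcomp.image continuous_fst).isClosed
    have hQ'p : IsPreconnected Q' := hQ.image _ continuous_fst.continuousOn
    have hQ'G : Q' ⊆ Gam := by
      rintro _ ⟨y, hy, rfl⟩
      rcases hQY hy with ⟨h, -⟩ | ⟨t, ht, rfl⟩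
      · exact h
      · exfalso
        have := h0 _ hy
        have : 0 < 1 / (1 + t) := by positivity
        exact this.ne' (h0 _ hy)
    have hmemQ : ∀ g ∈ Q', ((g, 0) : Th × ℝ) ∈ Q := by
      rintro _ ⟨y, hy, rfl⟩
      rw [← h0 y hy]; exact hy
    have hQeq : ∀ y ∈ Q, y = (y.1, 0) ∧ y.1 ∈ Q' := fun y hy =>
      ⟨Prod.ext rfl (h0 y hy), y, hy, rfl⟩
    have hxg : x.1 ∈ Q' := ⟨fm x, hxQ, rfl⟩
    have hxe : x = (x.1, x.2.1, 0) := Prod.ext rfl (Prod.ext rfl hx0.2)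
    -- a generic way to finish
    have fin : ∀ C : Set (Th × ℝ × ℝ), IsPreconnected C → x ∈ C →
        C ⊆ sec z1 '' ((Q' ∩ MM) ×ˢ {0}) ∪ sec z2 '' ((Q' ∩ MM) ×ˢ {0}) ∪
          sec (fun _ => 0) '' (Q' ×ˢ {0}) ∪ sec (fun _ => 3) '' (Q' ×ˢ {0}) →
        (∀ g ∈ Q', ∃ p ∈ C, fm p = (g, 0)) →
        ∃ C : Set (Th × ℝ × ℝ), IsPreconnected C ∧ x ∈ C ∧ C ⊆ Xset ∧ (∀ p ∈ C, fm p ∈ Q) ∧
          Q ⊆ fm '' C := by
      intro C h1 h2 h3 h4
      refine ⟨C, h1, h2, ?_, ?_, ?_⟩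
      · intro p hp
        rcases h3 hp with ((⟨⟨g, τ⟩, ⟨hg, hτ⟩, rfl⟩ | ⟨⟨g, τ⟩, ⟨hg, hτ⟩, rfl⟩) |
          ⟨⟨g, τ⟩, ⟨hg, hτ⟩, rfl⟩) | ⟨⟨g, τ⟩, ⟨hg, hτ⟩, rfl⟩ <;>
          (have hτ' : τ = 0 := hτ; subst hτ')
        · exact secz1_mem hg.2
        · exact secz2_mem hg.2
        · exact sec0_mem (Y0_mem (hQ'G hg)) rfl
        · exact sec3_mem (Y0_mem (hQ'G hg))
      · intro p hp
        rcases h3 hp with ((⟨⟨g, τ⟩, ⟨hg, hτ⟩, rfl⟩ | ⟨⟨g, τ⟩, ⟨hg, hτ⟩, rfl⟩) |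
          ⟨⟨g, τ⟩, ⟨hg, hτ⟩, rfl⟩) | ⟨⟨g, τ⟩, ⟨hg, hτ⟩, rfl⟩ <;>
          (have hτ' : τ = 0 := hτ; subst hτ'; rw [fm_sec])
        · exact hmemQ g hg.1
        · exact hmemQ g hg.1
        · exact hmemQ g hg
        · exact hmemQ g hg
      · intro y hy
        obtain ⟨h5, h6⟩ := hQeq y hy
        obtain ⟨p, hp, hpe⟩ := h4 _ h6
        exact ⟨p, hp, by rw [hpe, ← h5]⟩
    have hcon : ∀ {ζ : Th → ℝ} {T : Set Th}, Continuous ζ → IsPreconnected T →
        IsPreconnected (sec ζ '' (T ×ˢ {0})) := fun hζ hT =>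
      (hT.prod isPreconnected_singleton).image _ (continuous_sec hζ).continuousOn
    have hS : ∀ (ζ : Th → ℝ) (T : Set Th) (g : Th), g ∈ T → sec ζ (g, 0) ∈ sec ζ '' (T ×ˢ {0}) :=
      fun ζ T g hg => ⟨(g, 0), ⟨hg, rfl⟩, rfl⟩
    rcases hx0.1.2 with h | h | ⟨hM, h⟩
    · refine fin (sec (fun _ => 0) '' (Q' ×ˢ {0})) (hcon continuous_const hQ'p) ?_ ?_ ?_
      · rw [hxe]
        have h' : x.2.1 = 0 := h
        rw [h']
        exact hS _ _ _ hxg
      · exact fun p hp => Or.inl (Or.inr hp)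
      · intro g hg; exact ⟨_, hS _ _ g hg, rfl⟩
    · exact absurd h hz3
    · by_cases hsub : Q' ⊆ MM
      · have hi : Q' ∩ MM = Q' := inter_eq_left.mpr hsub
        rcases h with h | h
        · refine fin (sec z1 '' (Q' ×ˢ {0})) (hcon continuous_z1 hQ'p) ?_ ?_ ?_
          · rw [hxe]
            have h' : x.2.1 = z1 x.1 := h
            rw [h']
            exact hS _ _ _ hxg
          · intro p hp; left; left; left; rwa [hi]
          · intro g hg; exact ⟨_, hS _ _ g hg, rfl⟩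
        · refine fin (sec z2 '' (Q' ×ˢ {0})) (hcon continuous_z2 hQ'p) ?_ ?_ ?_
          · rw [hxe]
            have h' : x.2.1 = z2 x.1 := h
            rw [h']
            exact hS _ _ _ hxg
          · intro p hp; left; left; right; rwa [hi]
          · intro g hg; exact ⟨_, hS _ _ g hg, rfl⟩
      · rw [not_subset] at hsub
        obtain ⟨z, hz, hzM⟩ := hsub
        obtain ⟨a, b, hab, ha, hb⟩ := two_ends hQ'c hQ'p hQ'G hz hzM hxg hM
        have h0Q := zero_mem_of_two hQ'c hQ'p hQ'G hab ha hb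
        obtain ⟨P1, P2⟩ := pieces hQ'c hQ'p hQ'G h0Q hab ha hb
        rcases h with h | h
        · obtain ⟨C, hC1, hC2, hC3, hC4⟩ := P1 x.1 ⟨hxg, hM⟩
          refine fin C hC1 ?_ hC3 ?_
          · rw [hxe]
            have h' : x.2.1 = z1 x.1 := h
            rw [h']
            exact hC2
          · intro g hg
            rcases hC4 with h5 | h5
            · exact ⟨_, h5 (hS _ _ g hg), rfl⟩
            · exact ⟨_, h5 (hS _ _ g hg), rfl⟩
        · obtain ⟨C, hC1, hC2, hC3, hC4⟩ := P2 x.1 ⟨hxg, hM⟩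
          refine fin C hC1 ?_ hC3 ?_
          · rw [hxe]
            have h' : x.2.1 = z2 x.1 := h
            rw [h']
            exact hC2
          · intro g hg
            rcases hC4 with h5 | h5
            · exact ⟨_, h5 (hS _ _ g hg), rfl⟩
            · exact ⟨_, h5 (hS _ _ g hg), rfl⟩

theorem isPreconnected_Xset : IsPreconnected Xset := by
  have : Xset = Xinf ∪ sec (fun _ => 3) '' Yset := by
    ext x
    constructor
    · intro h
      by_cases hz3 : x.2.1 = 3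
      · right
        refine ⟨fm x, fm_mem h, ?_⟩
        unfold sec fm; rw [← hz3]
      · left
        refine ⟨h, ?_⟩
        rcases h with h | h
        · exact h.2
        · exact absurd h.1 hz3
    · rintro (h | ⟨y, hy, rfl⟩)
      · exact h.1
      · exact sec3_mem hy
  rw [this]
  refine isPreconnected_Xinf.union' ?_
    (isPreconnected_Yset.image _ (continuous_sec continuous_const).continuousOn)
  exact ⟨sec (fun _ => 3) (0, 0), ⟨sec3_mem (Y0_mem zero_mem_Gam), rfl⟩,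
    (0, 0), Y0_mem zero_mem_Gam, rfl⟩

end Pool.Agent.H699T
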