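import Pool.Agent.H699T.C

set_option autoImplicit false

noncomputable section

namespace Pool.Agent.H699T

open Set Topology Filter

/-- threads -/
abbrev Th := ℕ → P

/-- the inverse limit of the trees -/
def Gam : Set Th := {g | ∀ n, g n ∈ G (n + 1) ∧ phi (g (n + 1)) = g n}

/-- partial threads -/
def GamN (N : ℕ) : Set Th := {g | ∀ n < N, g n ∈ G (n + 1) ∧ phi (g (n + 1)) = g n}

theorem GamN_anti {N M : ℕ} (h : N ≤ M) : GamN M ⊆ GamN N := fun _ hg n hn => hg n (hn.trans_le h)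

theorem Gam_iff {g : Th} : g ∈ Gam ↔ ∀ N, g ∈ GamN N :=
  ⟨fun h _ n _ => h n, fun h n => h (n + 1) n (Nat.lt_succ_self n)⟩

theorem isClosed_G (n : ℕ) : IsClosed (G n) := (isCompact_G n).isClosed

theorem isClosed_GamN (N : ℕ) : IsClosed (GamN N) := by
  have : GamN N = ⋂ n, ⋂ (_ : n < N), ({g : Th | g n ∈ G (n + 1)} ∩ {g | phi (g (n + 1)) = g n}) := by
    ext g; simp only [GamN, mem_iInter, mem_inter_iff, mem_ofPred_eq]
  rw [this]
  refine isClosed_iInter fun n => isClosed_iInter fun _ => IsClosed.inter ?_ ?_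
  · exact (isClosed_G (n + 1)).preimage (continuous_apply n)
  · exact isClosed_eq (continuous_phi.comp (continuous_apply (n + 1))) (continuous_apply n)

theorem isClosed_Gam : IsClosed Gam := by
  have : Gam = ⋂ N, GamN N := by ext g; simp only [mem_iInter, Gam_iff]
  rw [this]; exact isClosed_iInter isClosed_GamN

theorem phi_iter_mem {j k : ℕ} : ∀ {p : P}, k ≤ j → p ∈ G (j + 1) → phi^[k] p ∈ G (j - k + 1) := by
  induction k with
  | zero => intro p _ hp; simpa using hp
  | succ k ih =>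
    intro p hk hp
    have h1 := ih (by omega) hp
    have h2 : j - k + 1 = (j - (k + 1)) + 2 := by omega
    rw [h2] at h1
    rw [Function.iterate_succ_apply']
    exact phi_mem h1

/-- the thread obtained from a point of level `j` -/
def lvl (j : ℕ) (p : P) : Th := fun n => if n ≤ j then phi^[j - n] p else 0

theorem continuous_lvl (j : ℕ) : Continuous (lvl j) := by
  unfold lvl
  refine continuous_pi fun n => ?_
  by_cases h : n ≤ j
  · simp only [h, if_true]; exact continuous_phi_iter _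
  · simp only [h, if_false]; exact continuous_const

theorem lvl_zero (j : ℕ) : lvl j 0 = 0 := by
  funext n
  unfold lvl
  split_ifs
  · rw [phi_iter_zero]; rfl
  · rfl

theorem lvl_mem {j : ℕ} {p : P} (hp : p ∈ G (j + 1)) : lvl j p ∈ GamN j := by
  intro n hn
  unfold lvl
  have h1 : n ≤ j := hn.le
  have h2 : n + 1 ≤ j := hn
  simp only [h1, h2, if_true]
  constructor
  · have := phi_iter_mem (k := j - n) (by omega) hp
    have h3 : j - (j - n) = n := by omega
    rwa [h3] at this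
  · rw [← Function.iterate_succ_apply' phi]
    congr 2; omega

/-- the covering loops -/
def loop (n : ℕ) : Path ((0 : P), theta 0) ((0 : P), theta 0) := (exists_cover_loop n).choose

theorem loop_mem (n : ℕ) (t) : loop n t ∈ LL n := (exists_cover_loop n).choose_spec.1 t

theorem loop_cover (n : ℕ) {p : P} (hp : p ∈ G (n + 1)) : ∃ t, (loop n t).1 = p :=
  (exists_cover_loop n).choose_spec.2 p hp

/-- the `j`-th segment of the ray -/
def seg (j : ℕ) (a : ℝ) : Th × ℝ :=
  (lvl j (loop j (projIcc 0 1 zero_le_one a)).1, (loop j (projIcc 0 1 zero_le_one a)).2)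

theorem continuous_seg (j : ℕ) : Continuous (seg j) := by
  unfold seg
  have h : Continuous fun a : ℝ => loop j (projIcc 0 1 zero_le_one a) :=
    (loop j).continuous.comp continuous_projIcc
  exact ((continuous_lvl j).comp (continuous_fst.comp h)).prodMk (continuous_snd.comp h)

theorem seg_left {j : ℕ} {a : ℝ} (ha : a ≤ 0) : seg j a = (0, theta 0) := by
  unfold seg
  rw [projIcc_of_le_left _ ha]
  have : loop j ⟨0, left_mem_Icc.mpr zero_le_one⟩ = ((0 : P), theta 0) := (loop j).source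
  rw [this, lvl_zero]

theorem seg_right {j : ℕ} {a : ℝ} (ha : 1 ≤ a) : seg j a = (0, theta 0) := by
  unfold seg
  rw [projIcc_of_right_le _ ha]
  have : loop j ⟨1, right_mem_Icc.mpr zero_le_one⟩ = ((0 : P), theta 0) := (loop j).target
  rw [this, lvl_zero]

/-- the ray -/
def ray (t : ℝ) : Th × ℝ := seg ⌊t⌋₊ (t - ⌊t⌋₊)

theorem ray_eq {j : ℕ} {t : ℝ} (h0 : (j : ℝ) ≤ t) (h1 : t ≤ j + 1) : ray t = seg j (t - j) := by
  rcases eq_or_lt_of_le h1 with h | h
  · have hf : ⌊t⌋₊ = j + 1 := by rw [h]; exact_mod_cast Nat.floor_natCast (j + 1)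
    unfold ray
    rw [hf, seg_left (by push_cast; linarith), seg_right (by linarith)]
  · have hf : ⌊t⌋₊ = j := by
      rw [Nat.floor_eq_iff (by have : (0 : ℝ) ≤ j := Nat.cast_nonneg j
                               linarith)]
      exact ⟨h0, h⟩
    unfold ray
    rw [hf]

theorem ray_neg {t : ℝ} (h : t ≤ 0) : ray t = (0, theta 0) := by
  have hf : ⌊t⌋₊ = 0 := Nat.floor_of_nonpos h
  unfold ray
  rw [hf, seg_left (by simpa using h)]

theorem continuous_ray : Continuous ray := by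
  let f : ℕ → Set ℝ := fun j => if j = 0 then Iic 1 else Icc (j : ℝ) (j + 1)
  refine LocallyFinite.continuous (f := f) ?_ ?_ ?_ ?_
  · intro x
    refine ⟨Ioo (x - 1) (x + 1), Ioo_mem_nhds (by linarith) (by linarith), ?_⟩
    refine (finite_le_nat (⌈x + 1⌉₊ + 1)).subset ?_
    rintro j ⟨y, hy, hy'⟩
    show j ≤ _
    by_cases hj : j = 0
    · subst hj; exact Nat.zero_le _
    · simp only [f, hj, if_false] at hy
      have h1 : (j : ℝ) ≤ ⌈x + 1⌉₊ := hy.1.trans (hy'.2.le.trans (Nat.le_ceil _))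
      have : j ≤ ⌈x + 1⌉₊ := by exact_mod_cast h1
      omega
  · rw [eq_univ_iff_forall]
    intro x
    rw [mem_iUnion]
    by_cases hx : x ≤ 1
    · exact ⟨0, by simpa [f] using hx⟩
    · push Not at hx
      have h0 : (⌊x⌋₊ : ℝ) ≤ x := Nat.floor_le (by linarith)
      have h1 : x < ⌊x⌋₊ + 1 := Nat.lt_floor_add_one x
      have h2 : ⌊x⌋₊ ≠ 0 := by
        have : 1 ≤ ⌊x⌋₊ := Nat.le_floor (by simpa using hx.le)
        omega
      exact ⟨⌊x⌋₊, by simp only [f, h2, if_false]; exact ⟨h0, h1.le⟩⟩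
  · intro j
    simp only [f]
    split_ifs
    · exact isClosed_Iic
    · exact isClosed_Icc
  · intro j
    simp only [f]
    split_ifs with hj
    · have : Continuous fun t : ℝ => seg 0 t := continuous_seg 0
      refine this.continuousOn.congr ?_
      intro t ht
      rcases le_total t 0 with h | h
      · show ray t = seg 0 t
        rw [ray_neg h, seg_left h]
      · have ht' : t ≤ 1 := ht
        show ray t = seg 0 t
        rw [ray_eq (j := 0) (by simpa using h) (by simpa using ht')]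
        simp
    · have : Continuous fun t : ℝ => seg j (t - j) := (continuous_seg j).comp (by fun_prop)
      refine this.continuousOn.congr ?_
      intro t ht
      exact ray_eq ht.1 ht.2

/-- coordinates of the ray -/
def Psi (t : ℝ) : Th := (ray t).1
def hr (t : ℝ) : ℝ := (ray t).2

theorem continuous_Psi : Continuous Psi := continuous_fst.comp continuous_ray
theorem continuous_hr : Continuous hr := continuous_snd.comp continuous_ray

theorem ray_form (t : ℝ) : ∃ q ∈ LL ⌊t⌋₊, Psi t = lvl ⌊t⌋₊ q.1 ∧ hr t = q.2 :=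
  ⟨_, loop_mem ⌊t⌋₊ _, rfl, rfl⟩

theorem Psi_mem {t : ℝ} {N : ℕ} (h : (N : ℝ) ≤ t) : Psi t ∈ GamN N := by
  obtain ⟨q, hq, h1, -⟩ := ray_form t
  rw [h1]
  exact GamN_anti (Nat.le_floor h) (lvl_mem hq.1)

theorem Psi_coord (t : ℝ) (n : ℕ) : Psi t n = 0 ∨ Psi t n ∈ G (n + 1) := by
  obtain ⟨q, hq, h1, -⟩ := ray_form t
  rw [h1]
  unfold lvl
  split_ifs with h
  · right
    have := phi_iter_mem (k := ⌊t⌋₊ - n) (by omega) hq.1
    have h3 : ⌊t⌋₊ - (⌊t⌋₊ - n) = n := by omega
    rwa [h3] at this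
  · left; rfl

theorem Psi_mem_G (t : ℝ) (n : ℕ) : Psi t n ∈ G (n + 1) := by
  rcases Psi_coord t n with h | h
  · rw [h]; exact zero_mem_G n
  · exact h

theorem hr_form (t : ℝ) : ∃ x, hgt x (Psi t 0) = 0 ∧ hr t = HH x (Psi t 0) := by
  obtain ⟨q, hq, h1, h2⟩ := ray_form t
  obtain ⟨-, x, hx, hx'⟩ := hq
  refine ⟨x, ?_, ?_⟩
  · rw [h1]; simpa [lvl] using hx
  · rw [h1, h2]; simpa [lvl] using hx'

theorem Gam_iter {g : Th} (hg : g ∈ Gam) {n : ℕ} : ∀ k, phi^[k] (g (n + k)) = g n := by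
  intro k
  induction k with
  | zero => rfl
  | succ k ih =>
    rw [Function.iterate_succ_apply, ← add_assoc, (hg (n + k)).2]
    exact ih

/-- the ray is dense in `Gam` at infinity -/
theorem exists_ray_near {g : Th} (hg : g ∈ Gam) (j : ℕ) :
    ∃ t : ℝ, (j : ℝ) ≤ t ∧ ∀ n ≤ j, Psi t n = g n := by
  obtain ⟨a, ha⟩ := loop_cover j (hg j).1
  refine ⟨j + a, by linarith [a.2.1], ?_⟩
  intro n hn
  have h1 : ray (j + a) = seg j a := by
    rw [ray_eq (j := j) (by linarith [a.2.1]) (by linarith [a.2.2])]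
    congr 1; ring
  show (ray (j + a)).1 n = g n
  rw [h1]
  unfold seg
  simp only
  rw [projIcc_of_mem zero_le_one a.2]
  show lvl j (loop j a).1 n = g n
  rw [ha]
  unfold lvl
  simp only [hn, if_true]
  have := Gam_iter hg (n := n) (j - n)
  have h2 : n + (j - n) = j := by omega
  rwa [h2] at this

/-- a ray with its limit points -/
theorem isClosed_rayset {E : Type*} [TopologicalSpace E] [T2Space E] {δ : ℝ → E} (hδ : Continuous δ)
    {K : ℕ → Set E} (hK : ∀ N, IsClosed (K N)) (h : ∀ N : ℕ, ∀ t : ℝ, (N : ℝ) ≤ t → δ t ∈ K N) :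
    IsClosed {y : E × ℝ | ((∀ N, y.1 ∈ K N) ∧ y.2 = 0) ∨ ∃ t : ℝ, 0 ≤ t ∧ y = (δ t, 1 / (1 + t))} := by
  set S := {y : E × ℝ | ((∀ N, y.1 ∈ K N) ∧ y.2 = 0) ∨ ∃ t : ℝ, 0 ≤ t ∧ y = (δ t, 1 / (1 + t))} with hS
  have hpos : ∀ y ∈ S, 0 ≤ y.2 := by
    rintro y (⟨-, h⟩ | ⟨t, ht, rfl⟩)
    · exact h.ge
    · show 0 ≤ 1 / (1 + t)
      positivity
  rw [← closure_subset_iff_isClosed]
  rintro ⟨e, τ⟩ hy
  have hτ0 : 0 ≤ τ := by
    have : IsClosed {y : E × ℝ | 0 ≤ y.2} := isClosed_le continuous_const continuous_snd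
    exact closure_minimal hpos this hy
  rcases eq_or_lt_of_le hτ0 with h0 | h0
  · left
    refine ⟨fun N => ?_, h0.symm⟩
    by_contra hcon
    have hU : IsOpen ({y : E × ℝ | y.1 ∈ (K N)ᶜ} ∩ {y : E × ℝ | y.2 < 1 / (1 + (N : ℝ))}) :=
      ((hK N).isOpen_compl.preimage continuous_fst).inter
        (isOpen_lt continuous_snd continuous_const)
    obtain ⟨y, hyU, hyS⟩ := mem_closure_iff.mp hy _ hU ⟨hcon, by
      show τ < 1 / (1 + (N : ℝ))
      rw [← h0]; positivity⟩
    rcases hyS with ⟨h1, -⟩ | ⟨t, ht, rfl⟩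
    · exact hyU.1 (h1 N)
    · refine hyU.1 (h N t ?_)
      have h2 : 1 / (1 + t) < 1 / (1 + (N : ℝ)) := hyU.2
      have h3 := (one_div_lt_one_div (by positivity) (by positivity)).mp h2
      linarith
  · right
    have hA : IsClosed ((fun t : ℝ => (δ t, 1 / (1 + t))) '' Icc 0 (2 / τ)) := by
      apply IsCompact.isClosed
      apply isCompact_Icc.image_of_continuousOn
      refine hδ.continuousOn.prodMk ?_
      apply ContinuousOn.div continuousOn_const (by fun_prop)
      intro t ht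
      have := ht.1
      positivity
    have hU : IsOpen {y : E × ℝ | τ / 2 < y.2} := isOpen_lt continuous_const continuous_snd
    have hmem : (e, τ) ∈ closure ((fun t : ℝ => (δ t, 1 / (1 + t))) '' Icc 0 (2 / τ)) := by
      rw [mem_closure_iff]
      intro o ho heo
      obtain ⟨y, ⟨hyo, hyU⟩, hyS⟩ := mem_closure_iff.mp hy _ (ho.inter hU)
        ⟨heo, by show τ / 2 < τ; linarith⟩
      refine ⟨y, hyo, ?_⟩
      rcases hyS with ⟨-, h2⟩ | ⟨t, ht, rfl⟩
      · exfalso
        have : τ / 2 < y.2 := hyU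
        linarith
      · refine ⟨t, ⟨ht, ?_⟩, rfl⟩
        have h1 : τ / 2 < 1 / (1 + t) := hyU
        rw [lt_div_iff₀ (by positivity)] at h1
        rw [le_div_iff₀ h0]
        nlinarith
    rw [hA.closure_eq] at hmem
    obtain ⟨t, ht, hte⟩ := hmem
    exact ⟨t, ht.1, hte.symm⟩

/-- the space `Y` -/
def Yset : Set (Th × ℝ) :=
  {y | (y.1 ∈ Gam ∧ y.2 = 0) ∨ ∃ t : ℝ, 0 ≤ t ∧ y = (Psi t, 1 / (1 + t))}

theorem isClosed_Yset : IsClosed Yset := by
  have := isClosed_rayset continuous_Psi isClosed_GamN (fun N t h => Psi_mem h)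
  convert this using 1
  ext y
  simp only [Yset, mem_ofPred_eq, Gam_iff]

theorem pt_coord {l : Wd} {c : ℝ} (hc : c ∈ Icc (0 : ℝ) 2) (v : Wd × Bool) :
    pt l c v ∈ Icc (0 : ℝ) 1 := by
  unfold pt
  split_ifs
  · norm_num
  · exact ⟨le_max_right _ _, max_le (by linarith [hc.2]) zero_le_one⟩
  · exact ⟨le_min hc.1 zero_le_one, min_le_right _ _⟩
  · norm_num
  · norm_num

theorem G_coord {n : ℕ} {p : P} (hp : p ∈ G n) (v : Wd × Bool) : p v ∈ Icc (0 : ℝ) 1 := by
  obtain ⟨l, -, -, -, c, hc, rfl⟩ := hp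
  exact pt_coord hc v

/-- a compact cube -/
def cube : Set Th := {g | ∀ n v, g n v ∈ Icc (0 : ℝ) 1}

theorem isCompact_cube : IsCompact cube := by
  have : cube = Set.pi univ (fun _ : ℕ => Set.pi univ (fun _ : Wd × Bool => Icc (0 : ℝ) 1)) := by
    ext g
    constructor
    · intro h n _ v _; exact h n v
    · intro h n v; exact h n trivial v trivial
  rw [this]
  exact isCompact_univ_pi fun _ => isCompact_univ_pi fun _ => isCompact_Icc

theorem Yset_fst_mem {y : Th × ℝ} (hy : y ∈ Yset) (n : ℕ) : y.1 n ∈ G (n + 1) := by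
  rcases hy with ⟨h, -⟩ | ⟨t, -, rfl⟩
  · exact (h n).1
  · exact Psi_mem_G t n

theorem Yset_snd_mem {y : Th × ℝ} (hy : y ∈ Yset) : y.2 ∈ Icc (0 : ℝ) 1 := by
  rcases hy with ⟨-, h⟩ | ⟨t, ht, rfl⟩
  · rw [h]; norm_num
  · refine ⟨by show 0 ≤ 1 / (1 + t); positivity, ?_⟩
    show 1 / (1 + t) ≤ 1
    rw [div_le_one (by positivity)]; linarith

theorem isCompact_Yset : IsCompact Yset := by
  refine (isCompact_cube.prod isCompact_Icc).of_isClosed_subset (t := Yset) isClosed_Yset
    (s := cube ×ˢ Icc (0 : ℝ) 1) ?_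
  intro y hy
  exact ⟨fun n v => G_coord (Yset_fst_mem hy n) v, Yset_snd_mem hy⟩

end Pool.Agent.H699T
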