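import Pool.Agent.H699T.D

set_option autoImplicit false

noncomputable section

namespace Pool.Agent.H699T

open Set Topology Filter

/-- constant threads in the root triod -/
def cst (x : Fin 3) (s : ℝ) : Th := fun _ => pt [x] s

/-- the root triod -/
def MM : Set Th := {g | ∃ x s, s ∈ Icc (0 : ℝ) 1 ∧ g = cst x s}

theorem cst_zero (x : Fin 3) : cst x 0 = 0 := by
  funext n; unfold cst; rw [pt_singleton_zero]; rfl

theorem phi_fix {x : Fin 3} {s : ℝ} (hs : s ≤ 1) : phi (pt [x] s) = pt [x] s := by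
  rw [phi_pt_singleton, min_eq_left (by linarith)]

theorem cst_mem_Gam {x : Fin 3} {s : ℝ} (hs : s ∈ Icc (0 : ℝ) 1) : cst x s ∈ Gam := by
  intro n
  exact ⟨pt_mem_G (good_singleton x) (by simp) (by simp) ⟨hs.1, hs.2.trans (by norm_num)⟩,
    phi_fix hs.2⟩

theorem MM_subset_Gam : MM ⊆ Gam := by
  rintro g ⟨x, s, hs, rfl⟩
  exact cst_mem_Gam hs

theorem continuous_cst (x : Fin 3) : Continuous (cst x) :=
  continuous_pi fun _ => continuous_pt [x]

theorem isCompact_MM : IsCompact MM := by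
  have : MM = ⋃ x : Fin 3, cst x '' Icc (0 : ℝ) 1 := by
    ext g
    simp only [MM, mem_ofPred_eq, mem_iUnion, mem_image]
    constructor
    · rintro ⟨x, s, hs, rfl⟩; exact ⟨x, s, hs, rfl⟩
    · rintro ⟨x, s, hs, rfl⟩; exact ⟨x, s, hs, rfl⟩
  rw [this]
  exact isCompact_iUnion fun x => isCompact_Icc.image (continuous_cst x)

theorem zero_mem_MM : (0 : Th) ∈ MM := ⟨0, 0, by norm_num, (cst_zero 0).symm⟩

theorem Gam_le {g h : Th} (hg : g ∈ Gam) (hh : h ∈ Gam) {n m : ℕ} (hnm : m ≤ n)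
    (he : g n = h n) : g m = h m := by
  have h1 := Gam_iter hg (n := m) (n - m)
  have h2 := Gam_iter hh (n := m) (n - m)
  have h3 : m + (n - m) = n := by omega
  rw [h3] at h1 h2
  rw [← h1, ← h2, he]

theorem mem_of_all {Q : Set Th} (hQ : IsClosed Q) (hQG : Q ⊆ Gam) {g : Th} (hg : g ∈ Gam)
    (h : ∀ n, ∃ q ∈ Q, q n = g n) : g ∈ Q := by
  choose q hq hqg using h
  refine hQ.mem_of_tendsto (f := q) (b := atTop) ?_ (Eventually.of_forall hq)
  rw [tendsto_pi_nhds]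
  intro m
  refine tendsto_const_nhds.congr' ?_
  filter_upwards [eventually_ge_atTop m] with n hn
  exact (Gam_le (hQG (hq n)) hg hn (hqg n)).symm

theorem exists_level {Q : Set Th} (hQ : IsPreconnected Q) {u : P → ℝ} (hu : Continuous u) {n : ℕ}
    {g h : Th} (hg : g ∈ Q) (hh : h ∈ Q) {c : ℝ} (h1 : u (g n) ≤ c) (h2 : c ≤ u (h n)) :
    ∃ q ∈ Q, u (q n) = c := by
  have hc : ContinuousOn (fun g : Th => u (g n)) Q := (hu.comp (continuous_apply n)).continuousOn
  obtain ⟨q, hq, hqc⟩ := hQ.intermediate_value hg hh hc ⟨h1, h2⟩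
  exact ⟨q, hq, hqc⟩

theorem exists_level_pt {Q : Set Th} (hQ : IsPreconnected Q) (hQG : Q ⊆ Gam) {n : ℕ}
    {g h : Th} (hg : g ∈ Q) (hh : h ∈ Q) {l : Wd} (hl : l ≠ []) (hgl : good l)
    (hn : l.length ≤ n + 1) {c : ℝ} (hc0 : 0 < c) (hc2 : c < 2)
    (h1 : F l (g n) ≤ c) (h2 : c ≤ F l (h n)) : ∃ q ∈ Q, q n = pt l c := by
  obtain ⟨q, hq, hqc⟩ := exists_level hQ (continuous_F l) hg hh h1 h2
  refine ⟨q, hq, ?_⟩
  refine F_unique (hQG hq n).1 (pt_mem_G hgl hl hn ⟨hc0.le, hc2.le⟩) hl (by rwa [hqc])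
    (by rwa [hqc]) ?_
  rw [hqc, F_pt_self hl]

/-- the centre -/
theorem eq_zero_of_sum {n : ℕ} {p : P} (hp : p ∈ G n) (x : Fin 3)
    (h : p ([x], false) - ∑ w : Fin 3, p ([w], false) / 2 = 0) : p = 0 := by
  obtain ⟨l, -, h0, -, c, hc, rfl⟩ := hp
  rcases List.eq_nil_or_concat l with rfl | ⟨l', w, rfl⟩
  · exact absurd rfl h0
  rw [List.concat_eq_append] at *
  have hne : ∀ y, y ≠ w → pt (l' ++ [w]) c ([y], false) = 0 := by
    intro y hy
    have h3 : ¬ ([y] <:+ l' ++ [w]) := by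
      have := suffix_concat_iff (m := []) (l := l') (y := y) (z := w)
      simp only [List.nil_append] at this
      rw [this]; exact fun h => hy h.1
    have h4 : [y] ≠ l' ++ [w] := by
      intro h; exact h3 (h ▸ List.suffix_rfl)
    simp [pt, h3, h4]
  rw [Finset.sum_eq_single w (fun y _ hy => by rw [hne y hy]; simp) (by simp)] at h
  have ha : pt (l' ++ [w]) c ([w], false) = 0 := by
    by_cases hx : x = w
    · subst hx; linarith
    · rw [hne x hx] at h; linarith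
  by_cases hl' : l' = []
  · subst hl'
    have : min c 1 = 0 := by simpa [pt] using ha
    have hc0 : c = 0 := by
      rcases min_choice c 1 with h1 | h1
      · linarith
      · linarith
    rw [hc0, List.nil_append, pt_singleton_zero]
  · exfalso
    have h3 : [w] <:+ l' ++ [w] := List.suffix_append _ _
    have h4 : [w] ≠ l' ++ [w] := by
      intro h
      have := congrArg List.length h
      simp at this
      exact hl' this
    have : pt (l' ++ [w]) c ([w], false) = 1 := by simp [pt, h3, h4]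
    rw [this] at ha
    norm_num at ha

theorem pt_single_coord (x y : Fin 3) {s : ℝ} (hs : s ∈ Icc (0 : ℝ) 1) :
    pt [x] s ([y], false) = if y = x then s else 0 := by
  by_cases h : y = x
  · subst h
    simp [pt, min_eq_left hs.2]
  · have h3 : ¬ ([y] <:+ [x]) := by rw [List.suffix_cons_iff]; simp [h]
    simp [pt, h, h3]

theorem zero_mem_of_two {Q : Set Th} (hQc : IsClosed Q) (hQ : IsPreconnected Q) (hQG : Q ⊆ Gam)
    {x y : Fin 3} (hxy : x ≠ y) (hx : cst x 1 ∈ Q) (hy : cst y 1 ∈ Q) : (0 : Th) ∈ Q := by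
  refine mem_of_all hQc hQG (MM_subset_Gam zero_mem_MM) fun n => ?_
  have h1 : (1 : ℝ) ∈ Icc (0 : ℝ) 1 := by norm_num
  obtain ⟨q, hq, hqc⟩ := exists_level hQ
    (u := fun p => p ([x], false) - ∑ w : Fin 3, p ([w], false) / 2)
    (by fun_prop) (n := n) hy hx (c := 0)
    (by
      simp only [cst, pt_single_coord _ _ h1]
      rw [Finset.sum_eq_single y (fun w _ hw => by simp [hw]) (by simp)]
      simp [hxy])
    (by
      simp only [cst, pt_single_coord _ _ h1]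
      rw [Finset.sum_eq_single x (fun w _ hw => by simp [hw]) (by simp)]
      norm_num)
  exact ⟨q, hq, eq_zero_of_sum (hQG hq n).1 x hqc⟩

theorem star {Q : Set Th} (hQc : IsClosed Q) (hQ : IsPreconnected Q) (hQG : Q ⊆ Gam)
    (h0 : (0 : Th) ∈ Q) {x : Fin 3} {s : ℝ} (hs : s ∈ Icc (0 : ℝ) 1) (hx : cst x s ∈ Q) {s' : ℝ}
    (hs0 : 0 ≤ s') (hs' : s' ≤ s) : cst x s' ∈ Q := by
  rcases eq_or_lt_of_le hs0 with h | h
  · rw [← h, cst_zero]; exact h0
  refine mem_of_all hQc hQG (cst_mem_Gam ⟨hs0, hs'.trans hs.2⟩) fun n => ?_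
  refine exists_level_pt hQ hQG h0 hx (by simp) (good_singleton x) (by simp) h
    (by linarith [hs.2]) ?_ ?_
  · show F [x] 0 ≤ s'
    simp [F, hs0]
  · show s' ≤ F [x] (pt [x] s)
    rw [F_pt_self (by simp)]; exact hs'

theorem inter_preconnected {Q : Set Th} (hQc : IsClosed Q) (hQ : IsPreconnected Q) (hQG : Q ⊆ Gam)
    (h0 : (0 : Th) ∈ Q) : IsPreconnected (Q ∩ MM) := by
  refine isPreconnected_of_forall (0 : Th) ?_
  rintro g ⟨hg, x, s, hs, rfl⟩
  refine ⟨cst x '' Icc 0 s, ?_, ⟨0, ⟨le_rfl, hs.1⟩, cst_zero x⟩, ⟨s, ⟨hs.1, le_rfl⟩, rfl⟩,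
    isPreconnected_Icc.image _ (continuous_cst x).continuousOn⟩
  rintro _ ⟨s', hs', rfl⟩
  exact ⟨star hQc hQ hQG h0 hs hg hs'.1 hs'.2, x, s', ⟨hs'.1, hs'.2.trans hs.2⟩, rfl⟩

/-- points with no passed first centre are in the root triod -/
theorem root_of_no_center {n : ℕ} {p : P} (hp : p ∈ G n) (h : ∀ x : Fin 3, p ([x], true) = 0) :
    ∃ x s, s ∈ Icc (0 : ℝ) 1 ∧ p = pt [x] s := by
  obtain ⟨l, -, h0, -, c, hc, rfl⟩ := hp
  rcases List.eq_nil_or_concat l with rfl | ⟨l', w, rfl⟩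
  · exact absurd rfl h0
  rw [List.concat_eq_append] at *
  by_cases hl' : l' = []
  · subst hl'
    refine ⟨w, c, ⟨hc.1, ?_⟩, rfl⟩
    have h1 := h w
    have h2 : max (c - 1) 0 = 0 := by simpa [pt] using h1
    have := le_max_left (c - 1) 0
    linarith
  · exfalso
    have h3 : [w] <:+ l' ++ [w] := List.suffix_append _ _
    have h4 : [w] ≠ l' ++ [w] := by
      intro h
      have := congrArg List.length h
      simp at this
      exact hl' this
    have h5 : pt (l' ++ [w]) c ([w], true) = 1 := by simp [pt, h3, h4]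
    rw [h w] at h5
    norm_num at h5

theorem exists_center {z : Th} (hz : z ∈ Gam) (hzM : z ∉ MM) : ∃ n x, 0 < z n ([x], true) := by
  by_contra hcon
  push Not at hcon
  have h0 : ∀ n x, z n ([x], true) = 0 := fun n x =>
    le_antisymm (hcon n x) (G_coord (hz n).1 _).1
  have hfix : ∀ n, z (n + 1) = z n := by
    intro n
    obtain ⟨x, s, hs, he⟩ := root_of_no_center (hz (n + 1)).1 (h0 (n + 1))
    rw [← (hz n).2, he, phi_fix hs.2]
  have hall : ∀ n, z n = z 0 := by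
    intro n
    induction n with
    | zero => rfl
    | succ n ih => rw [hfix, ih]
  obtain ⟨x, s, hs, he⟩ := root_of_no_center (hz 0).1 (h0 0)
  exact hzM ⟨x, s, hs, by funext n; rw [hall n, he]; rfl⟩

theorem suffix_of_pos {n : ℕ} {p : P} (hp : p ∈ G n) {w : Wd} {b : Bool} (h : 0 < p (w, b)) :
    ∃ l c, good l ∧ c ∈ Icc (0 : ℝ) 2 ∧ w <:+ l ∧ p = pt l c ∧ w ≠ [] := by
  obtain ⟨l, hg, h0, -, c, hc, rfl⟩ := hp
  have hw : w ≠ [] := by
    rintro rfl; simp [pt] at h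
  by_cases hs : w <:+ l
  · exact ⟨l, c, hg, hc, hs, rfl, hw⟩
  · exfalso
    have h1 : w ≠ l := by rintro rfl; exact hs List.suffix_rfl
    simp [pt, hw, h1, hs] at h

theorem pos_lift {z : Th} (hz : z ∈ Gam) {n : ℕ} {w : Wd} (hw : w ≠ []) (h : 0 < z n (w, true)) :
    ∃ y, 0 < z (n + 1) (w ++ [y], true) := by
  by_contra hcon
  push Not at hcon
  have h1 : z n (w, true) = ∑ y : Fin 3, z (n + 1) (w ++ [y], true) := by
    rw [← (hz n).2]
    simp [phi, hw]
  have h2 : ∑ y : Fin 3, z (n + 1) (w ++ [y], true) ≤ 0 := Finset.sum_nonpos fun y _ => hcon y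
  linarith

theorem F_eq_two {n : ℕ} {p : P} (hp : p ∈ G n) {a : Fin 3} {w : Wd} (hw : w ≠ []) {b : Bool}
    (h : 0 < p (a :: w, b)) : F w p = 2 := by
  obtain ⟨l, c, hg, hc, hs, rfl, -⟩ := suffix_of_pos hp h
  have h1 : w <:+ l := (List.suffix_cons a w).trans hs
  have h2 : w ≠ l := by
    rintro rfl
    have := hs.length_le
    simp at this
  exact F_pt_suffix hw h1 h2

theorem coord_of_F {p : P} {n : ℕ} (hp : p ∈ G n) {w : Wd} (h : F w p = 2) : 0 < p (w, true) := by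
  have h1 := G_coord hp (w, false)
  unfold F at h
  linarith [h1.2]

theorem three_letters {z : Th} (hz : z ∈ Gam) (hzM : z ∉ MM) :
    ∃ n0, ∀ n ≥ n0, ∃ a b c, 0 < z n ([a, b, c], true) := by
  obtain ⟨n, x, hx⟩ := exists_center hz hzM
  obtain ⟨y, hy⟩ := pos_lift hz (by simp) hx
  obtain ⟨t, ht⟩ := pos_lift hz (by simp) hy
  refine ⟨n + 1 + 1, fun m hm => ?_⟩
  induction m, hm using Nat.le_induction with
  | base => exact ⟨x, y, t, ht⟩
  | succ m hm ih =>
    obtain ⟨a, b, c, h⟩ := ih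
    obtain ⟨d, hd⟩ := pos_lift hz (by simp) h
    refine ⟨b, c, d, ?_⟩
    exact coord_of_F (hz (m + 1)).1 (F_eq_two (hz (m + 1)).1 (a := a) (w := [b, c, d]) (by simp) hd)

theorem two_ends {Q : Set Th} (hQc : IsClosed Q) (hQ : IsPreconnected Q) (hQG : Q ⊆ Gam)
    {z z0 : Th} (hz : z ∈ Q) (hzM : z ∉ MM) (hz0 : z0 ∈ Q) (hz0M : z0 ∈ MM) :
    ∃ x y, x ≠ y ∧ cst x 1 ∈ Q ∧ cst y 1 ∈ Q := by
  classical
  set A : ℕ → Fin 3 → Fin 3 → Prop := fun n b c =>
    (∃ q ∈ Q, q n = pt [b] 1) ∧ (∃ q ∈ Q, q n = pt [c] 1) with hA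
  have hdown : ∀ n m b c, m ≤ n → A n b c → A m b c := by
    rintro n m b c hmn ⟨⟨q, hq, hq1⟩, ⟨q', hq', hq1'⟩⟩
    have hb : cst b 1 ∈ Gam := cst_mem_Gam (by norm_num)
    have hc : cst c 1 ∈ Gam := cst_mem_Gam (by norm_num)
    exact ⟨⟨q, hq, Gam_le (hQG hq) hb hmn hq1⟩, ⟨q', hq', Gam_le (hQG hq') hc hmn hq1'⟩⟩
  obtain ⟨n0, hn0⟩ := three_letters (hQG hz) hzM
  obtain ⟨x0, s0, hs0, rfl⟩ := hz0M
  have key : ∀ n, ∃ b c, b ≠ c ∧ A n b c := by
    intro n
    obtain ⟨a, b, c, h⟩ := hn0 (n0 + n + 2) (by omega)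
    have hzG := (hQG hz (n0 + n + 2)).1
    obtain ⟨l, e, hg, -, hs, -, -⟩ := suffix_of_pos hzG h
    have hgood : good [a, b, c] := by
      obtain ⟨t, ht⟩ := hs
      rw [← ht] at hg
      unfold good at hg ⊢
      exact (List.isChain_append.mp hg).2.1
    have hbc : b ≠ c := (good_cons_cons.mp (good_tail hgood)).1
    have hF1 : F [b, c] (z (n0 + n + 2)) = 2 := F_eq_two hzG (by simp) h
    have hF2 : F [c] (z (n0 + n + 2)) = 2 :=
      F_eq_two hzG (by simp) (coord_of_F hzG hF1)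
    obtain ⟨q, hq, hq1⟩ := exists_level_pt hQ hQG hz0 hz (n := n0 + n + 2) (l := [c]) (by simp)
      (good_singleton c) (by simp) (c := 1) (by norm_num) (by norm_num)
      (by
        show F [c] (pt [x0] s0) ≤ 1
        by_cases hcx : c = x0
        · subst hcx; rw [F_pt_self (by simp)]; exact hs0.2
        · rw [F_pt_not (by rw [List.suffix_cons_iff]; simp [hcx])]; norm_num)
      (by rw [hF2]; norm_num)
    obtain ⟨q', hq', hq1'⟩ := exists_level_pt hQ hQG hz0 hz (n := n0 + n + 2) (l := [b, c]) (by simp)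
      (good_tail hgood) (by simp) (c := 1) (by norm_num) (by norm_num)
      (by
        show F [b, c] (pt [x0] s0) ≤ 1
        rw [F_pt_not (by intro h; have := h.length_le; simp at this)]; norm_num)
      (by rw [hF1]; norm_num)
    refine ⟨b, c, hbc, hdown (n0 + n + 1) n b c (by omega) ⟨⟨q', hq', ?_⟩, ⟨q, hq, ?_⟩⟩⟩
    · rw [← (hQG hq' (n0 + n + 1)).2, hq1']
      exact phi_pt_concat (l := [b]) (by simp) c 1
    · rw [← (hQG hq (n0 + n + 1)).2, hq1]
      exact phi_fix le_rfl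
  have hpig : ∃ b c, b ≠ c ∧ ∀ n, A n b c := by
    by_contra hcon
    push Not at hcon
    choose! m hm using hcon
    obtain ⟨b, c, hbc, h⟩ := key (∑ b : Fin 3, ∑ c : Fin 3, m b c)
    refine hm b c hbc (hdown _ _ b c ?_ h)
    calc m b c ≤ ∑ c : Fin 3, m b c := Finset.single_le_sum (f := fun c => m b c)
          (fun _ _ => Nat.zero_le _) (Finset.mem_univ c)
      _ ≤ _ := Finset.single_le_sum (f := fun b => ∑ c : Fin 3, m b c)
          (fun _ _ => Nat.zero_le _) (Finset.mem_univ b)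
  obtain ⟨b, c, hbc, h⟩ := hpig
  refine ⟨b, c, hbc, ?_, ?_⟩
  · exact mem_of_all hQc hQG (cst_mem_Gam (by norm_num)) fun n => (h n).1
  · exact mem_of_all hQc hQG (cst_mem_Gam (by norm_num)) fun n => (h n).2

end Pool.Agent.H699T
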