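import Pool.Agent.H699T.E
import Pool.Agent.Helper739.CTSemi

set_option autoImplicit false

noncomputable section

namespace Pool.Agent.H699T

open Set Topology Filter

/-- the heights of the two strips -/
def z1 (g : Th) : ℝ := 1 - g 0 ([1], false) + g 0 ([0], false) / 2
def z2 (g : Th) : ℝ := 2 + g 0 ([2], false) - g 0 ([0], false) / 2

theorem continuous_coord (n : ℕ) (v : Wd × Bool) : Continuous fun g : Th => g n v :=
  (continuous_apply v).comp (continuous_apply n)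

theorem continuous_z1 : Continuous z1 := by
  unfold z1
  exact (continuous_const.sub (continuous_coord _ _)).add ((continuous_coord _ _).div_const _)
theorem continuous_z2 : Continuous z2 := by
  unfold z2
  exact (continuous_const.add (continuous_coord _ _)).sub ((continuous_coord _ _).div_const _)

/-- the part of `X` at infinity -/
def X0 : Set (Th × ℝ) :=
  {x | x.1 ∈ Gam ∧ (x.2 = 0 ∨ x.2 = 3 ∨ (x.1 ∈ MM ∧ (x.2 = z1 x.1 ∨ x.2 = z2 x.1)))}

/-- the space `X` -/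
def Xset : Set (Th × ℝ × ℝ) :=
  {x | ((x.1, x.2.1) ∈ X0 ∧ x.2.2 = 0) ∨ (x.2.1 = 3 ∧ (x.1, x.2.2) ∈ Yset)}

/-- forgetting the height -/
def fm (x : Th × ℝ × ℝ) : Th × ℝ := (x.1, x.2.2)

theorem continuous_fm : Continuous fm := by unfold fm; fun_prop

/-- the sections -/
def sec (ζ : Th → ℝ) (y : Th × ℝ) : Th × ℝ × ℝ := (y.1, ζ y.1, y.2)

theorem continuous_sec {ζ : Th → ℝ} (h : Continuous ζ) : Continuous (sec ζ) := by
  unfold sec; fun_prop

theorem fm_sec (ζ : Th → ℝ) (y : Th × ℝ) : fm (sec ζ y) = y := rfl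

theorem isClosed_X0 : IsClosed X0 := by
  have hM : IsClosed {x : Th × ℝ | x.1 ∈ MM} := isCompact_MM.isClosed.preimage continuous_fst
  have hG : IsClosed {x : Th × ℝ | x.1 ∈ Gam} := isClosed_Gam.preimage continuous_fst
  have h0 : IsClosed {x : Th × ℝ | x.2 = 0} := isClosed_eq continuous_snd continuous_const
  have h3 : IsClosed {x : Th × ℝ | x.2 = 3} := isClosed_eq continuous_snd continuous_const
  have h1 : IsClosed {x : Th × ℝ | x.2 = z1 x.1} :=
    isClosed_eq continuous_snd (continuous_z1.comp continuous_fst)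
  have h2 : IsClosed {x : Th × ℝ | x.2 = z2 x.1} :=
    isClosed_eq continuous_snd (continuous_z2.comp continuous_fst)
  exact hG.inter (h0.union (h3.union (hM.inter (h1.union h2))))

theorem isClosed_Xset : IsClosed Xset := by
  have h1 : IsClosed {x : Th × ℝ × ℝ | (x.1, x.2.1) ∈ X0 ∧ x.2.2 = 0} :=
    (isClosed_X0.preimage (by fun_prop : Continuous fun x : Th × ℝ × ℝ => (x.1, x.2.1))).inter
      (isClosed_eq (by fun_prop) continuous_const)
  have h2 : IsClosed {x : Th × ℝ × ℝ | x.2.1 = 3 ∧ (x.1, x.2.2) ∈ Yset} :=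
    (isClosed_eq (by fun_prop) continuous_const).inter
      (isClosed_Yset.preimage (by fun_prop : Continuous fun x : Th × ℝ × ℝ => (x.1, x.2.2)))
  exact h1.union h2

theorem fm_mem {x : Th × ℝ × ℝ} (hx : x ∈ Xset) : fm x ∈ Yset := by
  rcases hx with ⟨h, h0⟩ | ⟨-, h⟩
  · exact Or.inl ⟨h.1, h0⟩
  · exact h

theorem z_bound {x : Th × ℝ × ℝ} (hx : x ∈ Xset) : x.2.1 ∈ Icc (-1 : ℝ) 3 := by
  rcases hx with ⟨⟨hG, h⟩, -⟩ | ⟨h, -⟩
  · have c0 := G_coord (hG 0).1 ([0], false)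
    have c1 := G_coord (hG 0).1 ([1], false)
    have c2 := G_coord (hG 0).1 ([2], false)
    rcases h with h | h | ⟨-, h | h⟩
    · rw [show x.2.1 = 0 from h]; norm_num
    · rw [show x.2.1 = 3 from h]; norm_num
    · rw [show x.2.1 = z1 x.1 from h]
      unfold z1
      simp only at c0 c1 c2
      exact ⟨by linarith [c0.1, c1.2], by linarith [c0.2, c1.1]⟩
    · rw [show x.2.1 = z2 x.1 from h]
      unfold z2
      simp only at c0 c1 c2
      exact ⟨by linarith [c0.2, c2.1], by linarith [c0.1, c2.2]⟩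
  · rw [h]; norm_num

theorem isCompact_Xset : IsCompact Xset := by
  refine ((isCompact_cube.prod ((isCompact_Icc (a := (-1 : ℝ)) (b := 3)).prod
    (isCompact_Icc (a := (0 : ℝ)) (b := 1))))).of_isClosed_subset isClosed_Xset ?_
  intro x hx
  have h := fm_mem hx
  exact ⟨fun n v => G_coord (Yset_fst_mem h n) v, z_bound hx, Yset_snd_mem h⟩

theorem sec3_mem {y : Th × ℝ} (hy : y ∈ Yset) : sec (fun _ => 3) y ∈ Xset := Or.inr ⟨rfl, hy⟩

theorem sec0_mem {y : Th × ℝ} (hy : y ∈ Yset) (h0 : y.2 = 0) : sec (fun _ => 0) y ∈ Xset := by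
  rcases hy with ⟨h, -⟩ | ⟨t, ht, rfl⟩
  · exact Or.inl ⟨⟨h, Or.inl rfl⟩, h0⟩
  · exfalso
    have : 0 < 1 / (1 + t) := by positivity
    exact this.ne' h0

theorem secz1_mem {g : Th} (hg : g ∈ MM) : sec z1 (g, 0) ∈ Xset :=
  Or.inl ⟨⟨MM_subset_Gam hg, Or.inr (Or.inr ⟨hg, Or.inl rfl⟩)⟩, rfl⟩

theorem secz2_mem {g : Th} (hg : g ∈ MM) : sec z2 (g, 0) ∈ Xset :=
  Or.inl ⟨⟨MM_subset_Gam hg, Or.inr (Or.inr ⟨hg, Or.inr rfl⟩)⟩, rfl⟩

/-- tails of the ray are connected -/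
theorem isPreconnected_tail (T : ℝ) (hT : 0 ≤ T) :
    IsPreconnected ((fun t : ℝ => (Psi t, 1 / (1 + t))) '' Ici T) := by
  refine isPreconnected_Ici.image _ ?_
  refine continuous_Psi.continuousOn.prodMk ?_
  apply ContinuousOn.div continuousOn_const (by fun_prop)
  intro t ht
  have : T ≤ t := ht
  linarith

/-- every point at infinity is a limit of the ray -/
theorem mem_closure_tail {g : Th} (hg : g ∈ Gam) (T : ℝ) :
    (g, (0 : ℝ)) ∈ closure ((fun t : ℝ => (Psi t, 1 / (1 + t))) '' Ici T) := by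
  choose t ht htg using fun j => exists_ray_near hg j
  have hlim : Tendsto t atTop atTop :=
    tendsto_atTop_mono ht tendsto_natCast_atTop_atTop
  refine mem_closure_of_tendsto (f := fun j => (Psi (t j), 1 / (1 + t j))) (b := atTop) ?_ ?_
  · refine Tendsto.prodMk_nhds ?_ ?_
    · rw [tendsto_pi_nhds]
      intro n
      refine tendsto_const_nhds.congr' ?_
      filter_upwards [eventually_ge_atTop n] with j hj
      exact (htg j n hj).symm
    · have h1 : Tendsto (fun j => 1 + t j) atTop atTop := tendsto_atTop_add_const_left _ _ hlim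
      have h2 := tendsto_inv_atTop_zero.comp h1
      simpa [Function.comp_def] using h2
  · filter_upwards [hlim.eventually_ge_atTop T] with j hj
    exact ⟨t j, hj, rfl⟩

theorem pos_form {y : Th × ℝ} (hy : y ∈ Yset) (h0 : 0 < y.2) :
    ∃ t : ℝ, 0 ≤ t ∧ y = (Psi t, 1 / (1 + t)) := by
  rcases hy with ⟨-, h⟩ | h
  · exact absurd h h0.ne'
  · exact h

theorem ctm_tail (N : ℕ) : Pool.Agent.Helper739.CT.Ctm {y ∈ Yset | y.2 ≤ 1 / (1 + (N : ℝ))} := by
  have hcl : IsClosed {y : Th × ℝ | y.2 ≤ 1 / (1 + (N : ℝ))} :=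
    isClosed_le continuous_snd continuous_const
  have hN : (0 : ℝ) ≤ N := Nat.cast_nonneg N
  refine ⟨isCompact_Yset.inter_right hcl, ⟨(0, 0), Or.inl ⟨MM_subset_Gam zero_mem_MM, rfl⟩, ?_⟩, ?_⟩
  · show (0 : ℝ) ≤ _
    positivity
  · refine (isPreconnected_tail N hN).subset_closure ?_ ?_
    · rintro _ ⟨t, ht, rfl⟩
      have ht' : (N : ℝ) ≤ t := ht
      refine ⟨Or.inr ⟨t, hN.trans ht', rfl⟩, ?_⟩
      show 1 / (1 + t) ≤ 1 / (1 + (N : ℝ))
      exact one_div_le_one_div_of_le (by positivity) (by linarith)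
    · rintro y ⟨hy, hyN⟩
      rcases hy with ⟨h, h0⟩ | ⟨t, ht, rfl⟩
      · have := mem_closure_tail h N
        rwa [show y = (y.1, 0) from Prod.ext rfl h0]
      · refine subset_closure ⟨t, ?_, rfl⟩
        have h1 : 1 / (1 + t) ≤ 1 / (1 + (N : ℝ)) := hyN
        have := (one_div_le_one_div (by positivity) (by positivity)).mp h1
        show (N : ℝ) ≤ t
        linarith

theorem isPreconnected_Yset : IsPreconnected Yset := by
  have h := (ctm_tail 0).2.isPreconnected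
  have : {y ∈ Yset | y.2 ≤ 1 / (1 + ((0 : ℕ) : ℝ))} = Yset := by
    ext y
    constructor
    · exact fun h => h.1
    · intro h
      refine ⟨h, ?_⟩
      have := (Yset_snd_mem h).2
      simpa using this
  rwa [this] at h

theorem isPreconnected_Y0 : IsPreconnected {y ∈ Yset | y.2 = 0} := by
  have h := Pool.Agent.Helper739.CT.ctm_iInter_directed
    (V := fun N : ℕ => {y ∈ Yset | y.2 ≤ 1 / (1 + (N : ℝ))}) (by
      intro a b
      refine ⟨max a b, ?_, ?_⟩
      · rintro y ⟨h1, h2⟩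
        refine ⟨h1, h2.trans ?_⟩
        apply one_div_le_one_div_of_le (by positivity)
        have : (a : ℝ) ≤ (max a b : ℕ) := by exact_mod_cast le_max_left a b
        linarith
      · rintro y ⟨h1, h2⟩
        refine ⟨h1, h2.trans ?_⟩
        apply one_div_le_one_div_of_le (by positivity)
        have : (b : ℝ) ≤ (max a b : ℕ) := by exact_mod_cast le_max_right a b
        linarith) ctm_tail
  have he : (⋂ N : ℕ, {y ∈ Yset | y.2 ≤ 1 / (1 + (N : ℝ))}) = {y ∈ Yset | y.2 = 0} := by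
    ext y
    simp only [mem_iInter]
    constructor
    · intro h
      refine ⟨(h 0).1, le_antisymm ?_ (Yset_snd_mem (h 0).1).1⟩
      by_contra hcon
      push Not at hcon
      obtain ⟨n, hn⟩ := exists_nat_one_div_lt hcon
      have := (h n).2
      rw [add_comm] at this
      linarith
    · rintro ⟨h1, h2⟩ N
      refine ⟨h1, ?_⟩
      rw [h2]; positivity
  rw [he] at h
  exact h.2.isPreconnected

theorem isPreconnected_Gam : IsPreconnected Gam := by
  have h := isPreconnected_Y0.image Prod.fst continuous_fst.continuousOn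
  have : Prod.fst '' {y ∈ Yset | y.2 = 0} = Gam := by
    ext g
    constructor
    · rintro ⟨y, ⟨h1, h2⟩, rfl⟩
      rcases h1 with ⟨h, -⟩ | ⟨t, ht, rfl⟩
      · exact h
      · exfalso
        have : 0 < 1 / (1 + t) := by positivity
        exact this.ne' h2
    · intro hg
      exact ⟨(g, 0), ⟨Or.inl ⟨hg, rfl⟩, rfl⟩, rfl⟩
  rwa [this] at h

theorem z1_cst {x : Fin 3} {s : ℝ} (hs : s ∈ Icc (0 : ℝ) 1) :
    z1 (cst x s) = 1 - (if x = 1 then s else 0) + (if x = 0 then s else 0) / 2 := by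
  unfold z1 cst
  rw [pt_single_coord _ _ hs, pt_single_coord _ _ hs]
  fin_cases x <;> simp

theorem z2_cst {x : Fin 3} {s : ℝ} (hs : s ∈ Icc (0 : ℝ) 1) :
    z2 (cst x s) = 2 + (if x = 2 then s else 0) - (if x = 0 then s else 0) / 2 := by
  unfold z2 cst
  rw [pt_single_coord _ _ hs, pt_single_coord _ _ hs]
  fin_cases x <;> simp

/-- the local pieces over a continuum `Q` at infinity -/
theorem pieces {Q : Set Th} (hQc : IsClosed Q) (hQ : IsPreconnected Q) (hQG : Q ⊆ Gam)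
    (h0 : (0 : Th) ∈ Q) {x y : Fin 3} (hxy : x ≠ y) (hx : cst x 1 ∈ Q) (hy : cst y 1 ∈ Q) :
    let S : (Th → ℝ) → Set Th → Set (Th × ℝ × ℝ) := fun ζ T => sec ζ '' (T ×ˢ {0})
    (∀ g ∈ Q ∩ MM, ∃ C : Set (Th × ℝ × ℝ), IsPreconnected C ∧ sec z1 (g, 0) ∈ C ∧
      C ⊆ S z1 (Q ∩ MM) ∪ S z2 (Q ∩ MM) ∪ S (fun _ => 0) Q ∪ S (fun _ => 3) Q ∧
      (S (fun _ => 0) Q ⊆ C ∨ S (fun _ => 3) Q ⊆ C)) ∧
    (∀ g ∈ Q ∩ MM, ∃ C : Set (Th × ℝ × ℝ), IsPreconnected C ∧ sec z2 (g, 0) ∈ C ∧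
      C ⊆ S z1 (Q ∩ MM) ∪ S z2 (Q ∩ MM) ∪ S (fun _ => 0) Q ∪ S (fun _ => 3) Q ∧
      (S (fun _ => 0) Q ⊆ C ∨ S (fun _ => 3) Q ⊆ C)) := by
  intro S
  have hcon : ∀ {ζ : Th → ℝ} {T : Set Th}, Continuous ζ → IsPreconnected T →
      IsPreconnected (S ζ T) := fun hζ hT =>
    (hT.prod isPreconnected_singleton).image _ (continuous_sec hζ).continuousOn
  have hQM := inter_preconnected hQc hQ hQG h0
  have c1 := hcon continuous_z1 hQM
  have c2 := hcon continuous_z2 hQM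
  have c0 : IsPreconnected (S (fun _ => 0) Q) := hcon continuous_const hQ
  have c3 : IsPreconnected (S (fun _ => 3) Q) := hcon continuous_const hQ
  have h01 : (1 : ℝ) ∈ Icc (0 : ℝ) 1 := by norm_num
  have hMx : ∀ w : Fin 3, cst w 1 ∈ Q → cst w 1 ∈ Q ∩ MM := fun w h => ⟨h, w, 1, h01, rfl⟩
  have hmem : ∀ {ζ : Th → ℝ} {T : Set Th} {g : Th}, g ∈ T → (g, ζ g, (0 : ℝ)) ∈ S ζ T :=
    fun {ζ T g} hg => ⟨(g, 0), ⟨hg, rfl⟩, rfl⟩
  -- junctions
  have j01 : cst 1 1 ∈ Q → (S z1 (Q ∩ MM) ∩ S (fun _ => 0) Q).Nonempty := by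
    intro h
    refine ⟨(cst 1 1, 0, 0), ?_, hmem h⟩
    have := hmem (ζ := z1) (hMx 1 h)
    rw [z1_cst h01] at this
    simpa using this
  have j12 : cst 0 1 ∈ Q → (S z1 (Q ∩ MM) ∩ S z2 (Q ∩ MM)).Nonempty := by
    intro h
    refine ⟨(cst 0 1, 3 / 2, 0), ?_, ?_⟩
    · have := hmem (ζ := z1) (hMx 0 h)
      rw [z1_cst h01] at this
      norm_num at this
      convert this using 3
    · have := hmem (ζ := z2) (hMx 0 h)
      rw [z2_cst h01] at this
      have h02 : ¬ ((0 : Fin 3) = 2) := by decide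
      simp only [h02, if_false, if_true] at this
      norm_num at this
      exact this
  have j23 : cst 2 1 ∈ Q → (S z2 (Q ∩ MM) ∩ S (fun _ => 3) Q).Nonempty := by
    intro h
    refine ⟨(cst 2 1, 3, 0), ?_, hmem h⟩
    have := hmem (ζ := z2) (hMx 2 h)
    rw [z2_cst h01] at this
    norm_num at this
    simpa using this
  -- which ends are present
  have hends : (cst 1 1 ∈ Q ∧ cst 0 1 ∈ Q) ∨ (cst 1 1 ∈ Q ∧ cst 2 1 ∈ Q) ∨
      (cst 0 1 ∈ Q ∧ cst 2 1 ∈ Q) := by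
    fin_cases x <;> fin_cases y <;> simp_all
  have u01 : cst 1 1 ∈ Q → IsPreconnected (S z1 (Q ∩ MM) ∪ S (fun _ => 0) Q) :=
    fun h => c1.union' (j01 h) c0
  have u23 : cst 2 1 ∈ Q → IsPreconnected (S z2 (Q ∩ MM) ∪ S (fun _ => 3) Q) :=
    fun h => c2.union' (j23 h) c3
  have u012 : cst 0 1 ∈ Q → cst 1 1 ∈ Q →
      IsPreconnected (S z2 (Q ∩ MM) ∪ (S z1 (Q ∩ MM) ∪ S (fun _ => 0) Q)) := by
    intro h h'
    refine c2.union' ?_ (u01 h')
    obtain ⟨p, hp1, hp2⟩ := j12 h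
    exact ⟨p, hp2, Or.inl hp1⟩
  have u123 : cst 0 1 ∈ Q → cst 2 1 ∈ Q →
      IsPreconnected (S z1 (Q ∩ MM) ∪ (S z2 (Q ∩ MM) ∪ S (fun _ => 3) Q)) := by
    intro h h'
    refine c1.union' ?_ (u23 h')
    obtain ⟨p, hp1, hp2⟩ := j12 h
    exact ⟨p, hp1, Or.inl hp2⟩
  refine ⟨?_, ?_⟩
  · intro g hg
    have hgm : sec z1 (g, 0) ∈ S z1 (Q ∩ MM) := ⟨(g, 0), ⟨hg, rfl⟩, rfl⟩
    rcases hends with ⟨h1, -⟩ | ⟨h1, -⟩ | ⟨h0', h2⟩
    · exact ⟨_, u01 h1, Or.inl hgm, by
        rintro p (hp | hp)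
        · exact Or.inl (Or.inl (Or.inl hp))
        · exact Or.inl (Or.inr hp), Or.inl subset_union_right⟩
    · exact ⟨_, u01 h1, Or.inl hgm, by
        rintro p (hp | hp)
        · exact Or.inl (Or.inl (Or.inl hp))
        · exact Or.inl (Or.inr hp), Or.inl subset_union_right⟩
    · exact ⟨_, u123 h0' h2, Or.inl hgm, by
        rintro p (hp | hp | hp)
        · exact Or.inl (Or.inl (Or.inl hp))
        · exact Or.inl (Or.inl (Or.inr hp))
        · exact Or.inr hp, Or.inr (subset_union_right.trans subset_union_right)⟩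
  · intro g hg
    have hgm : sec z2 (g, 0) ∈ S z2 (Q ∩ MM) := ⟨(g, 0), ⟨hg, rfl⟩, rfl⟩
    rcases hends with ⟨h1, h0'⟩ | ⟨-, h2⟩ | ⟨-, h2⟩
    · exact ⟨_, u012 h0' h1, Or.inl hgm, by
        rintro p (hp | hp | hp)
        · exact Or.inl (Or.inl (Or.inr hp))
        · exact Or.inl (Or.inl (Or.inl hp))
        · exact Or.inl (Or.inr hp), Or.inl (subset_union_right.trans subset_union_right)⟩
    · exact ⟨_, u23 h2, Or.inl hgm, by
        rintro p (hp | hp)
        · exact Or.inl (Or.inl (Or.inr hp))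
        · exact Or.inr hp, Or.inr subset_union_right⟩
    · exact ⟨_, u23 h2, Or.inl hgm, by
        rintro p (hp | hp)
        · exact Or.inl (Or.inl (Or.inr hp))
        · exact Or.inr hp, Or.inr subset_union_right⟩

end Pool.Agent.H699T
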