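import Pool.Agent.H699T.D

set_option autoImplicit false

noncomputable section

namespace Pool.Agent.H699T

open Set Topology Filter

/-- A finite tree: a compact connected Hausdorff space which is the union of finitely many arcs,
any two of which meet at most in common end points (a finite connected graph), and which contains
no simple closed curve. -/
def IsFiniteTree (T : Type) [TopologicalSpace T] : Prop :=
  CompactSpace T ∧ T2Space T ∧ ConnectedSpace T ∧
  (∃ (ι : Type) (_ : Finite ι) (e : ι → unitInterval → T),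
    (∀ i, Continuous (e i) ∧ Function.Injective (e i)) ∧
    (∀ p : T, ∃ i s, e i s = p) ∧
    (∀ i j, i ≠ j → ∀ s t, e i s = e j t → (s = 0 ∨ s = 1) ∧ (t = 0 ∨ t = 1))) ∧
  (∀ c : Circle → T, Continuous c → ¬ Function.Injective c)

/-- heights of the strips, as functions of a point of the finite tree -/
def y1 (p : P) : ℝ := 1 - p ([1], false) + p ([0], false) / 2
def y2 (p : P) : ℝ := 2 + p ([2], false) - p ([0], false) / 2

/-- the root triod in the finite trees -/
def MP : Set P := {p | ∃ x : Fin 3, ∃ s ∈ Icc (0 : ℝ) 1, p = pt [x] s}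

/-- the pieces: two sheets, two strips, a whisker -/
def sheet (n : ℕ) (z τ : ℝ) : Set (P × ℝ × ℝ) := {x | x.1 ∈ G (n + 1) ∧ x.2.1 = z ∧ x.2.2 = τ}
def strip (y : P → ℝ) (τ : ℝ) : Set (P × ℝ × ℝ) := {x | x.1 ∈ MP ∧ x.2.1 = y x.1 ∧ x.2.2 = τ}
def whisk (τ : ℝ) : Set (P × ℝ × ℝ) := {x | x.1 = 0 ∧ x.2.1 = 3 ∧ x.2.2 ∈ Icc τ 1}

/-- the finite tree -/
def SS (n : ℕ) (τ : ℝ) : Set (P × ℝ × ℝ) :=
  (((sheet n 0 τ ∪ strip y1 τ) ∪ strip y2 τ) ∪ sheet n 3 τ) ∪ whisk τ

end Pool.Agent.H699T
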