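import Pool.Agent.H699T.Top
import Pool.Agent.H699T.TreeDef

set_option autoImplicit false

noncomputable section

namespace Pool.Agent.H699T

open Set Topology Filter

/-- the cut-off time -/
def tau (n : ℕ) : ℝ := 1 / (1 + n)

theorem tau_pos (n : ℕ) : 0 < tau n := by unfold tau; positivity
theorem tau_le_one (n : ℕ) : tau n ≤ 1 := by
  unfold tau
  rw [div_le_one (by positivity)]
  have : (0 : ℝ) ≤ n := Nat.cast_nonneg n
  linarith
theorem tau_lt_one {n : ℕ} (hn : 1 ≤ n) : tau n < 1 := by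
  unfold tau
  rw [div_lt_one (by positivity)]
  have : (1 : ℝ) ≤ n := by exact_mod_cast hn
  linarith
theorem tau_anti {n m : ℕ} (h : n ≤ m) : tau m ≤ tau n := by
  unfold tau
  apply one_div_le_one_div_of_le (by positivity)
  have : (n : ℝ) ≤ m := by exact_mod_cast h
  linarith

/-- the map onto the finite tree -/
def gmap (n : ℕ) (x : Th × ℝ × ℝ) : P × ℝ × ℝ := (x.1 n, x.2.1, max x.2.2 (tau n))

theorem continuous_gmap (n : ℕ) : Continuous (gmap n) := by
  unfold gmap
  refine Continuous.prodMk ((continuous_apply n).comp continuous_fst) (by fun_prop)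

theorem Psi_small {t : ℝ} {n : ℕ} (ht : 0 ≤ t) (h : t ≤ n) : Psi t n = 0 := by
  rcases eq_or_lt_of_le h with h | h
  · unfold Psi
    rw [h, ray_nat]; rfl
  · obtain ⟨q, hq, h1, -⟩ := ray_form t
    have h2 : ⌊t⌋₊ < n := (Nat.floor_lt ht).mpr h
    rw [h1]
    unfold lvl
    rw [if_neg (by omega)]

theorem time_le {t : ℝ} {n : ℕ} (ht : 0 ≤ t) : 1 / (1 + t) ≤ tau n ↔ (n : ℝ) ≤ t := by
  unfold tau
  rw [one_div_le_one_div (by positivity) (by positivity)]
  constructor <;> intro h <;> linarith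

theorem mem_GamN {g : Th} {τ : ℝ} {n : ℕ} (h : (g, τ) ∈ Yset) (hτ : τ ≤ tau n) : g ∈ GamN n := by
  rcases h with ⟨h, -⟩ | ⟨t, ht, he⟩
  · exact Gam_iff.mp h n
  · have h1 : g = Psi t := congrArg Prod.fst he
    have h2 : τ = 1 / (1 + t) := congrArg Prod.snd he
    rw [h1]
    refine Psi_mem ((time_le ht).mp ?_)
    rw [← h2]; exact hτ

theorem GamN_iter {g : Th} {n : ℕ} (hg : g ∈ GamN n) {m : ℕ} :
    ∀ k, m + k ≤ n → phi^[k] (g (m + k)) = g m := by
  intro k
  induction k with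
  | zero => intro _; rfl
  | succ k ih =>
    intro h
    rw [Function.iterate_succ_apply, ← add_assoc, (hg (m + k) (by omega)).2]
    exact ih (by omega)

theorem GamN_eq {g g' : Th} {n : ℕ} (hg : g ∈ GamN n) (hg' : g' ∈ GamN n) (h : g n = g' n) {m : ℕ}
    (hm : m ≤ n) : g m = g' m := by
  have h1 := GamN_iter hg (m := m) (n - m) (by omega)
  have h2 := GamN_iter hg' (m := m) (n - m) (by omega)
  have h3 : m + (n - m) = n := by omega
  rw [h3] at h1 h2
  rw [← h1, ← h2, h]

/-- the relation of being close -/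
def Rel (n : ℕ) (x x' : Th × ℝ × ℝ) : Prop :=
  (∀ m ≤ n, x.1 m = x'.1 m) ∧ x.2.1 = x'.2.1 ∧ max x.2.2 (tau n) = max x'.2.2 (tau n)

theorem rel_of_gmap {n : ℕ} {x x' : Th × ℝ × ℝ} (hx : x ∈ Xset) (hx' : x' ∈ Xset)
    (h : gmap n x = gmap n x') : Rel n x x' := by
  have h1 : x.1 n = x'.1 n := congrArg Prod.fst h
  have h2 : x.2.1 = x'.2.1 := congrArg (fun q => q.2.1) h
  have h3 : max x.2.2 (tau n) = max x'.2.2 (tau n) := congrArg (fun q => q.2.2) h
  refine ⟨fun m hm => ?_, h2, h3⟩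
  have hy := fm_mem hx
  have hy' := fm_mem hx'
  unfold fm at hy hy'
  rcases le_or_gt x.2.2 (tau n) with h4 | h4
  · have h5 : x'.2.2 ≤ tau n := by
      rw [max_eq_right h4] at h3
      rw [h3]; exact le_max_left _ _
    exact GamN_eq (mem_GamN hy h4) (mem_GamN hy' h5) h1 hm
  · have h5 : x.2.2 = x'.2.2 := by
      rw [max_eq_left h4.le] at h3
      rcases le_total x'.2.2 (tau n) with h6 | h6
      · rw [max_eq_right h6] at h3; linarith
      · rwa [max_eq_left h6] at h3
    obtain ⟨t, ht, he⟩ := pos_form hy ((tau_pos n).trans h4)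
    obtain ⟨t', ht', he'⟩ := pos_form hy' (by show 0 < x'.2.2; rw [← h5]; exact (tau_pos n).trans h4)
    have e1 : x.1 = Psi t := congrArg Prod.fst he
    have e2 : x.2.2 = 1 / (1 + t) := congrArg Prod.snd he
    have e3 : x'.1 = Psi t' := congrArg Prod.fst he'
    have e4 : x'.2.2 = 1 / (1 + t') := congrArg Prod.snd he'
    have e5 : t = t' := by
      rw [e2, e4, div_eq_div_iff (by positivity) (by positivity)] at h5
      linarith
    rw [e1, e3, e5]

theorem Rel_anti {n m : ℕ} (h : n ≤ m) {x x' : Th × ℝ × ℝ} (hr : Rel m x x') : Rel n x x' := by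
  refine ⟨fun k hk => hr.1 k (hk.trans h), hr.2.1, ?_⟩
  have h1 : ∀ y : ℝ, max y (tau n) = max (max y (tau m)) (tau n) := by
    intro y
    rw [max_assoc, max_eq_right (tau_anti h)]
  rw [h1, h1 x'.2.2, hr.2.2]

theorem exists_tau_lt {c : ℝ} (hc : 0 < c) : ∃ n, tau n < c := by
  obtain ⟨n, hn⟩ := exists_nat_one_div_lt hc
  refine ⟨n, ?_⟩
  unfold tau
  rwa [add_comm]

theorem eq_of_Rel {x x' : Th × ℝ × ℝ} (h0 : 0 ≤ x.2.2) (h0' : 0 ≤ x'.2.2) (h : ∀ n, Rel n x x') :
    x = x' := by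
  have key : ∀ {a b : ℝ}, 0 ≤ a → (∀ n, max a (tau n) = max b (tau n)) → b ≤ a := by
    intro a b ha hab
    by_contra hcon
    push Not at hcon
    obtain ⟨n, hn⟩ := exists_tau_lt (ha.trans_lt hcon)
    have h1 := hab n
    rw [max_eq_left hn.le] at h1
    rcases max_choice a (tau n) with h2 | h2
    · rw [h2] at h1; linarith
    · rw [h2] at h1; linarith
  have h1 : x.1 = x'.1 := funext fun n => (h n).1 n le_rfl
  have h2 : x.2.1 = x'.2.1 := (h 0).2.1
  have h3 : x.2.2 = x'.2.2 := le_antisymm (key h0' fun n => ((h n).2.2).symm) (key h0 fun n => (h n).2.2)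
  exact Prod.ext h1 (Prod.ext h2 h3)

/-- fibres of `gmap n` are small -/
theorem small_fibres {E : Type} [MetricSpace E] (e : E ≃ₜ XX) {ε : ℝ} (hε : 0 < ε) :
    ∃ n, ∀ m ≥ n, ∀ x x' : E, gmap m (e x).1 = gmap m (e x').1 → dist x x' < ε := by
  haveI : CompactSpace E := e.symm.compactSpace
  by_contra hcon
  push Not at hcon
  set K : ℕ → Set (E × E) := fun n => {q | Rel n (e q.1).1 (e q.2).1 ∧ ε ≤ dist q.1 q.2} with hK
  have hc1 : Continuous fun q : E × E => (e q.1).1 :=
    continuous_subtype_val.comp (e.continuous.comp continuous_fst)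
  have hc2 : Continuous fun q : E × E => (e q.2).1 :=
    continuous_subtype_val.comp (e.continuous.comp continuous_snd)
  have hcl : ∀ n, IsClosed (K n) := by
    intro n
    have : K n = ((⋂ m, ⋂ (_ : m ≤ n), {q : E × E | (e q.1).1.1 m = (e q.2).1.1 m}) ∩
        ({q : E × E | (e q.1).1.2.1 = (e q.2).1.2.1} ∩
        {q : E × E | max (e q.1).1.2.2 (tau n) = max (e q.2).1.2.2 (tau n)})) ∩
        {q : E × E | ε ≤ dist q.1 q.2} := by
      ext q
      simp only [hK, Rel, mem_inter_iff, mem_iInter, mem_ofPred_eq]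
    rw [this]
    refine IsClosed.inter (IsClosed.inter ?_ (IsClosed.inter ?_ ?_)) ?_
    · refine isClosed_iInter fun m => isClosed_iInter fun _ => isClosed_eq ?_ ?_
      · exact (continuous_apply m).comp (continuous_fst.comp hc1)
      · exact (continuous_apply m).comp (continuous_fst.comp hc2)
    · exact isClosed_eq (by fun_prop) (by fun_prop)
    · exact isClosed_eq (by fun_prop) (by fun_prop)
    · exact isClosed_le continuous_const (by fun_prop)
  have hne : ∀ n, (K n).Nonempty := by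
    intro n
    obtain ⟨m, hm, x, x', h1, h2⟩ := hcon n
    exact ⟨(x, x'), Rel_anti hm (rel_of_gmap (e x).2 (e x').2 h1), h2⟩
  obtain ⟨q, hq⟩ := IsCompact.nonempty_iInter_of_sequence_nonempty_isCompact_isClosed K
    (fun n q hq => ⟨Rel_anti (Nat.le_succ n) hq.1, hq.2⟩) hne (hcl 0).isCompact hcl
  rw [mem_iInter] at hq
  have h0 := Yset_snd_mem (fm_mem (e q.1).2)
  have h0' := Yset_snd_mem (fm_mem (e q.2).2)
  have heq : (e q.1).1 = (e q.2).1 := eq_of_Rel h0.1 h0'.1 fun n => (hq n).1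
  have h1 : q.1 = q.2 := e.injective (Subtype.ext heq)
  have h2 := (hq 0).2
  rw [h1, dist_self] at h2
  linarith

end Pool.Agent.H699T
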