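import Pool.Agent.H699T.Conf

set_option autoImplicit false

noncomputable section

namespace Pool.Agent.H699T

open Set Topology Filter

/-- constraints on the limit points of the ray with its height -/
def KL (N : ℕ) : Set (Th × ℝ) :=
  {q | q.1 ∈ GamN N ∧ ∃ x, hgt x (q.1 0) = 0 ∧ q.2 = HH x (q.1 0)}

theorem isClosed_KL (N : ℕ) : IsClosed (KL N) := by
  have : KL N = {q : Th × ℝ | q.1 ∈ GamN N} ∩
      ⋃ x : Fin 3, ({q : Th × ℝ | hgt x (q.1 0) = 0} ∩ {q : Th × ℝ | q.2 = HH x (q.1 0)}) := by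
    ext q
    simp only [KL, mem_inter_iff, mem_iUnion, mem_ofPred_eq]
  rw [this]
  have h0 : Continuous fun q : Th × ℝ => q.1 0 := (continuous_apply 0).comp continuous_fst
  refine ((isClosed_GamN N).preimage continuous_fst).inter
    (isClosed_iUnion_of_finite fun x => IsClosed.inter ?_ ?_)
  · exact isClosed_eq ((continuous_hgt x).comp h0) continuous_const
  · exact isClosed_eq continuous_snd ((continuous_HH x).comp h0)

def Lam : Set ((Th × ℝ) × ℝ) :=
  {y | ((∀ N, y.1 ∈ KL N) ∧ y.2 = 0) ∨ ∃ t : ℝ, 0 ≤ t ∧ y = (ray t, 1 / (1 + t))}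

theorem isClosed_Lam : IsClosed Lam :=
  isClosed_rayset continuous_ray isClosed_KL (fun _ t h => ⟨Psi_mem h, hr_form t⟩)

/-- the ray with its height and its limit points -/
def LR : Set ((Th × ℝ) × ℝ) := closure ((fun t : ℝ => (ray t, 1 / (1 + t))) '' Ici 0)

theorem LR_sub : LR ⊆ Lam :=
  closure_minimal (by rintro _ ⟨t, ht, rfl⟩; exact Or.inr ⟨t, ht, rfl⟩) isClosed_Lam

theorem Lam_h {y : (Th × ℝ) × ℝ} (hy : y ∈ Lam) :
    ∃ x, hgt x (y.1.1 0) = 0 ∧ y.1.2 = HH x (y.1.1 0) := by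
  rcases hy with ⟨h, -⟩ | ⟨t, -, rfl⟩
  · exact (h 0).2
  · exact hr_form t

theorem Lam_Y {y : (Th × ℝ) × ℝ} (hy : y ∈ Lam) : (y.1.1, y.2) ∈ Yset := by
  rcases hy with ⟨h, h0⟩ | ⟨t, ht, rfl⟩
  · exact Or.inl ⟨Gam_iff.mpr fun N => (h N).1, h0⟩
  · exact Or.inr ⟨t, ht, rfl⟩

theorem rho_mem {n : ℕ} {p : P} (hp : p ∈ G n) : rho p ∈ Icc (0 : ℝ) 1 := by
  obtain ⟨l, -, h0, -, c, hc, rfl⟩ := hp
  rcases List.eq_nil_or_concat l with rfl | ⟨l', w, rfl⟩
  · exact absurd rfl h0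
  rw [List.concat_eq_append] at *
  have hne : ∀ y, y ≠ w → pt (l' ++ [w]) c ([y], true) = 0 := by
    intro y hy
    have h3 : ¬ ([y] <:+ l' ++ [w]) := by
      have := suffix_concat_iff (m := []) (l := l') (y := y) (z := w)
      simp only [List.nil_append] at this
      rw [this]; exact fun h => hy h.1
    have h4 : [y] ≠ l' ++ [w] := by
      intro h; exact h3 (h ▸ List.suffix_rfl)
    simp [pt, h3, h4]
  unfold rho
  rw [Finset.sum_eq_single w (fun y _ hy => hne y hy) (by simp)]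
  have := pt_coord (l := l' ++ [w]) hc ([w], true)
  exact ⟨by linarith [this.2], by linarith [this.1]⟩

theorem Lam_bound {y : (Th × ℝ) × ℝ} (hy : y ∈ Lam) : y.1.2 ∈ Icc (1 / 2 : ℝ) (5 / 2) := by
  obtain ⟨x, -, h⟩ := Lam_h hy
  have hr := rho_mem (Yset_fst_mem (Lam_Y hy) 0)
  rw [h]
  unfold HH
  have : theta x - 1 ∈ Icc (-1 / 2 : ℝ) (3 / 2) := by
    unfold theta
    split_ifs <;> norm_num
  simp only at hr
  constructor
  · nlinarith [this.1, this.2, hr.1, hr.2]
  · nlinarith [this.1, this.2, hr.1, hr.2]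

theorem isCompact_LR : IsCompact LR := by
  refine (((isCompact_cube.prod (isCompact_Icc (a := (1 / 2 : ℝ)) (b := 5 / 2))).prod
    (isCompact_Icc (a := (0 : ℝ)) (b := 1)))).of_isClosed_subset isClosed_closure ?_
  intro y hy
  have h := LR_sub hy
  exact ⟨⟨fun n v => G_coord (Yset_fst_mem (Lam_Y h) n) v, Lam_bound h⟩, Yset_snd_mem (Lam_Y h)⟩

theorem isConnected_LR : IsConnected LR := by
  refine IsConnected.closure ?_
  refine isConnected_Ici.image _ ?_
  refine continuous_ray.continuousOn.prodMk ?_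
  apply ContinuousOn.div continuousOn_const (by fun_prop)
  intro t ht
  have : (0 : ℝ) ≤ t := ht
  linarith

/-- the embedding in `Y × Y` -/
def jm (y : (Th × ℝ) × ℝ) : (Th × ℝ) × (Th × ℝ) := ((y.1.1, y.2), (Psi y.1.2, 1 / (1 + y.1.2)))

theorem continuousOn_jm : ContinuousOn jm LR := by
  unfold jm
  refine ContinuousOn.prodMk (by fun_prop) (ContinuousOn.prodMk ?_ ?_)
  · exact (continuous_Psi.comp (by fun_prop)).continuousOn
  · apply ContinuousOn.div continuousOn_const (by fun_prop)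
    intro y hy
    have := (Lam_bound (LR_sub hy)).1
    linarith

/-- the subcontinuum of `Y × Y` -/
def Lt : Set ((Th × ℝ) × (Th × ℝ)) := jm '' LR

theorem isCompact_Lt : IsCompact Lt := isCompact_LR.image_of_continuousOn continuousOn_jm
theorem isConnected_Lt : IsConnected Lt := isConnected_LR.image _ continuousOn_jm

theorem Lt_sub : Lt ⊆ Yset ×ˢ Yset := by
  rintro _ ⟨y, hy, rfl⟩
  have h := LR_sub hy
  exact ⟨Lam_Y h, Or.inr ⟨y.1.2, by linarith [(Lam_bound h).1], rfl⟩⟩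

/-- the height of the strips never equals the height of the continuum -/
theorem height_ne {x : Th × ℝ × ℝ} (hx : x ∈ Xset) {y : (Th × ℝ) × ℝ} (hy : y ∈ Lam)
    (h : fm x = (y.1.1, y.2)) : x.2.1 ≠ y.1.2 := by
  have hb := Lam_bound hy
  rcases hx with ⟨⟨hG, hz⟩, h0⟩ | ⟨hz, -⟩
  · rcases hz with hz | hz | ⟨hM, hz⟩
    · rw [show x.2.1 = 0 from hz]; intro h; linarith [hb.1]
    · rw [show x.2.1 = 3 from hz]; intro h; linarith [hb.2]
    · obtain ⟨w, s, hs, hw⟩ := hM
      obtain ⟨v, hv, hyv⟩ := Lam_h hy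
      have hg : y.1.1 = cst w s := by
        have := congrArg Prod.fst h
        exact this.symm.trans hw
      rw [hg] at hv hyv
      have hrho : HH v (cst w s 0) = theta v := by
        show 1 + (theta v - 1) * rho (pt [w] s) = theta v
        rw [rho_pt, max_eq_right (by linarith [hs.2])]
        ring
      rw [hrho] at hyv
      have hcase : v ≠ w ∨ s = 0 := by
        by_cases hvw : v = w
        · right
          subst hvw
          have h1 : hgt v (pt [v] s) = 0 := hv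
          have h2 : pt [v] s ([v], true) = 0 := by
            simp [pt, max_eq_right (by linarith [hs.2] : s - 1 ≤ 0)]
          have h3 : pt [v] s ([v], false) = s := by
            rw [pt_single_coord _ _ hs]; simp
          unfold hgt at h1
          rw [h2, h3] at h1
          linarith
        · left; exact hvw
      rw [hyv]
      have hw' : x.1 = cst w s := hw
      rcases hz with hz | hz
      · rw [show x.2.1 = z1 x.1 from hz, hw', z1_cst hs]
        obtain ⟨s0, s1⟩ := hs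
        rcases hcase with hc | rfl
        · fin_cases v <;> fin_cases w <;> simp [theta] at hc ⊢ <;> intro h <;> linarith
        · fin_cases v <;> simp [theta] <;> norm_num
      · rw [show x.2.1 = z2 x.1 from hz, hw', z2_cst hs]
        obtain ⟨s0, s1⟩ := hs
        rcases hcase with hc | rfl
        · fin_cases v <;> fin_cases w <;> simp [theta] at hc ⊢ <;> intro h <;> linarith
        · fin_cases v <;> simp [theta] <;> norm_num
  · rw [hz]; intro h; linarith [hb.2]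

theorem ray_nat (k : ℕ) : ray k = (0, theta 0) := by
  rw [ray_eq (j := k) le_rfl (by linarith), seg_left (by linarith)]

theorem base_mem_LR : (((0 : Th), theta 0), (0 : ℝ)) ∈ LR := by
  refine mem_closure_of_tendsto (f := fun k : ℕ => (ray k, 1 / (1 + (k : ℝ)))) (b := atTop) ?_ ?_
  · refine Tendsto.prodMk_nhds ?_ ?_
    · simp only [ray_nat]; exact tendsto_const_nhds
    · have h1 : Tendsto (fun j : ℕ => 1 + (j : ℝ)) atTop atTop :=
        tendsto_atTop_add_const_left _ _ tendsto_natCast_atTop_atTop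
      have h2 := tendsto_inv_atTop_zero.comp h1
      simpa [Function.comp_def] using h2
  · exact Eventually.of_forall fun k => ⟨k, (Nat.cast_nonneg k : (0 : ℝ) ≤ k), rfl⟩

theorem start_mem_LR : (((0 : Th), theta 0), (1 : ℝ)) ∈ LR := by
  refine subset_closure ⟨0, (show (0 : ℝ) ≤ 0 from le_rfl), ?_⟩
  have h0 : ray 0 = (0, theta 0) := ray_neg le_rfl
  simp only [h0]
  norm_num

theorem theta0 : theta 0 = 3 / 2 := by simp [theta]

/-- the point of the preimage -/
def p0 : (Th × ℝ × ℝ) × (Th × ℝ × ℝ) := ((0, 0, 0), (Psi (3 / 2), 3, 1 / (1 + 3 / 2)))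

theorem p0_mem : p0 ∈ Xset ×ˢ Xset := by
  refine ⟨sec0_mem (Y0_mem zero_mem_Gam) rfl, ?_⟩
  exact sec3_mem (y := (Psi (3 / 2), 1 / (1 + 3 / 2))) (Or.inr ⟨3 / 2, by norm_num, rfl⟩)

theorem p0_Lt : (fm p0.1, fm p0.2) ∈ Lt := by
  refine ⟨(((0 : Th), theta 0), (0 : ℝ)), base_mem_LR, ?_⟩
  unfold jm
  rw [theta0]
  rfl

theorem q0_Lt : jm (((0 : Th), theta 0), (1 : ℝ)) ∈ Lt := ⟨_, start_mem_LR, rfl⟩

theorem pre_form {c : (Th × ℝ × ℝ) × (Th × ℝ × ℝ)} (h : (fm c.1, fm c.2) ∈ Lt) :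
    ∃ y ∈ LR, fm c.1 = (y.1.1, y.2) ∧ c.2.2.2 = 1 / (1 + y.1.2) ∧ 0 < c.2.2.2 ∧
      1 / c.2.2.2 - 1 = y.1.2 := by
  obtain ⟨y, hy, he⟩ := h
  have h1 : (y.1.1, y.2) = fm c.1 := congrArg Prod.fst he
  have h2 : 1 / (1 + y.1.2) = c.2.2.2 := congrArg (fun q => q.2.2) he
  have hb := (Lam_bound (LR_sub hy)).1
  have hpos : 0 < 1 + y.1.2 := by linarith
  refine ⟨y, hy, h1.symm, h2.symm, ?_, ?_⟩
  · rw [← h2]; positivity
  · rw [← h2, one_div_one_div]; ring

theorem nonconf {C : Set ((Th × ℝ × ℝ) × (Th × ℝ × ℝ))} (hCX : C ⊆ Xset ×ˢ Xset)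
    (hC : IsPreconnected C) (hp : p0 ∈ C) (hCL : ∀ c ∈ C, (fm c.1, fm c.2) ∈ Lt) :
    ∀ c ∈ C, (fm c.1, fm c.2) ≠ jm (((0 : Th), theta 0), (1 : ℝ)) := by
  intro c hc hce
  set D : (Th × ℝ × ℝ) × (Th × ℝ × ℝ) → ℝ := fun c => c.1.2.1 - (1 / c.2.2.2 - 1) with hD
  have hDc : ContinuousOn D C := by
    refine ContinuousOn.sub (by fun_prop) (ContinuousOn.sub ?_ continuousOn_const)
    apply ContinuousOn.div continuousOn_const (by fun_prop)
    intro c hc
    obtain ⟨y, -, -, -, h, -⟩ := pre_form (hCL c hc)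
    exact h.ne'
  have hDne : ∀ c ∈ C, D c ≠ 0 := by
    intro c hc h0
    obtain ⟨y, hy, h1, -, -, h2⟩ := pre_form (hCL c hc)
    refine height_ne (hCX hc).1 (LR_sub hy) h1 ?_
    have : c.1.2.1 - (1 / c.2.2.2 - 1) = 0 := h0
    linarith
  have hDp : D p0 ≤ 0 := by
    show (0 : ℝ) - (1 / (1 / (1 + 3 / 2)) - 1) ≤ 0
    norm_num
  have hDq : 0 ≤ D c := by
    have hτ : (fm c.1).2 = 1 := congrArg (fun q => q.1.2) hce
    have hz : c.1.2.1 = 3 := by
      rcases (hCX hc).1 with ⟨-, h0⟩ | ⟨h, -⟩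
      · exfalso
        have h1 : c.1.2.2 = 1 := hτ
        rw [h1] at h0
        norm_num at h0
      · exact h
    obtain ⟨y, hy, -, -, -, h2⟩ := pre_form (hCL c hc)
    have hb := (Lam_bound (LR_sub hy)).2
    show 0 ≤ c.1.2.1 - (1 / c.2.2.2 - 1)
    rw [h2, hz]; linarith
  obtain ⟨c', hc', h0⟩ := hC.intermediate_value hp hc hDc ⟨hDp, hDq⟩
  exact hDne c' hc' h0

end Pool.Agent.H699T
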