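import Pool.Agent.H699T.Fib

set_option autoImplicit false

noncomputable section

namespace Pool.Agent.H699T

open Set Topology Filter

theorem MM_const {g : Th} (hg : g ∈ MM) (n : ℕ) : g n = g 0 := by
  obtain ⟨x, s, -, rfl⟩ := hg
  rfl

theorem MM_MP {g : Th} (hg : g ∈ MM) (n : ℕ) : g n ∈ MP := by
  obtain ⟨x, s, hs, rfl⟩ := hg
  exact ⟨x, s, hs, rfl⟩

theorem y1_eq {g : Th} (hg : g ∈ MM) (n : ℕ) : y1 (g n) = z1 g := by
  rw [MM_const hg n]; rfl

theorem y2_eq {g : Th} (hg : g ∈ MM) (n : ℕ) : y2 (g n) = z2 g := by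
  rw [MM_const hg n]; rfl

theorem gmap_mem (n : ℕ) {x : Th × ℝ × ℝ} (hx : x ∈ Xset) : gmap n x ∈ SS n (tau n) := by
  have hG := Yset_fst_mem (fm_mem hx) n
  rcases hx with ⟨⟨hg, hz⟩, h0⟩ | ⟨hz, hy⟩
  · have hm : max x.2.2 (tau n) = tau n := by
      rw [h0]; exact max_eq_right (tau_pos n).le
    rcases hz with hz | hz | ⟨hM, hz | hz⟩
    · left; left; left; left
      exact ⟨hG, hz, hm⟩
    · left; right
      exact ⟨hG, hz, hm⟩
    · left; left; left; right
      refine ⟨MM_MP hM n, ?_, hm⟩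
      show x.2.1 = y1 (x.1 n)
      rw [y1_eq hM]; exact hz
    · left; left; right
      refine ⟨MM_MP hM n, ?_, hm⟩
      show x.2.1 = y2 (x.1 n)
      rw [y2_eq hM]; exact hz
  · rcases le_total x.2.2 (tau n) with h | h
    · left; right
      exact ⟨hG, hz, max_eq_right h⟩
    · right
      obtain ⟨t, ht, he⟩ := pos_form hy ((tau_pos n).trans_le h)
      have e1 : x.1 = Psi t := congrArg Prod.fst he
      have e2 : x.2.2 = 1 / (1 + t) := congrArg Prod.snd he
      refine ⟨?_, hz, ?_⟩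
      · show x.1 n = 0
        rw [e1]
        refine Psi_small ht ?_
        by_contra hcon
        push Not at hcon
        have h1 : 1 / (1 + t) < tau n := by
          unfold tau
          exact one_div_lt_one_div_of_lt (by positivity) (by linarith)
        rw [← e2] at h1
        linarith
      · show max x.2.2 (tau n) ∈ Icc (tau n) 1
        rw [max_eq_left h]
        exact ⟨h, (Yset_snd_mem hy).2⟩

/-- every point of a finite tree is a coordinate of a thread -/
theorem exists_thread {n : ℕ} {p : P} (hp : p ∈ G (n + 1)) : ∃ g ∈ Gam, g n = p := by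
  let nxt : ∀ m, {q : P // q ∈ G (m + 1)} → {q : P // q ∈ G (m + 2)} :=
    fun m q => ⟨(phi_surj q.2).choose, (phi_surj q.2).choose_spec.1⟩
  have hnxt : ∀ m q, phi (nxt m q).1 = q.1 := fun m q => (phi_surj q.2).choose_spec.2
  let s : ∀ k : ℕ, {q : P // q ∈ G (n + k + 1)} := fun k => Nat.rec ⟨p, hp⟩ (fun k q => nxt (n + k) q) k
  have hs0 : (s 0).1 = p := rfl
  have hs : ∀ k, phi (s (k + 1)).1 = (s k).1 := fun k => hnxt (n + k) (s k)
  refine ⟨fun m => phi^[n - m] (s (m - n)).1, ?_, ?_⟩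
  · intro m
    rcases Nat.lt_or_ge m n with h | h
    · have e1 : m - n = 0 := by omega
      have e2 : m + 1 - n = 0 := by omega
      constructor
      · show phi^[n - m] (s (m - n)).1 ∈ G (m + 1)
        rw [e1]
        have := phi_iter_mem (j := n) (k := n - m) (by omega) hp
        have e3 : n - (n - m) = m := by omega
        rw [e3] at this
        exact this
      · show phi (phi^[n - (m + 1)] (s (m + 1 - n)).1) = phi^[n - m] (s (m - n)).1
        rw [e1, e2, ← Function.iterate_succ_apply' phi]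
        congr 2; omega
    · obtain ⟨k, rfl⟩ := Nat.exists_eq_add_of_le h
      have e1 : n + k - n = k := by omega
      have e2 : n + k + 1 - n = k + 1 := by omega
      have e3 : n - (n + k) = 0 := by omega
      have e4 : n - (n + k + 1) = 0 := by omega
      constructor
      · show phi^[n - (n + k)] (s (n + k - n)).1 ∈ G (n + k + 1)
        rw [e1, e3]
        exact (s k).2
      · show phi (phi^[n - (n + k + 1)] (s (n + k + 1 - n)).1) = phi^[n - (n + k)] (s (n + k - n)).1
        rw [e1, e2, e3, e4]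
        exact hs k
  · show phi^[n - n] (s (n - n)).1 = p
    rw [Nat.sub_self]
    rfl

theorem gmap_surj (n : ℕ) {q : P × ℝ × ℝ} (hq : q ∈ SS n (tau n)) : ∃ x ∈ Xset, gmap n x = q := by
  have hm : max (0 : ℝ) (tau n) = tau n := max_eq_right (tau_pos n).le
  obtain ⟨p, z, τ⟩ := q
  rcases hq with ((((⟨hG, hz, hτ⟩ | ⟨hM, hz, hτ⟩) | ⟨hM, hz, hτ⟩) | ⟨hG, hz, hτ⟩) | ⟨hG, hz, hτ⟩)
  · obtain ⟨g, hg, hgp⟩ := exists_thread hG
    refine ⟨(g, 0, 0), sec0_mem (Y0_mem hg) rfl, ?_⟩
    have hz' : z = 0 := hz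
    have hτ' : τ = tau n := hτ
    have hgp' : g n = p := hgp
    unfold gmap
    simp only [hm, hz', hτ', hgp']
  · obtain ⟨x, s, hs, he⟩ := hM
    have hM' : cst x s ∈ MM := ⟨x, s, hs, rfl⟩
    refine ⟨sec z1 (cst x s, 0), secz1_mem hM', ?_⟩
    have hz' : z = y1 p := hz
    have hτ' : τ = tau n := hτ
    have hp : p = cst x s n := he
    unfold gmap sec
    simp only [hm, hz', hτ']
    rw [hp, y1_eq hM']
  · obtain ⟨x, s, hs, he⟩ := hM
    have hM' : cst x s ∈ MM := ⟨x, s, hs, rfl⟩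
    refine ⟨sec z2 (cst x s, 0), secz2_mem hM', ?_⟩
    have hz' : z = y2 p := hz
    have hτ' : τ = tau n := hτ
    have hp : p = cst x s n := he
    unfold gmap sec
    simp only [hm, hz', hτ']
    rw [hp, y2_eq hM']
  · obtain ⟨g, hg, hgp⟩ := exists_thread hG
    refine ⟨(g, 3, 0), sec3_mem (Y0_mem hg), ?_⟩
    have hz' : z = 3 := hz
    have hτ' : τ = tau n := hτ
    have hgp' : g n = p := hgp
    unfold gmap
    simp only [hm, hz', hτ', hgp']
  · have hz' : z = 3 := hz
    have hp : p = 0 := hG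
    obtain ⟨h1, h2⟩ : tau n ≤ τ ∧ τ ≤ 1 := hτ
    have hτpos : 0 < τ := (tau_pos n).trans_le h1
    have ht : (0 : ℝ) ≤ 1 / τ - 1 := by
      have : 1 ≤ 1 / τ := by rw [le_div_iff₀ hτpos]; linarith
      linarith
    have he : 1 / (1 + (1 / τ - 1)) = τ := by
      have : 1 + (1 / τ - 1) = 1 / τ := by ring
      rw [this, one_div_one_div]
    refine ⟨sec (fun _ => 3) (Psi (1 / τ - 1), 1 / (1 + (1 / τ - 1))),
      sec3_mem (Or.inr ⟨1 / τ - 1, ht, rfl⟩), ?_⟩
    unfold gmap sec
    simp only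
    rw [he, max_eq_left h1, hz', hp, Psi_small ht]
    have h3 : 1 / τ ≤ 1 + n := by
      unfold tau at h1
      rw [div_le_iff₀ hτpos]
      rw [div_le_iff₀ (by positivity)] at h1
      linarith
    linarith

end Pool.Agent.H699T
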