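import Pool.Agent.H699T.TreeDef
import Pool.Agent.H699T.E

set_option autoImplicit false

noncomputable section

namespace Pool.Agent.H699T

open Set Topology Filter

/-- two points of a connected set are separated by a third one -/
def SepOn {E : Type*} [TopologicalSpace E] (S : Set E) : Prop :=
  ∀ D ⊆ S, IsPreconnected D → ∀ p ∈ D, ∀ q ∈ D, p ≠ q →
    ∃ r ∈ D, r ≠ p ∧ r ≠ q ∧ ∀ C ⊆ S, IsPreconnected C → p ∈ C → q ∈ C → r ∈ C

theorem SepOn.mono {E : Type*} [TopologicalSpace E] {S S' : Set E} (h : SepOn S) (hS : S' ⊆ S) :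
    SepOn S' := by
  intro D hD hDc p hp q hq hpq
  obtain ⟨r, hr, h1, h2, h3⟩ := h D (hD.trans hS) hDc p hp q hq hpq
  exact ⟨r, hr, h1, h2, fun C hC => h3 C (hC.trans hS)⟩

theorem SepOn.pull {E E' : Type*} [TopologicalSpace E] [TopologicalSpace E'] {S : Set E}
    {S' : Set E'} (h : SepOn S') {u : E → E'} (hu : ContinuousOn u S) (hi : InjOn u S)
    (hm : ∀ x ∈ S, u x ∈ S') : SepOn S := by
  intro D hD hDc p hp q hq hpq
  obtain ⟨_, ⟨r, hr, rfl⟩, h1, h2, h3⟩ := h (u '' D) (by rintro _ ⟨x, hx, rfl⟩; exact hm x (hD hx))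
    (hDc.image _ (hu.mono hD)) (u p) ⟨p, hp, rfl⟩ (u q) ⟨q, hq, rfl⟩
    (fun he => hpq (hi (hD hp) (hD hq) he))
  refine ⟨r, hr, fun he => h1 (by rw [he]), fun he => h2 (by rw [he]), ?_⟩
  intro C hC hCc hpC hqC
  obtain ⟨r', hr', he⟩ := h3 (u '' C) (by rintro _ ⟨x, hx, rfl⟩; exact hm x (hC hx))
    (hCc.image _ (hu.mono hC)) ⟨p, hpC, rfl⟩ ⟨q, hqC, rfl⟩
  rwa [← hi (hC hr') (hD hr) he]

theorem sepOn_real : SepOn (univ : Set ℝ) := by
  have key : ∀ D : Set ℝ, IsPreconnected D → ∀ p ∈ D, ∀ q ∈ D, p < q →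
      ∃ r ∈ D, r ≠ p ∧ r ≠ q ∧ ∀ C ⊆ (univ : Set ℝ), IsPreconnected C → p ∈ C → q ∈ C → r ∈ C := by
    intro D hDc p hp q hq hpq
    have hin : ∀ C : Set ℝ, IsPreconnected C → p ∈ C → q ∈ C → (p + q) / 2 ∈ C := by
      intro C hC hpC hqC
      exact hC.Icc_subset hpC hqC ⟨by linarith, by linarith⟩
    exact ⟨(p + q) / 2, hin D hDc hp hq, by intro h; linarith, by intro h; linarith,
      fun C _ hC hpC hqC => hin C hC hpC hqC⟩
  intro D _ hDc p hp q hq hpq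
  rcases lt_or_gt_of_ne hpq with h | h
  · exact key D hDc p hp q hq h
  · obtain ⟨r, hr, h1, h2, h3⟩ := key D hDc q hq p hp h
    exact ⟨r, hr, h2, h1, fun C hC hCc hpC hqC => h3 C hC hCc hqC hpC⟩

/-- cutting a connected set at a point -/
theorem cut_preconnected {E : Type*} [TopologicalSpace E] {A B C : Set E} {c : E}
    (hA : IsClosed A) (hB : IsClosed B) (hAB : A ∩ B ⊆ {c}) (hC : IsPreconnected C)
    (hCs : C ⊆ A ∪ B) : IsPreconnected (C ∩ A) := by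
  rw [isPreconnected_closed_iff]
  have key : ∀ t t' : Set E, IsClosed t → IsClosed t' → C ∩ A ⊆ t ∪ t' →
      (C ∩ A ∩ t).Nonempty → (C ∩ A ∩ t').Nonempty → (c ∈ C ∩ A → c ∈ t) →
      (C ∩ A ∩ (t ∩ t')).Nonempty := by
    intro t t' ht ht' hs hn hn' hct
    have hcl1 : IsClosed ((A ∩ t) ∪ B) := (hA.inter ht).union hB
    have hcl2 : IsClosed (A ∩ t') := hA.inter ht'
    obtain ⟨x, hxC, hx1, hx2⟩ := isPreconnected_closed_iff.mp hC _ _ hcl1 hcl2 (by
      intro x hx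
      rcases hCs hx with h | h
      · rcases hs ⟨hx, h⟩ with h' | h'
        · exact Or.inl (Or.inl ⟨h, h'⟩)
        · exact Or.inr ⟨h, h'⟩
      · exact Or.inl (Or.inr h)) (by
        obtain ⟨x, ⟨h1, h2⟩, h3⟩ := hn
        exact ⟨x, h1, Or.inl ⟨h2, h3⟩⟩) (by
        obtain ⟨x, ⟨h1, h2⟩, h3⟩ := hn'
        exact ⟨x, h1, h2, h3⟩)
    rcases hx1 with hx1 | hx1
    · exact ⟨x, ⟨hxC, hx2.1⟩, hx1.2, hx2.2⟩
    · have hxc : x = c := hAB ⟨hx2.1, hx1⟩
      subst hxc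
      exact ⟨x, ⟨hxC, hx2.1⟩, hct ⟨hxC, hx2.1⟩, hx2.2⟩
  intro t t' ht ht' hs hn hn'
  by_cases hc : c ∈ C ∩ A
  · rcases hs hc with h | h
    · exact key t t' ht ht' hs hn hn' (fun _ => h)
    · have := key t' t ht' ht (by rwa [union_comm]) hn' hn (fun _ => h)
      rwa [inter_comm t' t] at this
  · exact key t t' ht ht' hs hn hn' (fun h => absurd h hc)

/-- gluing at a point -/
theorem SepOn.glue {E : Type*} [TopologicalSpace E] {A B : Set E} {c : E} (hA : IsClosed A)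
    (hB : IsClosed B) (hAB : A ∩ B ⊆ {c}) (sA : SepOn A) (sB : SepOn B) : SepOn (A ∪ B) := by
  have hBA : B ∩ A ⊆ {c} := by rwa [inter_comm]
  -- the mixed case
  have mix : ∀ D ⊆ A ∪ B, IsPreconnected D → ∀ p ∈ D, ∀ q ∈ D, p ∈ A → p ∉ B → q ∈ B → q ∉ A →
      ∃ r ∈ D, r ≠ p ∧ r ≠ q ∧ ∀ C ⊆ A ∪ B, IsPreconnected C → p ∈ C → q ∈ C → r ∈ C := by
    intro D hD hDc p hp q hq hpA hpB hqB hqA
    have hin : ∀ C ⊆ A ∪ B, IsPreconnected C → p ∈ C → q ∈ C → c ∈ C ∧ c ∈ A ∧ c ∈ B := by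
      intro C hC hCc hpC hqC
      obtain ⟨x, hx, hxA, hxB⟩ := isPreconnected_closed_iff.mp hCc A B hA hB hC ⟨p, hpC, hpA⟩
        ⟨q, hqC, hqB⟩
      have : x = c := hAB ⟨hxA, hxB⟩
      subst this
      exact ⟨hx, hxA, hxB⟩
    obtain ⟨h1, h2, h3⟩ := hin D hD hDc hp hq
    refine ⟨c, h1, ?_, ?_, fun C hC hCc hpC hqC => (hin C hC hCc hpC hqC).1⟩
    · rintro rfl; exact hpB h3
    · rintro rfl; exact hqA h2
  intro D hD hDc p hp q hq hpq
  have side : ∀ {A B : Set E}, IsClosed A → IsClosed B → A ∩ B ⊆ {c} → SepOn A → D ⊆ A ∪ B →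
      p ∈ A → q ∈ A →
      ∃ r ∈ D, r ≠ p ∧ r ≠ q ∧ ∀ C ⊆ A ∪ B, IsPreconnected C → p ∈ C → q ∈ C → r ∈ C := by
    intro A B hA hB hAB sA hD hpA hqA
    obtain ⟨r, hr, h1, h2, h3⟩ := sA (D ∩ A) inter_subset_right
      (cut_preconnected hA hB hAB hDc hD) p ⟨hp, hpA⟩ q ⟨hq, hqA⟩ hpq
    exact ⟨r, hr.1, h1, h2, fun C hC hCc hpC hqC => (h3 (C ∩ A) inter_subset_right
      (cut_preconnected hA hB hAB hCc hC) ⟨hpC, hpA⟩ ⟨hqC, hqA⟩).1⟩
  by_cases hpA : p ∈ A <;> by_cases hqA : q ∈ A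
  · exact side hA hB hAB sA hD hpA hqA
  · have hqB : q ∈ B := (hD hq).resolve_left hqA
    by_cases hpB : p ∈ B
    · have := side hB hA hBA sB (by rwa [union_comm]) hpB hqB
      rwa [union_comm B A] at this
    · exact mix D hD hDc p hp q hq hpA hpB hqB hqA
  · have hpB : p ∈ B := (hD hp).resolve_left hpA
    by_cases hqB : q ∈ B
    · have := side hB hA hBA sB (by rwa [union_comm]) hpB hqB
      rwa [union_comm B A] at this
    · obtain ⟨r, hr, h1, h2, h3⟩ := mix D hD hDc q hq p hp hqA hqB hpB hpA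
      exact ⟨r, hr, h2, h1, fun C hC hCc hpC hqC => h3 C hC hCc hqC hpC⟩
  · have hpB : p ∈ B := (hD hp).resolve_left hpA
    have hqB : q ∈ B := (hD hq).resolve_left hqA
    have := side hB hA hBA sB (by rwa [union_comm]) hpB hqB
    rwa [union_comm B A] at this

/-- no simple closed curve -/
theorem SepOn.no_circle {E : Type*} [TopologicalSpace E] {S : Set E} (h : SepOn S)
    (c : Circle → E) (hc : Continuous c) (hS : ∀ z, c z ∈ S) : ¬ Function.Injective c := by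
  intro hi
  have h1 : (1 : Circle) ≠ -1 := by
    intro he
    have := congrArg (fun z : Circle => (z : ℂ).re) he
    simp at this
    norm_num at this
  obtain ⟨_, ⟨z, rfl⟩, hz1, hz2, hz3⟩ := h (range c) (by rintro _ ⟨z, rfl⟩; exact hS z)
    (isPreconnected_range hc) (c 1) ⟨1, rfl⟩ (c (-1)) ⟨-1, rfl⟩ (fun he => h1 (hi he))
  have hcon : IsPreconnected ({z}ᶜ : Set Circle) :=
    (Circle.isPathConnected_compl_singleton z).isConnected.isPreconnected
  obtain ⟨w, hw, he⟩ := hz3 (c '' {z}ᶜ) (by rintro _ ⟨w, -, rfl⟩; exact hS w)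
    (hcon.image _ hc.continuousOn) ⟨1, fun he => hz1 (by rw [← show (1 : Circle) = z from he]), rfl⟩
    ⟨-1, fun he => hz2 (by rw [← show (-1 : Circle) = z from he]), rfl⟩
  exact hw (hi he)

/-- the finite trees have the separation property -/
theorem sepOn_G (n : ℕ) : SepOn (G n) := by
  have key : ∀ {p : P} {l : Wd}, p ∈ G n → l ≠ [] → 0 < F l p → F l p < 2 → p = pt l (F l p) := by
    rintro p l ⟨m, -, hm0, -, c, -, rfl⟩ hl h0 h2
    by_cases hs : l <:+ m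
    · by_cases hm : l = m
      · subst hm; rw [F_pt_self hl]
      · rw [F_pt_suffix hl hs hm] at h2
        exact absurd h2 (lt_irrefl _)
    · rw [F_pt_not hs] at h0
      exact absurd h0 (lt_irrefl _)
  have main : ∀ D ⊆ G n, IsPreconnected D → ∀ p ∈ D, ∀ q ∈ D, ∀ l : Wd, l ≠ [] →
      F l p < F l q →
      ∃ r ∈ D, r ≠ p ∧ r ≠ q ∧ ∀ C ⊆ G n, IsPreconnected C → p ∈ C → q ∈ C → r ∈ C := by
    intro D hD hDc p hp q hq l hl hlt
    have hb1 := F_mem (hD hp) l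
    have hb2 := F_mem (hD hq) l
    set c := (F l p + F l q) / 2 with hc
    have hc1 : F l p < c := by rw [hc]; linarith
    have hc2 : c < F l q := by rw [hc]; linarith
    have hin : ∀ C ⊆ G n, IsPreconnected C → p ∈ C → q ∈ C → pt l c ∈ C := by
      intro C hC hCc hpC hqC
      obtain ⟨r, hr, he⟩ := hCc.intermediate_value hpC hqC (continuous_F l).continuousOn
        (⟨hc1.le, hc2.le⟩ : c ∈ Icc (F l p) (F l q))
      have := key (hC hr) hl (by rw [he]; linarith [hb1.1]) (by rw [he]; linarith [hb2.2])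
      rw [he] at this
      rwa [← this]
    refine ⟨pt l c, hin D hD hDc hp hq, ?_, ?_, fun C hC hCc hpC hqC => hin C hC hCc hpC hqC⟩
    · intro he
      rw [← he, F_pt_self hl] at hc1
      exact lt_irrefl _ hc1
    · intro he
      rw [← he, F_pt_self hl] at hc2
      exact lt_irrefl _ hc2
  intro D hD hDc p hp q hq hpq
  obtain ⟨l, hl0, hl⟩ : ∃ l, l ≠ [] ∧ F l p ≠ F l q := by
    by_contra hcon
    push Not at hcon
    exact hpq (F_sep (hD hp) (hD hq) hcon)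
  rcases lt_or_gt_of_ne hl with h | h
  · exact main D hD hDc p hp q hq l hl0 h
  · obtain ⟨r, hr, h1, h2, h3⟩ := main D hD hDc q hq p hp l hl0 h
    exact ⟨r, hr, h2, h1, fun C hC hCc hpC hqC => h3 C hC hCc hqC hpC⟩

end Pool.Agent.H699T
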