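import Pool.Agent.H699T.NonConf

set_option autoImplicit false

noncomputable section

namespace Pool.Agent.H699T

open Set Topology Filter

/-- the spaces as types -/
abbrev XX : Type := ↥Xset
abbrev YY : Type := ↥Yset

/-- the map -/
def ff (x : XX) : YY := ⟨fm x.1, fm_mem x.2⟩

theorem continuous_ff : Continuous ff :=
  Continuous.subtype_mk (continuous_fm.comp continuous_subtype_val) _

theorem surjective_ff : Function.Surjective ff := fun y => ⟨⟨_, sec3_mem y.2⟩, Subtype.ext rfl⟩

theorem conf_ff (K : Set YY) (hK : IsClosed K) (hKc : IsConnected K) (x : XX) (hx : x ∈ ff ⁻¹' K) :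
    ff '' connectedComponentIn (ff ⁻¹' K) x = K := by
  have hQc : IsClosed (Subtype.val '' K) := isClosed_Yset.isClosedEmbedding_subtypeVal.isClosedMap _ hK
  have hQ : IsPreconnected (Subtype.val '' K) :=
    hKc.isPreconnected.image _ continuous_subtype_val.continuousOn
  have hQY : Subtype.val '' K ⊆ Yset := by rintro _ ⟨y, -, rfl⟩; exact y.2
  obtain ⟨C, hC, hxC, hCX, hCQ, hQC⟩ := lift_conn hQc hQ hQY x.2 ⟨ff x, hx, rfl⟩
  have hC' : IsPreconnected (Subtype.val ⁻¹' C : Set XX) := by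
    rw [← Topology.IsInducing.subtypeVal.isPreconnected_image, Subtype.image_preimage_coe,
      inter_eq_right.mpr hCX]
    exact hC
  have hsub : (Subtype.val ⁻¹' C : Set XX) ⊆ connectedComponentIn (ff ⁻¹' K) x := by
    refine hC'.subset_connectedComponentIn hxC ?_
    intro p hp
    obtain ⟨y, hy, he⟩ := hCQ p.1 hp
    have : ff p = y := Subtype.ext he.symm
    show ff p ∈ K
    rw [this]; exact hy
  apply Subset.antisymm
  · rintro _ ⟨p, hp, rfl⟩
    exact connectedComponentIn_subset (ff ⁻¹' K) x hp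
  · intro y hy
    obtain ⟨p, hp, he⟩ := hQC ⟨y, hy, rfl⟩
    exact ⟨⟨p, hCX hp⟩, hsub hp, Subtype.ext he⟩

/-- the subcontinuum of the square -/
def LY : Set (YY × YY) := {q | (q.1.1, q.2.1) ∈ Lt}

theorem isClosed_LY : IsClosed LY := isCompact_Lt.isClosed.preimage (by fun_prop)

theorem isConnected_LY : IsConnected LY := by
  have hi : IsInducing (Prod.map (Subtype.val : YY → Th × ℝ) (Subtype.val : YY → Th × ℝ)) :=
    IsInducing.subtypeVal.prodMap IsInducing.subtypeVal
  have him : Prod.map (Subtype.val : YY → Th × ℝ) (Subtype.val : YY → Th × ℝ) '' LY = Lt := by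
    apply Subset.antisymm
    · rintro _ ⟨q, hq, rfl⟩; exact hq
    · intro q hq
      have := Lt_sub hq
      exact ⟨(⟨q.1, this.1⟩, ⟨q.2, this.2⟩), hq, rfl⟩
  constructor
  · obtain ⟨q, hq⟩ := isConnected_Lt.nonempty
    have := Lt_sub hq
    exact ⟨(⟨q.1, this.1⟩, ⟨q.2, this.2⟩), hq⟩
  · rw [← hi.isPreconnected_image, him]
    exact isConnected_Lt.isPreconnected

/-- the point -/
def pp : XX × XX := (⟨p0.1, p0_mem.1⟩, ⟨p0.2, p0_mem.2⟩)

theorem pp_mem : pp ∈ Prod.map ff ff ⁻¹' LY := p0_Lt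

theorem nonconf_ff :
    Prod.map ff ff '' connectedComponentIn (Prod.map ff ff ⁻¹' LY) pp ≠ LY := by
  intro he
  have hq := q0_Lt
  have hq' := Lt_sub hq
  have hmem : ((⟨_, hq'.1⟩, ⟨_, hq'.2⟩) : YY × YY) ∈ LY := hq
  rw [← he] at hmem
  obtain ⟨c, hc, hce⟩ := hmem
  refine nonconf (C := Prod.map Subtype.val Subtype.val ''
    connectedComponentIn (Prod.map ff ff ⁻¹' LY) pp) ?_ ?_ ?_ ?_ (c.1.1, c.2.1) ⟨c, hc, rfl⟩ ?_
  · rintro _ ⟨p, -, rfl⟩; exact ⟨p.1.2, p.2.2⟩
  · refine isPreconnected_connectedComponentIn.image _ ?_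
    exact (continuous_subtype_val.prodMap continuous_subtype_val).continuousOn
  · exact ⟨pp, mem_connectedComponentIn pp_mem, rfl⟩
  · rintro _ ⟨p, hp, rfl⟩
    exact connectedComponentIn_subset (Prod.map ff ff ⁻¹' LY) pp hp
  · have h1 := congrArg (fun q : YY × YY => (q.1.1, q.2.1)) hce
    exact h1

instance : CompactSpace XX := isCompact_iff_compactSpace.mp isCompact_Xset
instance : CompactSpace YY := isCompact_iff_compactSpace.mp isCompact_Yset

theorem Xset_nonempty : Xset.Nonempty := ⟨p0.1, p0_mem.1⟩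
theorem Yset_nonempty : Yset.Nonempty := ⟨(0, 0), Y0_mem zero_mem_Gam⟩

instance : ConnectedSpace XX :=
  isConnected_iff_connectedSpace.mp ⟨Xset_nonempty, isPreconnected_Xset⟩
instance : ConnectedSpace YY :=
  isConnected_iff_connectedSpace.mp ⟨Yset_nonempty, isPreconnected_Yset⟩

instance : TopologicalSpace.MetrizableSpace XX :=
  TopologicalSpace.metrizableSpace_of_t3_secondCountable _
instance : TopologicalSpace.MetrizableSpace YY :=
  TopologicalSpace.metrizableSpace_of_t3_secondCountable _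

end Pool.Agent.H699T
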