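import Pool.Agent.H699T.TreeDef

set_option autoImplicit false

noncomputable section

namespace Pool.Agent.H699T

open Set Topology Filter

/-! ### connectedness -/

theorem G_conn_aux (n : ℕ) : ∀ l : Wd, good l → l.length ≤ n + 1 →
    ∃ t : Set P, t ⊆ G (n + 1) ∧ (0 : P) ∈ t ∧ (∀ c ∈ Icc (0 : ℝ) 2, pt l c ∈ t) ∧
      IsPreconnected t := by
  intro l
  induction l with
  | nil =>
    intro _ _
    refine ⟨{0}, ?_, rfl, ?_, isPreconnected_singleton⟩
    · rintro _ rfl; exact zero_mem_G n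
    · intro c _; rw [pt_nil]; rfl
  | cons y l ih =>
    intro hg hn
    rw [List.length_cons] at hn
    obtain ⟨t, ht, h0, hc, hpre⟩ := ih (good_tail hg) (by omega)
    refine ⟨t ∪ pt (y :: l) '' Icc (0 : ℝ) 2, ?_, Or.inl h0, ?_, ?_⟩
    · rintro p (hp | ⟨c, hc', rfl⟩)
      · exact ht hp
      · exact pt_mem_G hg (by simp) (by simpa using hn) hc'
    · intro c hc'
      exact Or.inr ⟨c, hc', rfl⟩
    · refine hpre.union (pt l 2) (hc 2 (by norm_num)) ⟨0, by norm_num, pt_zero y l⟩ ?_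
      exact isPreconnected_Icc.image _ (continuous_pt _).continuousOn

theorem isConnected_G (n : ℕ) : IsConnected (G (n + 1)) := by
  refine ⟨⟨0, zero_mem_G n⟩, ?_⟩
  refine isPreconnected_of_forall (0 : P) ?_
  rintro p ⟨l, hg, h0, hn, c, hc, rfl⟩
  obtain ⟨t, ht, h0', hc', hpre⟩ := G_conn_aux n l hg hn
  exact ⟨t, ht, h0', hc' c hc, hpre⟩

theorem isConnected_MP : IsConnected MP := by
  have h0 : (0 : P) ∈ MP := ⟨0, 0, by norm_num, (pt_singleton_zero 0).symm⟩
  refine ⟨⟨0, h0⟩, ?_⟩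
  refine isPreconnected_of_forall (0 : P) ?_
  rintro p ⟨x, s, hs, rfl⟩
  refine ⟨pt [x] '' Icc (0 : ℝ) 1, ?_, ⟨0, by norm_num, pt_singleton_zero x⟩, ⟨s, hs, rfl⟩,
    isPreconnected_Icc.image _ (continuous_pt _).continuousOn⟩
  rintro _ ⟨c, hc, rfl⟩
  exact ⟨x, c, hc, rfl⟩

theorem continuous_y1 : Continuous y1 := by
  unfold y1; fun_prop

theorem continuous_y2 : Continuous y2 := by
  unfold y2; fun_prop

theorem isConnected_sheet (n : ℕ) (z τ : ℝ) : IsConnected (sheet n z τ) := by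
  have : sheet n z τ = (fun p : P => (p, z, τ)) '' G (n + 1) := by
    ext ⟨p, a, b⟩
    simp only [sheet, mem_image, mem_ofPred_eq, Prod.mk.injEq]
    constructor
    · rintro ⟨h1, rfl, rfl⟩; exact ⟨p, h1, rfl, rfl, rfl⟩
    · rintro ⟨q, h1, rfl, rfl, rfl⟩; exact ⟨h1, rfl, rfl⟩
  rw [this]
  exact (isConnected_G n).image _ (by fun_prop)

theorem isConnected_strip {y : P → ℝ} (hy : Continuous y) (τ : ℝ) :
    IsConnected (strip y τ) := by
  have : strip y τ = (fun p : P => (p, y p, τ)) '' MP := by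
    ext ⟨p, a, b⟩
    simp only [strip, mem_image, mem_ofPred_eq, Prod.mk.injEq]
    constructor
    · rintro ⟨h1, rfl, rfl⟩; exact ⟨p, h1, rfl, rfl, rfl⟩
    · rintro ⟨q, h1, rfl, rfl, rfl⟩; exact ⟨h1, rfl, rfl⟩
  rw [this]
  exact isConnected_MP.image _ (by fun_prop)

theorem isConnected_whisk {τ : ℝ} (h1 : τ ≤ 1) : IsConnected (whisk τ) := by
  have : whisk τ = (fun s : ℝ => ((0 : P), (3 : ℝ), s)) '' Icc τ 1 := by
    ext ⟨p, a, b⟩
    simp only [whisk, mem_image, mem_ofPred_eq, Prod.mk.injEq]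
    constructor
    · rintro ⟨rfl, rfl, h⟩; exact ⟨b, h, rfl, rfl, rfl⟩
    · rintro ⟨q, h, rfl, rfl, rfl⟩; exact ⟨rfl, rfl, h⟩
  rw [this]
  exact (isConnected_Icc h1).image _ (by fun_prop)

/-! ### values of the heights -/

theorem y1_pt (x : Fin 3) {s : ℝ} (hs : s ≤ 1) :
    y1 (pt [x] s) = 1 - (if x = 1 then s else 0) + (if x = 0 then s else 0) / 2 := by
  unfold y1 pt
  fin_cases x <;> simp [hs, List.suffix_cons_iff]

theorem y2_pt (x : Fin 3) {s : ℝ} (hs : s ≤ 1) :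
    y2 (pt [x] s) = 2 + (if x = 2 then s else 0) - (if x = 0 then s else 0) / 2 := by
  unfold y2 pt
  fin_cases x <;> simp [hs, List.suffix_cons_iff]

theorem isConnected_SS (n : ℕ) {τ : ℝ} (_h0 : 0 < τ) (h1 : τ < 1) : IsConnected (SS n τ) := by
  unfold SS
  have m1 : ∀ x : Fin 3, pt [x] 1 ∈ MP := fun x => ⟨x, 1, by norm_num, rfl⟩
  have m2 : ∀ x : Fin 3, pt [x] 1 ∈ G (n + 1) := fun x =>
    pt_mem_G (good_singleton x) (by simp) (by simp) (by norm_num)
  have s0 := isConnected_sheet n 0 τ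
  have s3 := isConnected_sheet n 3 τ
  have t1 := isConnected_strip continuous_y1 τ
  have t2 := isConnected_strip continuous_y2 τ
  have w := isConnected_whisk h1.le
  refine IsConnected.union ?_ (IsConnected.union ?_ (IsConnected.union ?_
    (IsConnected.union ?_ s0 t1) t2) s3) w
  · refine ⟨((0 : P), (3 : ℝ), τ), Or.inr ⟨zero_mem_G n, rfl, rfl⟩, ⟨rfl, rfl, le_refl _, h1.le⟩⟩
  · refine ⟨(pt [2] 1, (3 : ℝ), τ), Or.inr ⟨m1 2, ?_, rfl⟩, ⟨m2 2, rfl, rfl⟩⟩
    show (3 : ℝ) = y2 (pt [2] 1)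
    rw [y2_pt 2 le_rfl, if_pos rfl, if_neg (by decide)]; norm_num
  · refine ⟨(pt [0] 1, (3 / 2 : ℝ), τ), Or.inr ⟨m1 0, ?_, rfl⟩, ⟨m1 0, ?_, rfl⟩⟩
    · show (3 / 2 : ℝ) = y1 (pt [0] 1)
      rw [y1_pt 0 le_rfl, if_neg (by decide), if_pos rfl]; norm_num
    · show (3 / 2 : ℝ) = y2 (pt [0] 1)
      rw [y2_pt 0 le_rfl, if_neg (by decide), if_pos rfl]; norm_num
  · refine ⟨(pt [1] 1, (0 : ℝ), τ), ⟨m2 1, rfl, rfl⟩, ⟨m1 1, ?_, rfl⟩⟩
    show (0 : ℝ) = y1 (pt [1] 1)
    rw [y1_pt 1 le_rfl, if_pos rfl, if_neg (by decide)]; norm_num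

/-! ### the arcs -/

theorem F_pt_other {l m : Wd} (hl : l ≠ []) (h : l ≠ m) (c : ℝ) :
    F l (pt m c) = 0 ∨ F l (pt m c) = 2 := by
  by_cases hs : l <:+ m
  · right; exact F_pt_suffix hl hs h
  · left; exact F_pt_not hs

theorem F_pt_single {l : Wd} {x : Fin 3} (hl : l ≠ []) (h : l ≠ [x]) (c : ℝ) :
    F l (pt [x] c) = 0 := by
  apply F_pt_not
  intro hs
  rw [List.suffix_cons_iff] at hs
  rcases hs with hs | hs
  · exact h hs
  · exact hl (List.suffix_nil.mp hs)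

/-- the index type of the arcs -/
abbrev Idx (n : ℕ) : Type :=
  ({l : Wd // good l ∧ l ≠ [] ∧ l.length ≤ n + 1} × Bool × Bool) ⊕ ((Fin 3 × Bool) ⊕ Unit)

instance (n : ℕ) : Finite (Idx n) := by
  have hfin : {l : Wd | good l ∧ l ≠ [] ∧ l.length ≤ n + 1}.Finite :=
    (List.finite_length_le (Fin 3) (n + 1)).subset fun l hl => hl.2.2
  have : Finite {l : Wd // good l ∧ l ≠ [] ∧ l.length ≤ n + 1} := hfin.to_subtype
  infer_instance

/-- the arcs -/
def arc (n : ℕ) (τ : ℝ) : Idx n → unitInterval → P × ℝ × ℝ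
  | Sum.inl (l, b, z), s => (pt l.1 ((s : ℝ) + if b then 1 else 0), if z then 3 else 0, τ)
  | Sum.inr (Sum.inl (x, j)), s =>
      (pt [x] (s : ℝ), if j then y2 (pt [x] (s : ℝ)) else y1 (pt [x] (s : ℝ)), τ)
  | Sum.inr (Sum.inr _), s => (0, 3, τ + (s : ℝ) * (1 - τ))

theorem arc_cont (n : ℕ) (τ : ℝ) (i : Idx n) : Continuous (arc n τ i) := by
  rcases i with ⟨l, b, z⟩ | ⟨x, j⟩ | u
  · have h1 : Continuous fun s : unitInterval => pt l.1 ((s : ℝ) + if b then 1 else 0) :=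
      (continuous_pt l.1).comp (by fun_prop)
    exact h1.prodMk continuous_const
  · have h1 : Continuous fun s : unitInterval => pt [x] (s : ℝ) :=
      (continuous_pt [x]).comp (by fun_prop)
    cases j
    · have h2 : Continuous fun s : unitInterval => y1 (pt [x] (s : ℝ)) := continuous_y1.comp h1
      exact h1.prodMk (h2.prodMk continuous_const)
    · have h2 : Continuous fun s : unitInterval => y2 (pt [x] (s : ℝ)) := continuous_y2.comp h1
      exact h1.prodMk (h2.prodMk continuous_const)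
  · show Continuous fun s : unitInterval => ((0 : P), (3 : ℝ), τ + (s : ℝ) * (1 - τ))
    fun_prop

theorem arc_inj (n : ℕ) {τ : ℝ} (h1 : τ < 1) (i : Idx n) : Function.Injective (arc n τ i) := by
  rcases i with ⟨l, b, z⟩ | ⟨x, j⟩ | u
  · intro s t hst
    have h := congrArg (fun v => F l.1 v.1) hst
    simp only [arc, F_pt_self l.2.2.1] at h
    exact Subtype.ext (by linarith)
  · intro s t hst
    have h := congrArg (fun v => F [x] v.1) hst
    simp only [arc] at h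
    rw [F_pt_self (by simp), F_pt_self (by simp)] at h
    exact Subtype.ext h
  · intro s t hst
    have h := congrArg (fun v => v.2.2) hst
    simp only [arc] at h
    have h2 : (s : ℝ) * (1 - τ) = (t : ℝ) * (1 - τ) := by linarith
    exact Subtype.ext (mul_right_cancel₀ (by linarith) h2)

theorem arc_mem (n : ℕ) {τ : ℝ} (h1 : τ < 1) (i : Idx n) (s : unitInterval) :
    arc n τ i s ∈ SS n τ := by
  have hs0 : (0 : ℝ) ≤ s := s.2.1
  have hs1 : (s : ℝ) ≤ 1 := s.2.2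
  rcases i with ⟨l, b, z⟩ | ⟨x, j⟩ | u
  · have hm : pt l.1 ((s : ℝ) + if b then 1 else 0) ∈ G (n + 1) := by
      refine pt_mem_G l.2.1 l.2.2.1 l.2.2.2 ⟨?_, ?_⟩
      · split_ifs <;> linarith
      · split_ifs <;> linarith
    cases z
    · exact Or.inl (Or.inl (Or.inl (Or.inl ⟨hm, rfl, rfl⟩)))
    · exact Or.inl (Or.inr ⟨hm, rfl, rfl⟩)
  · have hm : pt [x] (s : ℝ) ∈ MP := ⟨x, s, s.2, rfl⟩
    cases j
    · exact Or.inl (Or.inl (Or.inl (Or.inr ⟨hm, rfl, rfl⟩)))
    · exact Or.inl (Or.inl (Or.inr ⟨hm, rfl, rfl⟩))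
  · refine Or.inr ⟨rfl, rfl, ?_, ?_⟩
    · show τ ≤ τ + (s : ℝ) * (1 - τ)
      have := mul_nonneg hs0 (by linarith : (0 : ℝ) ≤ 1 - τ)
      linarith
    · show τ + (s : ℝ) * (1 - τ) ≤ 1
      have := mul_le_mul_of_nonneg_right hs1 (by linarith : (0 : ℝ) ≤ 1 - τ)
      linarith

theorem arc_surj (n : ℕ) {τ : ℝ} (h1 : τ < 1) {p : P × ℝ × ℝ} (hp : p ∈ SS n τ) :
    ∃ i s, arc n τ i s = p := by
  obtain ⟨q, a, b⟩ := p
  have hsheet : ∀ (z : Bool), q ∈ G (n + 1) → a = (if z then 3 else 0) → b = τ →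
      ∃ i s, arc n τ i s = (q, a, b) := by
    rintro z ⟨l, hg, hl, hn, c, hc, rfl⟩ rfl rfl
    rcases le_total c 1 with h | h
    · refine ⟨Sum.inl (⟨l, hg, hl, hn⟩, false, z), ⟨c, hc.1, h⟩, ?_⟩
      simp [arc]
    · refine ⟨Sum.inl (⟨l, hg, hl, hn⟩, true, z), ⟨c - 1, by linarith, by linarith [hc.2]⟩, ?_⟩
      simp [arc]
  rcases hp with (((h | h) | h) | h) | h
  · exact hsheet false h.1 (by simpa using h.2.1) h.2.2
  · obtain ⟨⟨x, s, hs, hq⟩, ha, hb⟩ := h
    simp only at hq ha hb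
    subst hq hb
    exact ⟨Sum.inr (Sum.inl (x, false)), ⟨s, hs⟩, by simp [arc, ha]⟩
  · obtain ⟨⟨x, s, hs, hq⟩, ha, hb⟩ := h
    simp only at hq ha hb
    subst hq hb
    exact ⟨Sum.inr (Sum.inl (x, true)), ⟨s, hs⟩, by simp [arc, ha]⟩
  · exact hsheet true h.1 (by simpa using h.2.1) h.2.2
  · obtain ⟨hq, ha, hb⟩ := h
    simp only at hq ha hb
    subst hq ha
    have hτ : (0 : ℝ) < 1 - τ := by linarith
    refine ⟨Sum.inr (Sum.inr ()), ⟨(b - τ) / (1 - τ), ?_, ?_⟩, ?_⟩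
    · exact div_nonneg (by linarith [hb.1]) hτ.le
    · rw [div_le_one hτ]; linarith [hb.2]
    · simp only [arc, Prod.mk.injEq, true_and]
      rw [div_mul_cancel₀ _ hτ.ne']; ring

/-- an end point of the unit interval -/
theorem end_of_int {s : unitInterval} {b : Bool} {c : ℝ} (hc : (s : ℝ) + (if b then 1 else 0) = c)
    (h : c = 0 ∨ c = 1 ∨ c = 2) : s = 0 ∨ s = 1 := by
  have hs0 : (0 : ℝ) ≤ s := s.2.1
  have hs1 : (s : ℝ) ≤ 1 := s.2.2
  cases b <;> rcases h with rfl | rfl | rfl <;> simp at hc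
  · left; exact hc
  · right; exact hc
  · exfalso; linarith
  · exfalso; linarith
  · left; exact hc
  · right; exact Subtype.ext (by show (s : ℝ) = 1; linarith)

theorem sheet_strip {n : ℕ} {τ : ℝ} {l : {l : Wd // good l ∧ l ≠ [] ∧ l.length ≤ n + 1}}
    {b z : Bool} {x : Fin 3} {j : Bool} {s t : unitInterval}
    (h : arc n τ (Sum.inl (l, b, z)) s = arc n τ (Sum.inr (Sum.inl (x, j))) t) :
    (s = 0 ∨ s = 1) ∧ (t = 0 ∨ t = 1) := by
  have ht0 : (0 : ℝ) ≤ t := t.2.1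
  have ht1 : (t : ℝ) ≤ 1 := t.2.2
  simp only [arc, Prod.mk.injEq, and_true] at h
  obtain ⟨h1, h2⟩ := h
  have ht : (t : ℝ) = 1 := by
    rw [y1_pt x ht1, y2_pt x ht1] at h2
    fin_cases x <;> cases j <;> cases z <;> simp at h2 <;> linarith
  refine ⟨?_, Or.inr (Subtype.ext ht)⟩
  have h3 := congrArg (F l.1) h1
  rw [F_pt_self l.2.2.1] at h3
  refine end_of_int h3 ?_
  by_cases hx : l.1 = [x]
  · rw [hx, F_pt_self (by simp), ht]; right; left; rfl
  · left; exact F_pt_single l.2.2.1 hx _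

theorem sheet_whisk {n : ℕ} {τ : ℝ} (hτ : τ < 1)
    {l : {l : Wd // good l ∧ l ≠ [] ∧ l.length ≤ n + 1}}
    {b z : Bool} {u : Unit} {s t : unitInterval}
    (h : arc n τ (Sum.inl (l, b, z)) s = arc n τ (Sum.inr (Sum.inr u)) t) :
    (s = 0 ∨ s = 1) ∧ (t = 0 ∨ t = 1) := by
  simp only [arc, Prod.mk.injEq] at h
  obtain ⟨h1, -, h2⟩ := h
  have h3 := congrArg (F l.1) h1
  rw [F_pt_self l.2.2.1] at h3
  constructor
  · refine end_of_int h3 ?_
    left; simp [F]
  · left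
    have : (t : ℝ) * (1 - τ) = 0 := by linarith
    rcases mul_eq_zero.mp this with h | h
    · exact Subtype.ext h
    · exfalso; linarith

theorem strip_whisk {n : ℕ} {τ : ℝ} (hτ : τ < 1) {x : Fin 3} {j : Bool} {u : Unit}
    {s t : unitInterval}
    (h : arc n τ (Sum.inr (Sum.inl (x, j))) s = arc n τ (Sum.inr (Sum.inr u)) t) :
    (s = 0 ∨ s = 1) ∧ (t = 0 ∨ t = 1) := by
  simp only [arc, Prod.mk.injEq] at h
  obtain ⟨h1, -, h2⟩ := h
  have h3 := congrArg (F [x]) h1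
  rw [F_pt_self (by simp)] at h3
  constructor
  · left; exact Subtype.ext (by rw [h3]; simp [F])
  · left
    have : (t : ℝ) * (1 - τ) = 0 := by linarith
    rcases mul_eq_zero.mp this with h | h
    · exact Subtype.ext h
    · exfalso; linarith

theorem arc_meet (n : ℕ) {τ : ℝ} (hτ : τ < 1) (i j : Idx n) (hij : i ≠ j) (s t : unitInterval)
    (h : arc n τ i s = arc n τ j t) : (s = 0 ∨ s = 1) ∧ (t = 0 ∨ t = 1) := by
  rcases i with ⟨l, b, z⟩ | ⟨x, k⟩ | u <;> rcases j with ⟨l', b', z'⟩ | ⟨x', k'⟩ | u'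
  · simp only [arc, Prod.mk.injEq, and_true] at h
    obtain ⟨h1, h2⟩ := h
    have hz : z = z' := by
      cases z <;> cases z' <;> simp at h2 <;> rfl
    subst hz
    by_cases hl : l = l'
    · subst hl
      have hb : b ≠ b' := by
        rintro rfl; exact hij rfl
      have h3 := congrArg (F l.1) h1
      rw [F_pt_self l.2.2.1, F_pt_self l.2.2.1] at h3
      have hs0 : (0 : ℝ) ≤ s := s.2.1
      have hs1 : (s : ℝ) ≤ 1 := s.2.2
      have ht0 : (0 : ℝ) ≤ t := t.2.1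
      have ht1 : (t : ℝ) ≤ 1 := t.2.2
      cases b <;> cases b' <;> simp at h3 hb
      · exact ⟨Or.inr (Subtype.ext (by show (s : ℝ) = 1; linarith)),
          Or.inl (Subtype.ext (by show (t : ℝ) = 0; linarith))⟩
      · exact ⟨Or.inl (Subtype.ext (by show (s : ℝ) = 0; linarith)),
          Or.inr (Subtype.ext (by show (t : ℝ) = 1; linarith))⟩
    · have hl' : l.1 ≠ l'.1 := fun h => hl (Subtype.ext h)
      have h3 := congrArg (F l.1) h1
      rw [F_pt_self l.2.2.1] at h3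
      have h4 := congrArg (F l'.1) h1.symm
      rw [F_pt_self l'.2.2.1] at h4
      constructor
      · refine end_of_int h3 ?_
        rcases F_pt_other l.2.2.1 hl' ((t : ℝ) + if b' then 1 else 0) with h | h
        · left; exact h
        · right; right; exact h
      · refine end_of_int h4 ?_
        rcases F_pt_other l'.2.2.1 hl'.symm ((s : ℝ) + if b then 1 else 0) with h | h
        · left; exact h
        · right; right; exact h
  · exact sheet_strip h
  · exact sheet_whisk hτ h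
  · exact (sheet_strip h.symm).symm
  · simp only [arc, Prod.mk.injEq, and_true] at h
    obtain ⟨h1, h2⟩ := h
    have hs0 : (0 : ℝ) ≤ s := s.2.1
    have hs1 : (s : ℝ) ≤ 1 := s.2.2
    by_cases hx : x = x'
    · subst hx
      have h3 := congrArg (F [x]) h1
      rw [F_pt_self (by simp), F_pt_self (by simp)] at h3
      have hk : k ≠ k' := by rintro rfl; exact hij rfl
      rw [← h3, y1_pt x hs1, y2_pt x hs1] at h2
      have hs : (s : ℝ) = 1 := by
        fin_cases x <;> cases k <;> cases k' <;> simp at h2 hk <;> linarith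
      exact ⟨Or.inr (Subtype.ext hs), Or.inr (Subtype.ext (by show (t : ℝ) = 1; linarith))⟩
    · have h3 := congrArg (F [x]) h1
      rw [F_pt_self (by simp), F_pt_single (by simp) (by simpa using hx)] at h3
      have h4 := congrArg (F [x']) h1
      rw [F_pt_self (by simp), F_pt_single (by simp) (by simpa using Ne.symm hx)] at h4
      exact ⟨Or.inl (Subtype.ext h3), Or.inl (Subtype.ext h4.symm)⟩
  · exact strip_whisk hτ h
  · exact (sheet_whisk hτ h.symm).symm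
  · exact (strip_whisk hτ h.symm).symm
  · exact absurd rfl hij

theorem arcs_SS (n : ℕ) {τ : ℝ} (_h0 : 0 < τ) (h1 : τ < 1) :
    ∃ (ι : Type) (_ : Finite ι) (e : ι → unitInterval → P × ℝ × ℝ),
      (∀ i, Continuous (e i) ∧ Function.Injective (e i)) ∧
      (∀ i s, e i s ∈ SS n τ) ∧ (∀ p ∈ SS n τ, ∃ i s, e i s = p) ∧
      (∀ i j, i ≠ j → ∀ s t, e i s = e j t → (s = 0 ∨ s = 1) ∧ (t = 0 ∨ t = 1)) :=
  ⟨Idx n, inferInstance, arc n τ, fun i => ⟨arc_cont n τ i, arc_inj n h1 i⟩,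
    fun i s => arc_mem n h1 i s, fun _ hp => arc_surj n h1 hp,
    fun i j hij s t h => arc_meet n h1 i j hij s t h⟩

end Pool.Agent.H699T
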